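import Pool.Agent.Lib.MP_544a75_co.Hang

set_option autoImplicit false

namespace Pool.Agent.Lib.MP_544a75_co

open Finset

variable {V : Type*} [DecidableEq V]

/-- Reset the weight of the pair `a`, `b`. -/
def setw (wt : V → V → ℕ) (a b : V) (p : ℕ) : V → V → ℕ := fun s t =>
  if (s = a ∧ t = b) ∨ (s = b ∧ t = a) then p else wt s t

theorem setw_symm {wt : V → V → ℕ} (hs : ∀ a b, wt a b = wt b a) (a b : V) (p : ℕ) (s t : V) :
    setw wt a b p s t = setw wt a b p t s := by
  unfold setw
  rw [hs s t]
  congr 1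
  apply propext
  tauto

theorem setw_other (wt : V → V → ℕ) (a b : V) (p : ℕ) {s t : V} (hs : s ≠ b) (ht : t ≠ b) :
    setw wt a b p s t = wt s t := by simp [setw, hs, ht]

theorem setw_other' (wt : V → V → ℕ) (a b : V) (p : ℕ) {s t : V} (hs : s ≠ a) (ht : t ≠ a) :
    setw wt a b p s t = wt s t := by simp [setw, hs, ht]

theorem setw_self (wt : V → V → ℕ) (a b : V) (p : ℕ) : setw wt a b p a b = p := by simp [setw]

theorem hang_path {wt : V → V → ℕ} {D : Finset V} {x y b : V} {H : Finset V}
    (I : Inst wt D x y) (hb : b ∈ D) (hH : H ⊆ D.erase b) (hA : Att wt D x y H x b)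
    (hne : H.Nonempty) : WP wt b H x 1 := by
  have J := hang_inst I hb hH hA
  obtain ⟨u, hu, t, ht, htU, htb, hw⟩ := J.conn H subset_rfl hne b
  have htx : t = x := by
    rcases ht with ht | ht | ht
    · exact absurd ht htU
    · exact ht
    · exact absurd ht htb
  subst htx
  have hr : WP wt b (H.erase u) u 1 := by
    apply reach _ u hu
    intro U hU hUne
    obtain ⟨a, ha, s, hs, hsU, hst, hw2⟩ := J.conn U hU hUne t
    refine ⟨a, ha, s, ?_, hsU, hw2⟩
    rcases hs with hs | hs | hs
    · exact Or.inl hs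
    · exact absurd hs hst
    · exact Or.inr hs
  exact WP.step hu (by rw [I.symm]; exact hw) hr (by omega)

/-- The instance left after replacing a hanging part by a weighted edge. -/
theorem rest_bound {m : ℕ} (hM : Maj V m) {wt : V → V → ℕ} {D : Finset V} {x y b : V} {k : ℤ}
    {H : Finset V} {p : ℕ} (hc : D.card ≤ m + 1) (I : Inst wt D x y) (hP : PB wt D x y k)
    (hb : b ∈ D) (hH : H ⊆ D.erase b) (hA : Att wt D x y H x b) (hne : H.Nonempty)
    (hp : WP wt b H x p) (hp1 : 1 ≤ p) (hpx : wt b x ≤ p) :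
    0 ≤ phi ((deg wt D x y b : ℤ) - (∑ z ∈ H, wt b z : ℕ) - wt b x + p - k) +
      ∑ u ∈ (D \ H).erase b, phi (deg wt D x y u - k) := by
  have hHD : H ⊆ D := hH.trans (erase_subset _ _)
  have hbH : b ∉ H := fun h => by simpa using hH h
  have hb' : b ∈ D \ H := mem_sdiff.2 ⟨hb, hbH⟩
  have hDx : ∀ u ∈ D, u ≠ x := fun u hu e => I.xD (e ▸ hu)
  have hby : b ≠ y := fun e => I.yD (e ▸ hb)
  have hle : ∀ s t, wt s t ≤ setw wt b x p s t := by
    intro s t
    unfold setw
    split_ifs with h
    · rcases h with h | h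
      · rw [h.1, h.2]; exact hpx
      · rw [h.1, h.2, I.symm]; exact hpx
    · exact le_rfl
  have I1 : Inst (setw wt b x p) (D \ H) x y := by
    refine ⟨setw_symm I.symm _ _ _, ?_, ?_, fun h => I.xD (mem_sdiff.1 h).1,
      fun h => I.yD (mem_sdiff.1 h).1, I.xy, ?_⟩
    · intro u hu
      have hu' := (mem_sdiff.1 hu).1
      rw [setw_other _ _ _ _ (hDx u hu') (hDx u hu')]
      exact I.diag u hu'
    · intro u hu z hz
      have hu' := (mem_sdiff.1 hu).1
      have hz' := (mem_sdiff.1 hz).1
      rw [setw_other _ _ _ _ (hDx u hu') (hDx z hz')]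
      exact I.le_one u hu' z hz'
    · intro U hU hUne z
      have hUD : U ⊆ D := hU.trans sdiff_subset
      have hmem : ∀ t, (t ∈ D ∨ t = x ∨ t = y) → t ∉ H → (t ∈ D \ H ∨ t = x ∨ t = y) := by
        intro t ht htH
        rcases ht with ht | ht
        · exact Or.inl (mem_sdiff.2 ⟨ht, htH⟩)
        · exact Or.inr ht
      by_cases hbU : b ∈ U
      · obtain ⟨u, hu, t, ht, htU, htz, hw⟩ := I.conn (U ∪ H) (union_subset hUD hHD)
          (hUne.mono subset_union_left) z
        simp only [mem_union, not_or] at hu htU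
        rcases hu with hu | hu
        · exact ⟨u, hu, t, hmem t ht htU.2, htU.1, htz, hw.trans (hle _ _)⟩
        · rcases hA u hu t ht htU.2 hw with e | e
          · subst e
            exact ⟨b, hbU, t, Or.inr (Or.inl rfl), htU.1, htz, by rw [setw_self]; exact hp1⟩
          · exact absurd (e ▸ hbU) htU.1
      · obtain ⟨u, hu, t, ht, htU, htz, hw⟩ := I.conn U hUD hUne z
        have htH : t ∉ H := fun hh => by
          have := hang_out I hA (u := u)
            (mem_erase.2 ⟨fun e => hbU (e ▸ hu), hU hu⟩) hh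
          omega
        exact ⟨u, hu, t, hmem t ht htH, htU, htz, hw.trans (hle _ _)⟩
  have hP1 : PB (setw wt b x p) (D \ H) x y k := by
    intro n hn
    apply hP
    have hcong : ∀ (U : Finset V) (c : V) (r : ℕ), U ⊆ D → c ≠ x →
        WP (setw wt b x p) y U c r → WP wt y U c r := by
      intro U c r hU hc h
      apply h.congr
      intro s t hs ht
      rw [setw_other]
      · rcases hs with hs | hs
        · exact hs ▸ hc
        · exact hDx s (hU hs)
      · rcases ht with ht | ht
        · exact ht ▸ I.xy.symm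
        · exact hDx t (hU ht)
    cases hn with
    | base h1 h2 =>
      rw [setw_other' _ _ _ _ (hDx b hb).symm hby.symm] at h1 h2
      exact WP.base h1 h2
    | @step _ _ c r _ hc h1 h2 h3 =>
      have hcD := (mem_sdiff.1 hc).1
      have h4 := hcong _ _ _ ((erase_subset _ _).trans sdiff_subset) (hDx c hcD) h2
      by_cases hcb : c = b
      · subst hcb
        rw [setw_symm I.symm, setw_self] at h3
        exact (hang_append hb hH hp h4).le h3
      · rw [setw_other' _ _ _ _ (hDx b hb).symm hcb] at h1 h3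
        exact WP.step hcD h1 (h4.mono (erase_subset_erase _ sdiff_subset)) h3
  have hcard : (D \ H).card ≤ m := by
    rw [card_sdiff_of_subset hHD]
    have := hne.card_pos
    omega
  have h0 := hM _ _ x y k hcard I1 hP1
  rw [← add_sum_erase _ _ hb'] at h0
  have hsum : ∀ u, ∑ z ∈ D, wt u z = ∑ z ∈ D \ H, wt u z + ∑ z ∈ H, wt u z :=
    fun u => (sum_sdiff hHD).symm
  have e1 : ∀ u ∈ D, ∑ z ∈ D \ H, setw wt b x p u z = ∑ z ∈ D \ H, wt u z := fun u hu =>
    sum_congr rfl fun z hz => setw_other _ _ _ _ (hDx u hu) (hDx z (mem_sdiff.1 hz).1)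
  have e2 : (deg (setw wt b x p) (D \ H) x y b : ℤ) =
      (deg wt D x y b : ℤ) - (∑ z ∈ H, wt b z : ℕ) - wt b x + p := by
    unfold deg
    rw [e1 b hb, setw_self, setw_other _ _ _ _ (hDx b hb) I.xy.symm, hsum b]
    push_cast
    ring
  have e3 : ∑ u ∈ (D \ H).erase b, phi (deg (setw wt b x p) (D \ H) x y u - k) =
      ∑ u ∈ (D \ H).erase b, phi (deg wt D x y u - k) := by
    apply sum_congr rfl
    intro u hu
    have huD := (mem_sdiff.1 (mem_of_mem_erase hu)).1
    have : deg (setw wt b x p) (D \ H) x y u = deg wt D x y u := by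
      unfold deg
      rw [e1 u huD, setw_other' _ _ _ _ (mem_erase.1 hu).1 (hDx b hb).symm,
        setw_other _ _ _ _ (hDx u huD) I.xy.symm, hsum u,
        sum_eq_zero (s := H) fun z hz => hang_out I hA hu hz]
      simp
    rw [this]
  rw [e2, e3] at h0
  exact h0

/-- The hanging part together with its attachment vertex. -/
theorem top_bound {m : ℕ} (hM : Maj V m) {wt : V → V → ℕ} {D : Finset V} {x y b : V}
    {H : Finset V} {p : ℕ} (hc : H.card + 1 ≤ m) (I : Inst wt D x y)
    (hb : b ∈ D) (hH : H ⊆ D.erase b) (hA : Att wt D x y H x b) (hne : H.Nonempty)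
    (hp : ∀ n, WP wt b H x n → n ≤ p) (he : p + 2 ≤ ∑ z ∈ H, wt b z + wt b x) :
    2 ≤ ∑ u ∈ H, phi (deg wt D x y u - (p + 2 : ℕ)) := by
  have hHD : H ⊆ D := hH.trans (erase_subset _ _)
  have hbH : b ∉ H := fun h => by simpa using hH h
  have hDx : ∀ u ∈ D, u ≠ x := fun u hu e => I.xD (e ▸ hu)
  have hDy : ∀ u ∈ D, u ≠ y := fun u hu e => I.yD (e ▸ hu)
  have hsub : insert b H ⊆ D := insert_subset hb hHD
  set w2 := setw (setw wt x y 0) b y 1 with hw2
  have ho : ∀ s t, s ≠ y → t ≠ y → w2 s t = wt s t := by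
    intro s t hs ht
    rw [hw2, setw_other _ _ _ _ hs ht, setw_other _ _ _ _ hs ht]
  have hby : w2 b y = 1 := setw_self _ _ _ _
  have hxy : w2 x y = 0 := by
    rw [hw2, setw_other' _ _ _ _ (hDx b hb).symm (hDy b hb).symm, setw_self]
  have hHy0 : ∀ u ∈ H, wt u y = 0 := by
    intro u hu
    by_contra hh
    rcases hA u hu y (Or.inr (Or.inr rfl)) (fun h => I.yD (hHD h)) (by omega) with h | h
    · exact I.xy h.symm
    · exact I.yD (h ▸ hb)
  have hHy : ∀ u ∈ H, w2 u y = 0 := by
    intro u hu
    have hub : u ≠ b := fun e => hbH (e ▸ hu)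
    rw [hw2, setw_other' _ _ _ _ hub (hDy b hb).symm,
      setw_other' _ _ _ _ (hDx u (hHD hu)) I.xy.symm]
    exact hHy0 u hu
  have hsy : ∀ a c, w2 a c = w2 c a := setw_symm (setw_symm I.symm _ _ _) _ _ _
  have J := hang_inst I hb hH hA
  have I2 : Inst w2 (insert b H) x y := by
    refine ⟨hsy, ?_, ?_, fun h => I.xD (hsub h), fun h => I.yD (hsub h), I.xy, ?_⟩
    · intro u hu
      rw [ho _ _ (hDy u (hsub hu)) (hDy u (hsub hu))]
      exact I.diag u (hsub hu)
    · intro u hu z hz
      rw [ho _ _ (hDy u (hsub hu)) (hDy z (hsub hz))]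
      exact I.le_one u (hsub hu) z (hsub hz)
    · intro U hU hUne z
      have hyU : y ∉ U := fun h => I.yD (hsub (hU h))
      have hty : ∀ t, (t ∈ H ∨ t = x ∨ t = b) → t ≠ y := by
        intro t ht
        rcases ht with ht | ht | ht
        · exact hDy t (hHD ht)
        · exact ht ▸ I.xy
        · exact ht ▸ hDy b hb
      have hmem : ∀ t, (t ∈ H ∨ t = x ∨ t = b) → (t ∈ insert b H ∨ t = x ∨ t = y) := by
        intro t ht
        rcases ht with ht | ht | ht
        · exact Or.inl (mem_insert_of_mem ht)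
        · exact Or.inr (Or.inl ht)
        · exact Or.inl (ht ▸ mem_insert_self _ _)
      by_cases hbU : b ∈ U
      · by_cases hz : z = y
        · by_cases hHU : H ⊆ U
          · obtain ⟨u, hu, t, ht, htU, htb, hw⟩ := J.conn H subset_rfl hne b
            have htx : t = x := by
              rcases ht with ht | ht | ht
              · exact absurd ht htU
              · exact ht
              · exact absurd ht htb
            subst htx
            refine ⟨u, hHU hu, t, Or.inr (Or.inl rfl), fun h => I.xD (hsub (hU h)),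
              hz ▸ I.xy, ?_⟩
            rwa [ho _ _ (hDy u (hHD hu)) I.xy]
          · obtain ⟨u, hu, t, ht, htU, htx, hw⟩ := J.conn (H \ U) sdiff_subset
              (sdiff_nonempty.2 hHU) x
            rw [mem_sdiff] at hu
            have htU' : t ∈ U := by
              rcases ht with ht | ht | ht
              · by_contra hh
                exact htU (mem_sdiff.2 ⟨ht, hh⟩)
              · exact absurd ht htx
              · exact ht ▸ hbU
            refine ⟨t, htU', u, Or.inl (mem_insert_of_mem hu.1), hu.2,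
              hz ▸ hDy u (hHD hu.1), ?_⟩
            rw [ho _ _ (hty t ht) (hDy u (hHD hu.1)), I.symm]
            exact hw
        · exact ⟨b, hbU, y, Or.inr (Or.inr rfl), hyU, fun e => hz e.symm, by omega⟩
      · have hUH : U ⊆ H := fun a ha =>
          (mem_insert.1 (hU ha)).resolve_left fun e => hbU (e ▸ ha)
        obtain ⟨u, hu, t, ht, htU, htz, hw⟩ := J.conn U hUH hUne z
        refine ⟨u, hu, t, hmem t ht, htU, htz, ?_⟩
        rwa [ho _ _ (hDy u (hHD (hUH hu))) (hty t ht)]
  have hno : ∀ (U : Finset V) (a : V) (n : ℕ), WP w2 y U a n → U ⊆ H → (a ∈ H ∨ a = x) → False := by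
    intro U a n h
    induction h with
    | @base U a n h1 _ =>
      intro _ ha
      rcases ha with ha | ha
      · rw [hHy a ha] at h1; omega
      · rw [ha, hxy] at h1; omega
    | @step U a c r n hc _ _ _ ih =>
      intro hU _
      exact ih ((erase_subset _ _).trans hU) (Or.inl (hU hc))
  have hmain : ∀ (U : Finset V) (a : V) (n : ℕ), WP w2 y U a n → U ⊆ insert b H →
      (a ∈ H ∨ a = x) → WP wt b (U.erase b) a (n - 1) := by
    intro U a n h
    induction h with
    | @base U a n h1 _ =>
      intro _ ha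
      rcases ha with ha | ha
      · rw [hHy a ha] at h1; omega
      · rw [ha, hxy] at h1; omega
    | @step U a c r n hc h1 h2 h3 ih =>
      intro hU ha
      have hay : a ≠ y := by
        rcases ha with ha | ha
        · exact hDy a (hHD ha)
        · exact ha ▸ I.xy
      rw [ho _ _ hay (hDy c (hsub (hU hc)))] at h1 h3
      by_cases hcb : c = b
      · subst hcb
        have hUH : U.erase c ⊆ H := fun t ht =>
          (mem_insert.1 (hU (mem_of_mem_erase ht))).resolve_left (mem_erase.1 ht).1
        have hr : r ≤ 1 := by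
          cases h2 with
          | base _ h5 => omega
          | step hc' _ h6 _ =>
            exact (hno _ _ _ h6 ((erase_subset _ _).trans hUH) (Or.inl (hUH hc'))).elim
        exact WP.base h1 (by omega)
      · have hcH : c ∈ H := (mem_insert.1 (hU hc)).resolve_left hcb
        have := ih ((erase_subset _ _).trans hU) (Or.inl hcH)
        rw [erase_right_comm] at this
        exact WP.step (mem_erase.2 ⟨hcb, hc⟩) h1 this (by omega)
  have hP2 : PB w2 (insert b H) x y (((p + 2 : ℕ) : ℤ) - 1) := by
    intro n hn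
    have := hmain _ _ _ hn subset_rfl (Or.inr rfl)
    rw [erase_insert hbH] at this
    have := hp _ this
    push_cast
    omega
  have h1 := slack hM (by rw [card_insert_of_notMem hbH]; exact hc) (insert_nonempty _ _) I2 hP2
  rw [sum_insert hbH] at h1
  have e1 : ∀ u ∈ insert b H, ∑ z ∈ H, w2 u z = ∑ z ∈ H, wt u z := fun u hu =>
    sum_congr rfl fun z hz => ho _ _ (hDy u (hsub hu)) (hDy z (hHD hz))
  have e2 : phi ((deg w2 (insert b H) x y b : ℤ) - (p + 2 : ℕ)) = -1 := by
    apply phi_pos
    unfold deg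
    rw [sum_insert hbH, e1 b (mem_insert_self _ _), hby, ho _ _ (hDy b hb) I.xy]
    omega
  have e3 : ∑ u ∈ H, phi ((deg w2 (insert b H) x y u : ℤ) - (p + 2 : ℕ)) =
      ∑ u ∈ H, phi (deg wt D x y u - (p + 2 : ℕ)) := by
    apply sum_congr rfl
    intro u hu
    have : deg w2 (insert b H) x y u = deg wt D x y u := by
      rw [← hang_deg I hb hH hA hu]
      unfold deg
      rw [sum_insert hbH, e1 u (mem_insert_of_mem hu), hHy u hu, ho _ _ (hDy u (hHD hu)) I.xy,
        ho _ _ (hDy u (hHD hu)) (hDy b hb)]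
      omega
    rw [this]
  rw [e2, e3] at h1
  omega

end Pool.Agent.Lib.MP_544a75_co
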