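import Pool.Agent.Lib.MP_544a75_co.Core

set_option autoImplicit false

namespace Pool.Agent.Lib.MP_544a75_co

open Finset

variable {V : Type*} [DecidableEq V] [Fintype V]

theorem clique_core {G : SimpleGraph V} [DecidableRel G.Adj]
    (h2 : ∀ v, (G.induce {w | w ≠ v}).Connected) {c : ℕ} (hc3 : 3 ≤ c)
    (hcyc : ∀ (u : V) (p : G.Walk u u), p.IsCycle → p.length < c)
    {K : Set V} (hK : K.Pairwise G.Adj) {a b : V} (ha : a ∈ K) (hb : b ∈ K) (hab : a ≠ b) :
    ∃ S : Finset V, (∀ v ∈ K, v ∈ S) ∧ S.card < c ∧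
      0 ≤ ∑ u ∈ Sᶜ, phi (G.degree u - ((c - 1) / 2 : ℕ)) := by
  classical
  let Good : List V → Prop := fun l => l.IsChain G.Adj ∧ l.Nodup ∧ 2 ≤ l.length ∧
    (∃ s ∈ K, l.head? = some s) ∧ ∃ t ∈ K, l.getLast? = some t
  have hg0 : Good [a, b] :=
    ⟨by simpa using hK ha hb hab, by simpa using hab, by simp, ⟨a, ha, rfl⟩, ⟨b, hb, rfl⟩⟩
  obtain ⟨P, hP, hmax⟩ : ∃ P, Good P ∧ ∀ l, Good l → l.length ≤ P.length := by
    have hbd : BddAbove {n | ∃ l, Good l ∧ l.length = n} := by
      refine ⟨Fintype.card V, ?_⟩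
      rintro n ⟨l, hl, rfl⟩
      exact hl.2.1.length_le_card
    obtain ⟨P, hP, hl⟩ := Nat.sSup_mem (s := {n | ∃ l, Good l ∧ l.length = n}) ⟨2, _, hg0, rfl⟩ hbd
    exact ⟨P, hP, fun l hl' => hl ▸ le_csSup hbd ⟨l, hl', rfl⟩⟩
  obtain ⟨hch, hn, hl, ⟨s, hs, hhead⟩, ⟨t, ht, hlast⟩⟩ := hP
  have hT : Tight G P := by
    intro A B C Q s' t' hPe hQn hQP hQ
    have hg : Good (A ++ s' :: (Q ++ t' :: C)) := by
      refine ⟨?_, ?_, by simp; omega, ⟨s, hs, ?_⟩, ⟨t, ht, ?_⟩⟩
      · rw [hPe, List.isChain_split, List.isChain_cons_split] at hch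
        rw [List.isChain_split, List.isChain_cons_split]
        exact ⟨hch.1, hQ, hch.2.2⟩
      · have hperm : (A ++ s' :: (Q ++ t' :: C)).Perm (Q ++ (A ++ s' :: t' :: C)) := by
          rw [List.perm_iff_count]
          intro z
          simp only [List.count_append, List.count_cons]
          omega
        rw [hperm.nodup_iff, List.nodup_append]
        have hsub : (A ++ s' :: t' :: C).Sublist P := by
          rw [hPe]
          apply List.Sublist.append_left
          apply List.Sublist.cons_cons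
          exact List.sublist_append_right _ _
        exact ⟨hQn, hsub.nodup hn, fun z hz w hw e => hQP z hz (e ▸ hsub.subset hw)⟩
      · rw [← hhead, hPe]
        cases A <;> simp
      · rw [← hlast, hPe]
        simp [List.getLast?_append, List.getLast?_cons]
    have := hmax _ hg
    rw [hPe] at this
    simp only [List.length_append, List.length_cons] at this
    omega
  refine ⟨P.toFinset, ?_, ?_, ?_⟩
  · intro v hv
    by_contra hvP
    rw [List.mem_toFinset] at hvP
    have htP : t ∈ P := List.mem_of_getLast? hlast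
    have hg : Good (P ++ [v]) := by
      refine ⟨?_, ?_, by simp; omega, ⟨s, hs, ?_⟩, ⟨v, hv, by simp⟩⟩
      · rw [List.isChain_append]
        refine ⟨hch, by simp, ?_⟩
        intro p hp q hq
        rw [hlast] at hp
        simp at hp hq
        subst hp hq
        exact hK ht hv fun e => hvP (e ▸ htP)
      · rw [List.nodup_append]
        refine ⟨hn, by simp, fun z hz w hw e => hvP ?_⟩
        rw [List.mem_singleton] at hw
        rw [← hw, ← e]
        exact hz
      · rw [List.head?_append, hhead]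
        rfl
    have := hmax _ hg
    simp at this
  · rw [List.toFinset_card_of_nodup hn]
    match P, hch, hn, hl, hhead, hlast with
    | p :: l, hch, hn, hl, hhead, hlast =>
      by_cases h2l : 2 ≤ l.length
      · have hps : p = s := by simpa using hhead
        subst hps
        have htl : t ∈ l := by
          cases l with
          | nil => simp at h2l
          | cons q l =>
            rw [List.getLast?_cons_cons] at hlast
            exact List.mem_of_getLast? hlast
        have hch2 : ((p :: l) ++ [p]).IsChain G.Adj := by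
          rw [List.isChain_append]
          refine ⟨hch, by simp, ?_⟩
          intro p' hp q hq
          rw [hlast] at hp
          simp at hp hq
          subst hp hq
          exact hK ht hs fun e => (List.nodup_cons.1 hn).1 (e ▸ htl)
        obtain ⟨u, w, hw, hwl⟩ := cycle_of_list (by simpa using hch2) hn h2l
        have := hcyc u w hw
        rw [List.length_cons]
        omega
      · rw [List.length_cons]
        omega
  · refine outside_bound h2 hch hn hl hT hcyc _ _ le_rfl (fun u hu => by simpa using hu) ?_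
    intro u _ w _
    by_cases hw : w ∈ P
    · exact Or.inr hw
    · exact Or.inl (by simpa using hw)

omit [DecidableEq V] in
theorem compl_card_le {G : SimpleGraph V} [DecidableRel G.Adj] {R : Finset V} {k : ℕ}
    (h : 0 ≤ ∑ u ∈ R, phi (G.degree u - (k : ℕ))) :
    R.card ≤ 2 * (R.filter fun u => G.degree u ≤ k).card := by
  rw [← sum_filter_add_sum_filter_not R fun u => G.degree u ≤ k] at h
  have h1 : ∑ u ∈ R.filter (fun u => G.degree u ≤ k), phi (G.degree u - (k : ℕ)) ≤
      ∑ _u ∈ R.filter (fun u => G.degree u ≤ k), (1 : ℤ) := sum_le_sum fun u _ => phi_le_one _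
  have h2 : ∑ u ∈ R.filter (fun u => ¬ G.degree u ≤ k), phi (G.degree u - (k : ℕ)) =
      ∑ _u ∈ R.filter (fun u => ¬ G.degree u ≤ k), (-1 : ℤ) :=
    sum_congr rfl fun u hu => phi_pos (by have := (mem_filter.1 hu).2; omega)
  have e := card_filter_add_card_filter_not (s := R) (fun u => G.degree u ≤ k)
  rw [h2] at h
  simp only [sum_const, mul_one, nsmul_eq_mul, mul_neg] at h h1
  omega

theorem exists_adj {G : SimpleGraph V} (h2 : ∀ v, (G.induce {w | w ≠ v}).Connected)
    (h3 : 3 ≤ Fintype.card V) (v z : V) : ∃ t, t ≠ z ∧ G.Adj v t := by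
  obtain ⟨z', hz'v, hz'⟩ : ∃ z', z' ≠ v ∧ (z = v ∨ z' = z) := by
    by_cases h : z = v
    · obtain ⟨z', hz'⟩ := Fintype.exists_ne_of_one_lt_card (by omega) v
      exact ⟨z', hz', Or.inl h⟩
    · exact ⟨z, h, Or.inr rfl⟩
  obtain ⟨w, hw⟩ : ∃ w, w ∉ ({v, z'} : Finset V) := by
    by_contra hh
    push Not at hh
    have := card_le_card (s := univ) (t := {v, z'}) fun w _ => hh w
    have := card_le_two (a := v) (b := z')
    rw [card_univ] at *
    omega
  simp only [mem_insert, mem_singleton, not_or] at hw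
  obtain ⟨u, hu, t, ht, htz, ha⟩ := two_conn h2 (U := {v}) (u0 := v) (w := w) (z := z') (by simp)
    (by simpa using hz'v) (by simpa using hw.1) hw.2
  rw [mem_singleton] at hu ht
  subst hu
  refine ⟨t, ?_, ha⟩
  rcases hz' with h | h
  · exact h ▸ ht
  · exact h ▸ htz

theorem two_le_degree {G : SimpleGraph V} [DecidableRel G.Adj]
    (h2 : ∀ v, (G.induce {w | w ≠ v}).Connected) (h3 : 3 ≤ Fintype.card V) (v : V) :
    2 ≤ G.degree v := by
  obtain ⟨t, -, ht⟩ := exists_adj h2 h3 v v
  obtain ⟨t', ht', ht''⟩ := exists_adj h2 h3 v t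
  rw [← SimpleGraph.card_neighborFinset_eq_degree]
  have : ({t', t} : Finset V) ⊆ G.neighborFinset v := by
    intro a ha
    simp only [mem_insert, mem_singleton] at ha
    rcases ha with ha | ha <;> simp [ha, ht, ht'']
  have := card_le_card this
  rwa [card_pair ht'] at this

/-- A clique extends to a vertex set of size below `c` off which the low vertices are a majority. -/
theorem clique_cover {G : SimpleGraph V} [DecidableRel G.Adj]
    (h2 : ∀ v, (G.induce {w | w ≠ v}).Connected) (h3 : 3 ≤ Fintype.card V) {c : ℕ} (hc3 : 3 ≤ c)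
    (hcyc : ∀ (u : V) (p : G.Walk u u), p.IsCycle → p.length < c)
    {K : Set V} (hK : K.Pairwise G.Adj) :
    ∃ S : Finset V, (∀ v ∈ K, v ∈ S) ∧ S.card < c ∧
      Sᶜ.card ≤ 2 * (Sᶜ.filter fun u => G.degree u ≤ (c - 1) / 2).card := by
  have : ∃ K' : Set V, K ⊆ K' ∧ K'.Pairwise G.Adj ∧ ∃ a ∈ K', ∃ b ∈ K', a ≠ b := by
    by_cases hs : K.Subsingleton
    · obtain ⟨a, ha⟩ : ∃ a, K ⊆ {a} := by
        rcases hs.eq_empty_or_singleton with h | ⟨a, h⟩
        · have : Nonempty V := Fintype.card_pos_iff.1 (by omega)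
          exact ⟨Classical.arbitrary V, by simp [h]⟩
        · exact ⟨a, by simp [h]⟩
      obtain ⟨b, -, hab⟩ := exists_adj h2 h3 a a
      refine ⟨{a, b}, ha.trans (by simp), ?_, a, by simp, b, by simp, hab.ne⟩
      exact Set.pairwise_pair.2 fun _ => ⟨hab, hab.symm⟩
    · obtain ⟨a, ha, b, hb, hab⟩ := Set.not_subsingleton_iff.1 hs
      exact ⟨K, subset_rfl, hK, a, ha, b, hb, hab⟩
  obtain ⟨K', hKK, hK', a, ha, b, hb, hab⟩ := this
  obtain ⟨S, h1, h3, h4⟩ := clique_core h2 hc3 hcyc hK' ha hb hab
  exact ⟨S, fun v hv => h1 v (hKK hv), h3, compl_card_le h4⟩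

end Pool.Agent.Lib.MP_544a75_co
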