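import Pool.Agent.Lib.MP_544a75_co.WPath

set_option autoImplicit false

namespace Pool.Agent.Lib.MP_544a75_co

open Finset

variable {V : Type*} [DecidableEq V]

/-- All attachments of `U` are among `s`, `b`. -/
def Att (wt : V → V → ℕ) (D : Finset V) (x y : V) (U : Finset V) (s b : V) : Prop :=
  ∀ u ∈ U, ∀ t, (t ∈ D ∨ t = x ∨ t = y) → t ∉ U → 1 ≤ wt u t → t = s ∨ t = b

theorem exists_contractible {wt : V → V → ℕ} {D : Finset V} {x y v : V} (I : Inst wt D x y)
    (hv : v ∈ D) : ∃ f, (f ∈ D ∨ f = x ∨ f = y) ∧ f ≠ v ∧ 1 ≤ wt v f ∧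
      ∀ U ⊆ D, U.Nonempty → v ∉ U → f ∉ U → ¬ Att wt D x y U v f := by
  classical
  by_contra hne
  push Not at hne
  have key : ∀ m : ℕ, ∀ f U, (f ∈ D ∨ f = x ∨ f = y) → f ≠ v → U ⊆ D → U.Nonempty → v ∉ U →
      f ∉ U → Att wt D x y U v f → U.card = m → False := by
    intro m
    induction m using Nat.strong_induction_on with
    | _ m ih =>
      intro f U hf hfv hUD hUne hvU hfU hA hcard
      obtain ⟨f', hf'U, t, ht, htU, htf, hw⟩ := I.conn U hUD hUne f
      have htv : t = v := (hA f' hf'U t ht htU hw).resolve_right htf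
      subst htv
      have hf'D : f' ∈ D := hUD hf'U
      have hf't : f' ≠ t := fun e => hvU (e ▸ hf'U)
      obtain ⟨U', hU'D, hU'ne, hvU', hfU', hA'⟩ :=
        hne f' (Or.inl hf'D) hf't (by rw [I.symm]; exact hw)
      by_cases hfU'' : f ∈ U'
      · -- use U \ U' minus f'
        obtain ⟨u, hu, s, hs, hsU, hst, hw2⟩ := I.conn (insert f' U')
          (insert_subset hf'D hU'D) (insert_nonempty _ _) t
        simp only [mem_insert, not_or] at hu hsU
        have huf : u = f' := by
          rcases hu with hu | hu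
          · exact hu
          · rcases hA' u hu s hs hsU.2 hw2 with h | h
            · exact absurd h hst
            · exact absurd h hsU.1
        subst huf
        have hsU2 : s ∈ U := by
          by_contra hh
          rcases hA u hf'U s hs hh hw2 with h | h
          · exact hst h
          · exact hsU.2 (h ▸ hfU'')
        refine ih (((U \ U').erase u).card) ?_ u ((U \ U').erase u) (Or.inl hf'D) hf't
          ?_ ⟨s, by simp [hsU2, hsU.1, hsU.2]⟩ ?_ (by simp) ?_ rfl
        · rw [← hcard]
          apply card_lt_card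
          refine ⟨fun a ha => (mem_sdiff.1 (mem_of_mem_erase ha)).1, fun hh => ?_⟩
          simpa using hh hf'U
        · exact fun a ha => hUD (mem_sdiff.1 (mem_of_mem_erase ha)).1
        · exact fun ha => hvU (mem_sdiff.1 (mem_of_mem_erase ha)).1
        · intro a ha r hr hrU hw3
          simp only [mem_erase, mem_sdiff, not_and, not_not] at ha hrU
          by_cases hru : r = u
          · exact Or.inr hru
          by_cases hrU' : r ∈ U'
          · rcases hA' r hrU' a (Or.inl (hUD ha.2.1)) ha.2.2 (by rw [I.symm]; exact hw3) with h | h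
            · exact absurd (h ▸ ha.2.1) hvU
            · exact absurd h ha.1
          · have hrU2 : r ∉ U := fun hh => hrU' (hrU hru hh)
            rcases hA a ha.2.1 r hr hrU2 hw3 with h | h
            · exact Or.inl h
            · exact absurd (h ▸ hfU'') hrU'
      · obtain ⟨u, hu, s, hs, hsU, hst, hw2⟩ := I.conn U' hU'D hU'ne t
        have hsf : s = f' := (hA' u hu s hs hsU hw2).resolve_left hst
        subst hsf
        have huU : u ∈ U := by
          by_contra hh
          rcases hA s hf'U u (Or.inl (hU'D hu)) hh (by rw [I.symm]; exact hw2) with h | h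
          · exact hvU' (h ▸ hu)
          · exact hfU'' (h ▸ hu)
        refine ih ((U ∩ U').card) ?_ s (U ∩ U') (Or.inl hf'D) hf't
          ?_ ⟨u, by simp [huU, hu]⟩ ?_ ?_ ?_ rfl
        · rw [← hcard]
          apply card_lt_card
          refine ⟨inter_subset_left, fun hh => ?_⟩
          exact hfU' (mem_inter.1 (hh hf'U)).2
        · exact fun a ha => hUD (mem_inter.1 ha).1
        · exact fun ha => hvU (mem_inter.1 ha).1
        · exact fun ha => hfU' (mem_inter.1 ha).2
        · intro a ha r hr hrU hw3
          rw [mem_inter] at ha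
          by_cases hrU' : r ∈ U'
          · have hrU2 : r ∉ U := fun hh => hrU (mem_inter.2 ⟨hh, hrU'⟩)
            rcases hA a ha.1 r hr hrU2 hw3 with h | h
            · exact Or.inl h
            · exact absurd (h ▸ hrU') hfU''
          · exact hA' a ha.2 r hr hrU' hw3
  obtain ⟨u, hu, f, hf, hfU, -, hw⟩ := I.conn {v} (by simpa using hv) (singleton_nonempty _) v
  rw [mem_singleton] at hu hfU
  subst hu
  obtain ⟨U, hUD, hUne, hvU, hfU', hA⟩ := hne f hf hfU hw
  exact key _ f U hf hfU hUD hUne hvU hfU' hA rfl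

theorem contract {wt : V → V → ℕ} {D : Finset V} {x y v : V} (I : Inst wt D x y)
    (hv : v ∈ D) : ∃ wt' : V → V → ℕ, Inst wt' (D.erase v) x y ∧
      (∀ k, PB wt D x y k → PB wt' (D.erase v) x y k) ∧ ∀ a b, wt a b ≤ wt' a b := by
  obtain ⟨f, hf, hfv, hw, hgood⟩ := exists_contractible I hv
  have hw' : 1 ≤ wt f v := by rw [I.symm]; exact hw
  refine ⟨ctr wt v f, ?_, ?_, le_ctr wt v f⟩
  · refine ⟨?_, ?_, ?_, fun h => I.xD (mem_of_mem_erase h), fun h => I.yD (mem_of_mem_erase h),
      I.xy, ?_⟩
    · intro a b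
      by_cases ha : a = f <;> by_cases hb : b = f
      · rw [ha, hb]
      · rw [ha, ctr_left _ _ _ hb, ctr_right _ _ _ hb, I.symm f, I.symm v]
      · rw [hb, ctr_left _ _ _ ha, ctr_right _ _ _ ha, I.symm f, I.symm v]
      · rw [ctr_other _ _ _ ha hb, ctr_other _ _ _ hb ha, I.symm]
    · intro u hu
      have := I.diag u (mem_of_mem_erase hu)
      simp [ctr, this]
    · intro u hu z hz
      have hu' := mem_of_mem_erase hu
      have hz' := mem_of_mem_erase hz
      unfold ctr
      split_ifs with h1 h2
      · exact max_le (I.le_one _ (h1.1 ▸ hu') _ hz') (I.le_one _ hv _ hz')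
      · exact max_le (I.le_one _ hu' _ (h2.1 ▸ hz')) (I.le_one _ hu' _ hv)
      · exact I.le_one _ hu' _ hz'
    · intro U hU hne z
      have hvU : v ∉ U := fun h => by simpa using hU h
      have hUD : U ⊆ D := hU.trans (erase_subset _ _)
      have hmem : ∀ t, (t ∈ D ∨ t = x ∨ t = y) → t ≠ v → (t ∈ D.erase v ∨ t = x ∨ t = y) := by
        intro t ht htv
        rcases ht with ht | ht
        · exact Or.inl (mem_erase.2 ⟨htv, ht⟩)
        · exact Or.inr ht
      by_cases hfU : f ∈ U
      · obtain ⟨u, hu, t, ht, htU, htz, hw2⟩ := I.conn (insert v U) (insert_subset hv hUD)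
          (insert_nonempty _ _) z
        simp only [mem_insert, not_or] at hu htU
        rcases hu with hu | hu
        · subst hu
          refine ⟨f, hfU, t, hmem t ht htU.1, htU.2, htz, ?_⟩
          have htf : t ≠ f := fun e => htU.2 (e ▸ hfU)
          rw [ctr_left _ _ _ htf]
          exact hw2.trans (le_max_right _ _)
        · exact ⟨u, hu, t, hmem t ht htU.1, htU.2, htz, hw2.trans (le_ctr _ _ _ _ _)⟩
      · by_cases hzf : z = f
        · have := hgood U hUD hne hvU hfU
          unfold Att at this
          push Not at this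
          obtain ⟨u, hu, t, ht, htU, hw2, htv, htf⟩ := this
          exact ⟨u, hu, t, hmem t ht htv, htU, hzf ▸ htf, hw2.trans (le_ctr _ _ _ _ _)⟩
        · obtain ⟨u, hu, t, ht, htU, htz, hw2⟩ := I.conn U hUD hne z
          by_cases htv : t = v
          · refine ⟨u, hu, f, hmem f hf hfv, hfU, fun e => hzf e.symm, ?_⟩
            have huf : u ≠ f := fun e => hfU (e ▸ hu)
            rw [ctr_right _ _ _ huf]
            exact (htv ▸ hw2).trans (le_max_right _ _)
          · exact ⟨u, hu, t, hmem t ht htv, htU, htz, hw2.trans (le_ctr _ _ _ _ _)⟩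
  · intro k hk n hn
    apply hk
    rcases hf with hf | hf | hf
    · have := ctr_L4 hn hw hw' (fun e => I.yD (e ▸ hf)) (by simp) (fun e => I.xD (e ▸ hf))
      rwa [insert_erase hv] at this
    · subst hf
      rcases ctr_L2 hn (fun h => I.xD (mem_of_mem_erase h)) I.xy.symm with h | h
      · exact h.mono (erase_subset _ _)
      · exact WP.step hv hw' h (by omega)
    · subst hf
      have := ctr_L3 hn hw (fun h => I.yD (mem_of_mem_erase h)) (by simp) I.xy
      rwa [insert_erase hv] at this

theorem deg_erase_le {wt wt' : V → V → ℕ} {D : Finset V} {x y v u : V} (hv : v ∈ D)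
    (h : ∀ a b, wt a b ≤ wt' a b) :
    deg wt D x y u ≤ deg wt' (D.erase v) x y u + wt u v := by
  unfold deg
  rw [← add_sum_erase D _ hv]
  have h1 : ∑ z ∈ D.erase v, wt u z ≤ ∑ z ∈ D.erase v, wt' u z := sum_le_sum fun z _ => h u z
  have := h u x
  have := h u y
  omega

/-- The majority statement for instances with at most `m` inner vertices. -/
def Maj (V : Type*) [DecidableEq V] (m : ℕ) : Prop :=
  ∀ (wt : V → V → ℕ) (D : Finset V) (x y : V) (k : ℤ), D.card ≤ m → Inst wt D x y →
    PB wt D x y k → 0 ≤ ∑ u ∈ D, phi (deg wt D x y u - k)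

theorem slack {m : ℕ} (hM : Maj V m) {wt : V → V → ℕ} {D : Finset V} {x y : V} {k : ℤ}
    (hc : D.card ≤ m) (hne : D.Nonempty) (I : Inst wt D x y) (hP : PB wt D x y (k - 1)) :
    1 ≤ ∑ u ∈ D, phi (deg wt D x y u - k) := by
  have h0 := hM wt D x y _ hc I hP
  have : ∃ v ∈ D, (deg wt D x y v : ℤ) - k < 0 := by
    by_contra hh
    push Not at hh
    have : ∑ u ∈ D, phi (deg wt D x y u - (k - 1)) < ∑ _u ∈ D, (0 : ℤ) := by
      apply sum_lt_sum_of_nonempty hne
      intro u hu
      have := hh u hu
      rw [phi_pos (by omega)]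
      omega
    simp at this
    omega
  obtain ⟨v, hv, hlow⟩ := this
  obtain ⟨wt', I', hP', hle⟩ := contract I hv
  have h1 := hM wt' _ x y _ ((card_le_card (erase_subset _ _)).trans hc) I' (hP' _ hP)
  rw [← add_sum_erase D _ hv, phi_neg hlow]
  have : ∑ u ∈ D.erase v, phi (deg wt' (D.erase v) x y u - (k - 1)) ≤
      ∑ u ∈ D.erase v, phi (deg wt D x y u - k) := by
    apply sum_le_sum
    intro u hu
    apply phi_anti
    have h2 := deg_erase_le (x := x) (y := y) (u := u) hv hle
    have h3 := I.le_one u (mem_of_mem_erase hu) v hv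
    omega
  omega

end Pool.Agent.Lib.MP_544a75_co
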