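import Pool.Agent.Lib.MP_544a75_co.Outside

set_option autoImplicit false

namespace Pool.Agent.Lib.MP_544a75_co

open Finset

variable {V : Type*} [DecidableEq V] [Fintype V]

/-- Number of neighbours of `u` on `P` other than `x`. -/
def feet (G : SimpleGraph V) [DecidableRel G.Adj] (P : List V) (x u : V) : ℕ :=
  ((P.toFinset.erase x).filter (G.Adj u)).card

/-- One-sided weights of the instance attached to a component. -/
def wt0 (G : SimpleGraph V) [DecidableRel G.Adj] (P : List V) (D : Finset V) (x y s t : V) : ℕ :=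
  if s ∈ D then (if t ∈ D ∨ t = x then (if G.Adj s t then 1 else 0)
    else if t = y then feet G P x s else 0) else 0

/-- Weights of the instance attached to a component. -/
def wtG (G : SimpleGraph V) [DecidableRel G.Adj] (P : List V) (D : Finset V) (x y s t : V) : ℕ :=
  if s ∈ D then wt0 G P D x y s t else wt0 G P D x y t s

theorem component_bound {G : SimpleGraph V} [DecidableRel G.Adj]
    (h2 : ∀ v, (G.induce {w | w ≠ v}).Connected) {P : List V} {c : ℕ}
    (hc : P.IsChain G.Adj) (hn : P.Nodup) (hl : 2 ≤ P.length) (hT : Tight G P)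
    (hcyc : ∀ (u : V) (p : G.Walk u u), p.IsCycle → p.length < c)
    {D : Finset V} (hne : D.Nonempty) (hDP : ∀ u ∈ D, u ∉ P)
    (hcl : ∀ u ∈ D, ∀ t, G.Adj u t → t ∈ D ∨ t ∈ P)
    (hconn : ∀ U ⊆ D, U.Nonempty → U ≠ D → ∃ u ∈ U, ∃ t ∈ D, t ∉ U ∧ G.Adj u t) :
    0 ≤ ∑ u ∈ D, phi (G.degree u - ((c - 1) / 2 : ℕ)) := by
  have hother : ∀ z, ∃ w ∈ P, w ≠ z := by
    intro z
    match P, hn, hl with
    | a :: b :: l, hn, _ =>
      by_cases h : a = z
      · refine ⟨b, by simp, fun e => ?_⟩
        rw [← h] at e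
        simp [e] at hn
      · exact ⟨a, by simp, h⟩
  have hatt : ∀ U ⊆ D, U.Nonempty → ∀ z, ∃ u ∈ U, ∃ t, t ∉ U ∧ t ≠ z ∧ G.Adj u t := by
    intro U hU hUne z
    obtain ⟨u0, hu0⟩ := hUne
    by_cases hz : z ∈ U
    · obtain ⟨z', hz', -⟩ := hother z
      obtain ⟨w, hw, hwz⟩ := hother z'
      obtain ⟨u, hu, t, ht, -, ha⟩ := two_conn h2 hu0 (fun h => hDP _ (hU h) hz')
        (fun h => hDP _ (hU h) hw) hwz
      exact ⟨u, hu, t, ht, fun e => ht (e ▸ hz), ha⟩
    · obtain ⟨w, hw, hwz⟩ := hother z
      exact two_conn h2 hu0 hz (fun h => hDP _ (hU h) hw) hwz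
  obtain ⟨u0, hu0, x, hxD, -, hx0⟩ := hatt D subset_rfl hne hne.choose
  have hxP : x ∈ P := (hcl u0 hu0 x hx0).resolve_left hxD
  obtain ⟨y, hyP, hyx⟩ := hother x
  have hyD : y ∉ D := fun h => hDP y h hyP
  set wt := wtG G P D x y with hwt
  have hadj : ∀ s ∈ D, ∀ t, (t ∈ D ∨ t = x) → wt s t = if G.Adj s t then 1 else 0 := by
    intro s hs t ht
    simp only [hwt, wtG, wt0, if_pos hs, if_pos ht]
  have hy : ∀ s ∈ D, wt s y = feet G P x s := by
    intro s hs
    have : ¬ (y ∈ D ∨ y = x) := by tauto
    simp only [hwt, wtG, wt0, if_pos hs, if_neg this, if_true]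
  have hsy : ∀ a b, wt a b = wt b a := by
    intro a b
    by_cases ha : a ∈ D <;> by_cases hb : b ∈ D
    · rw [hadj a ha b (Or.inl hb), hadj b hb a (Or.inl ha)]
      simp only [G.adj_comm]
    · simp only [hwt, wtG, if_pos ha, if_neg hb]
    · simp only [hwt, wtG, if_pos hb, if_neg ha]
    · simp only [hwt, wtG, wt0, if_neg hb, if_neg ha]
  have hxy0 : wt x y = 0 := by simp only [hwt, wtG, wt0, if_neg hxD, if_neg hyD]
  have I : Inst wt D x y := by
    refine ⟨hsy, ?_, ?_, hxD, hyD, hyx.symm, ?_⟩
    · intro u hu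
      rw [hadj u hu u (Or.inl hu)]
      simp
    · intro u hu z hz
      rw [hadj u hu z (Or.inl hz)]
      split_ifs <;> omega
    · intro U hU hUne z
      by_cases hz : z = y
      · by_cases hUD : U = D
        · refine ⟨u0, hUD ▸ hu0, x, Or.inr (Or.inl rfl), hUD ▸ hxD, hz ▸ hyx.symm, ?_⟩
          rw [hadj u0 hu0 x (Or.inr rfl), if_pos hx0]
        · obtain ⟨u, hu, t, ht, htU, ha⟩ := hconn U hU hUne hUD
          refine ⟨u, hu, t, Or.inl ht, htU, fun e => hyD (by rw [← hz, ← e]; exact ht), ?_⟩
          rw [hadj u (hU hu) t (Or.inl ht), if_pos ha]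
      · obtain ⟨u, hu, t, htU, htz, ha⟩ := hatt U hU hUne z
        by_cases ht : t ∈ D ∨ t = x
        · refine ⟨u, hu, t, by tauto, htU, htz, ?_⟩
          rw [hadj u (hU hu) t ht, if_pos ha]
        · push Not at ht
          refine ⟨u, hu, y, Or.inr (Or.inr rfl), fun h => hyD (hU h), fun e => hz e.symm, ?_⟩
          rw [hy u (hU hu)]
          apply card_pos.2
          refine ⟨t, ?_⟩
          have := (hcl u (hU hu) t ha).resolve_left ht.1
          simp [ht.2, this, ha]
  have hext : ∀ (U : Finset V) (a : V) (m : ℕ), WP wt y U a m → U ⊆ D → a ∈ D →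
      ∃ (Q : List V) (u : V), u ∈ D ∧ 1 ≤ feet G P x u ∧ m ≤ Q.length + feet G P x u ∧ Q.Nodup ∧
        (∀ z ∈ Q, z ∈ U) ∧ ∀ t, G.Adj u t → (a :: (Q ++ [t])).IsChain G.Adj := by
    intro U a m h
    induction h with
    | @base U a m h1 h3 =>
      intro _ ha
      rw [hy a ha] at h1 h3
      exact ⟨[], a, ha, h1, by simpa using h3, by simp, by simp, fun t ht => by simpa using ht⟩
    | @step U a b r m hb h1 _ h3 ih =>
      intro hU ha
      obtain ⟨Q, u, hu, hf, hr, hQn, hQU, hch⟩ := ih ((erase_subset _ _).trans hU) (hU hb)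
      rw [hadj a ha b (Or.inl (hU hb))] at h1 h3
      have hab : G.Adj a b := by
        by_contra hh
        rw [if_neg hh] at h1
        omega
      rw [if_pos hab] at h3
      refine ⟨b :: Q, u, hu, hf, by simp; omega, ?_, ?_, ?_⟩
      · exact List.nodup_cons.2 ⟨fun hh => by simpa using hQU b hh, hQn⟩
      · intro z hz
        rcases List.mem_cons.1 hz with hz | hz
        · exact hz ▸ hb
        · exact mem_of_mem_erase (hQU z hz)
      · intro t ht
        exact List.isChain_cons_cons.2 ⟨hab, hch t ht⟩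
  have hPB : PB wt D x y ((c - 1) / 2 : ℕ) := by
    intro n hn'
    cases hn' with
    | base h1 _ => omega
    | @step _ _ b r _ hb h1 h3 h4 =>
      obtain ⟨Q, u, hu, hf, hr, hQn, hQU, hch⟩ := hext _ _ _ h3 (erase_subset _ _) hb
      rw [hsy, hadj b hb x (Or.inr rfl)] at h1 h4
      have hab : G.Adj b x := by
        by_contra hh
        rw [if_neg hh] at h1
        omega
      rw [if_pos hab] at h4
      set N := (P.toFinset.erase x).filter (G.Adj u) with hN
      have hNm : ∀ t ∈ N, t ∈ P ∧ t ≠ x ∧ G.Adj u t := by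
        intro t ht
        simp only [hN, mem_filter, mem_erase, List.mem_toFinset] at ht
        exact ⟨ht.1.2, ht.1.1, ht.2⟩
      have hcard : (N.image fun t => P.idxOf t).card = feet G P x u := by
        rw [card_image_of_injOn]
        · rfl
        · intro s hs t _ e
          exact (List.idxOf_inj (hNm s hs).1).1 e
      have hQ'n : (b :: Q).Nodup := List.nodup_cons.2 ⟨fun hh => by simpa using hQU b hh, hQn⟩
      have hQ'P : ∀ z ∈ b :: Q, z ∉ P := by
        intro z hz
        rcases List.mem_cons.1 hz with hz | hz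
        · exact hz ▸ hDP b hb
        · exact hDP z (mem_of_mem_erase (hQU z hz))
      have hsp := spider (F := N.image fun t => P.idxOf t) (a := P.idxOf x) (j := Q.length + 1)
        (c := c) (card_pos.1 (by omega)) ?_ ?_
      · rw [hcard] at hsp
        omega
      · intro i hi i' hi' hlt
        obtain ⟨s, hs, rfl⟩ := mem_image.1 hi
        obtain ⟨t, ht, rfl⟩ := mem_image.1 hi'
        have := ear_bound hc hn hT hcyc (hNm s hs).1 (hNm t ht).1 hlt (Q := [u]) (by simp)
          (by simp) (by simpa using hDP u hu) (by simp [(hNm s hs).2.2.symm, (hNm t ht).2.2])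
        simp only [List.length_singleton] at this
        omega
      · intro i hi
        obtain ⟨t, ht, rfl⟩ := mem_image.1 hi
        have hch' : (x :: ((b :: Q) ++ [t])).IsChain G.Adj :=
          List.isChain_cons_cons.2 ⟨hab.symm, hch t (hNm t ht).2.2⟩
        rcases lt_trichotomy (P.idxOf x) (P.idxOf t) with hlt | heq | hlt
        · left
          have := ear_bound hc hn hT hcyc hxP (hNm t ht).1 hlt (by simp) hQ'n hQ'P hch'
          simp only [List.length_cons] at this
          omega
        · exact absurd ((List.idxOf_inj hxP).1 heq).symm (hNm t ht).2.1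
        · right
          have hrev : (t :: ((b :: Q).reverse ++ [x])).IsChain G.Adj := by
            have := List.isChain_reverse.2 (hch'.imp fun _ _ h => h.symm)
            simpa using this
          have := ear_bound hc hn hT hcyc (hNm t ht).1 hxP hlt (by simp)
            (List.nodup_reverse.2 hQ'n) (fun z hz => hQ'P z (List.mem_reverse.1 hz)) hrev
          simp only [List.length_reverse, List.length_cons] at this
          omega
  refine (majority I hPB).trans (sum_le_sum fun u hu => phi_anti ?_)
  have : G.degree u ≤ deg wt D x y u := by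
    unfold deg
    rw [hy u hu, hadj u hu x (Or.inr rfl), sum_congr rfl fun z hz => hadj u hu z (Or.inl hz),
      ← card_filter]
    have hsub : G.neighborFinset u ⊆ (D.filter (G.Adj u) ∪ ({x} : Finset V).filter (G.Adj u)) ∪
        (P.toFinset.erase x).filter (G.Adj u) := by
      intro t ht
      rw [SimpleGraph.mem_neighborFinset] at ht
      simp only [mem_union, mem_filter, mem_singleton, mem_erase, List.mem_toFinset]
      have := hcl u hu t ht
      by_cases htx : t = x <;> tauto
    have e1 := card_le_card hsub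
    have e2 := card_union_le (D.filter (G.Adj u) ∪ ({x} : Finset V).filter (G.Adj u))
      ((P.toFinset.erase x).filter (G.Adj u))
    have e3 := card_union_le (D.filter (G.Adj u)) (({x} : Finset V).filter (G.Adj u))
    have e4 : (({x} : Finset V).filter (G.Adj u)).card = if G.Adj u x then 1 else 0 := by
      rw [filter_singleton]
      split_ifs <;> simp
    rw [SimpleGraph.card_neighborFinset_eq_degree] at e1
    have e5 : (D.filter (G.Adj u)).card = (D.filter fun i => G.Adj u i).card := rfl
    unfold feet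
    omega
  omega

theorem outside_bound {G : SimpleGraph V} [DecidableRel G.Adj]
    (h2 : ∀ v, (G.induce {w | w ≠ v}).Connected) {P : List V} {c : ℕ}
    (hc : P.IsChain G.Adj) (hn : P.Nodup) (hl : 2 ≤ P.length) (hT : Tight G P)
    (hcyc : ∀ (u : V) (p : G.Walk u u), p.IsCycle → p.length < c) :
    ∀ (m : ℕ) (D : Finset V), D.card ≤ m → (∀ u ∈ D, u ∉ P) →
      (∀ u ∈ D, ∀ t, G.Adj u t → t ∈ D ∨ t ∈ P) →
      0 ≤ ∑ u ∈ D, phi (G.degree u - ((c - 1) / 2 : ℕ)) := by
  intro m
  induction m with
  | zero =>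
    intro D hD _ _
    rw [card_eq_zero.1 (Nat.le_zero.1 hD)]
    simp
  | succ m ih =>
    intro D hD hDP hcl
    rcases D.eq_empty_or_nonempty with he | hne
    · rw [he]; simp
    by_cases hconn : ∀ U ⊆ D, U.Nonempty → U ≠ D → ∃ u ∈ U, ∃ t ∈ D, t ∉ U ∧ G.Adj u t
    · exact component_bound h2 hc hn hl hT hcyc hne hDP hcl hconn
    · push Not at hconn
      obtain ⟨U, hU, hUne, hUD, hcl'⟩ := hconn
      have hlt := card_lt_card (LE.le.ssubset_of_ne hU hUD)
      have h1 := ih U (by omega) (fun u hu => hDP u (hU hu)) (fun u hu t ha => by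
        rcases hcl u (hU hu) t ha with h | h
        · left
          by_contra hh
          exact hcl' u hu t h hh ha
        · exact Or.inr h)
      have h3 := ih (D \ U) (by
        rw [card_sdiff_of_subset hU]
        have := hUne.card_pos
        omega) (fun u hu => hDP u (mem_sdiff.1 hu).1) (fun u hu t ha => by
          rw [mem_sdiff] at hu
          rcases hcl u hu.1 t ha with h | h
          · left
            exact mem_sdiff.2 ⟨h, fun hh => hcl' t hh u hu.1 hu.2 ha.symm⟩
          · exact Or.inr h)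
      rw [← sum_sdiff hU]
      omega

end Pool.Agent.Lib.MP_544a75_co
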