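import Pool.Agent.Lib.MP_544a75_co.Contract

set_option autoImplicit false

namespace Pool.Agent.Lib.MP_544a75_co

open Finset

variable {V : Type*} [DecidableEq V]

theorem hang_inst {wt : V → V → ℕ} {D : Finset V} {x y b : V} {H : Finset V}
    (I : Inst wt D x y) (hb : b ∈ D) (hH : H ⊆ D.erase b) (hA : Att wt D x y H x b) :
    Inst wt H x b := by
  have hHD : H ⊆ D := hH.trans (erase_subset _ _)
  refine ⟨I.symm, fun u hu => I.diag u (hHD hu), fun u hu z hz => I.le_one u (hHD hu) z (hHD hz),
    fun h => I.xD (hHD h), fun h => by simpa using hH h, fun e => I.xD (e ▸ hb), ?_⟩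
  intro U hU hne z
  obtain ⟨u, hu, t, ht, htU, htz, hw⟩ := I.conn U (hU.trans hHD) hne z
  refine ⟨u, hu, t, ?_, htU, htz, hw⟩
  by_cases htH : t ∈ H
  · exact Or.inl htH
  · exact Or.inr (hA u (hU hu) t ht htH hw)

theorem hang_deg {wt : V → V → ℕ} {D : Finset V} {x y b : V} {H : Finset V}
    (I : Inst wt D x y) (hb : b ∈ D) (hH : H ⊆ D.erase b) (hA : Att wt D x y H x b)
    {u : V} (hu : u ∈ H) : deg wt H x b u = deg wt D x y u := by
  unfold deg
  have hy : wt u y = 0 := by
    by_contra hh
    rcases hA u hu y (Or.inr (Or.inr rfl)) (fun h => I.yD (mem_of_mem_erase (hH h))) (by omega)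
      with h | h
    · exact I.xy h.symm
    · exact I.yD (h ▸ hb)
  have h1 : ∑ z ∈ H, wt u z = ∑ z ∈ D.erase b, wt u z := by
    apply sum_subset hH
    intro z hz hzH
    by_contra hh
    rcases hA u hu z (Or.inl (mem_of_mem_erase hz)) hzH (by omega) with h | h
    · exact I.xD (h ▸ mem_of_mem_erase hz)
    · exact (mem_erase.1 hz).1 h
  rw [← add_sum_erase D _ hb, h1]
  omega

theorem hang_out {wt : V → V → ℕ} {D : Finset V} {x y b : V} {H : Finset V}
    (I : Inst wt D x y) (hA : Att wt D x y H x b) {u : V} (hu : u ∈ (D \ H).erase b)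
    {h : V} (hh : h ∈ H) : wt u h = 0 := by
  simp only [mem_erase, mem_sdiff] at hu
  by_contra hne
  rcases hA h hh u (Or.inl hu.2.1) hu.2.2 (by rw [I.symm]; omega) with e | e
  · exact I.xD (e ▸ hu.2.1)
  · exact hu.1 e

theorem exists_max_hang {wt : V → V → ℕ} {D : Finset V} {x y : V} (b : V) :
    ∃ H ⊆ D.erase b, Att wt D x y H x b ∧
      (∀ H' ⊆ D.erase b, Att wt D x y H' x b → H'.card ≤ H.card) ∧
      ∀ U ⊆ (D \ H).erase b, U.Nonempty →
        ∃ u ∈ U, ∃ t, (t ∈ (D \ H).erase b ∨ t = y) ∧ t ∉ U ∧ 1 ≤ wt u t := by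
  classical
  obtain ⟨H, hH, hmax⟩ := exists_max_image
    ((D.erase b).powerset.filter fun H => Att wt D x y H x b) card
    ⟨∅, by simp [Att]⟩
  simp only [mem_filter, mem_powerset] at hH hmax
  refine ⟨H, hH.1, hH.2, fun H' h1 h2 => hmax H' ⟨h1, h2⟩, ?_⟩
  intro U hU hne
  by_contra hcon
  push Not at hcon
  have hdis : Disjoint H U := by
    rw [disjoint_right]
    intro a ha
    exact (mem_sdiff.1 (mem_of_mem_erase (hU ha))).2
  have h1 : H ∪ U ⊆ D.erase b := by
    apply union_subset hH.1
    intro a ha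
    have := hU ha
    simp only [mem_erase, mem_sdiff] at this ⊢
    exact ⟨this.1, this.2.1⟩
  have h2 : Att wt D x y (H ∪ U) x b := by
    intro u hu t ht htU hw
    simp only [mem_union, not_or] at hu htU
    rcases hu with hu | hu
    · exact hH.2 u hu t ht htU.1 hw
    · by_contra hh
      push Not at hh
      have := hcon u hu t (by
        rcases ht with ht | ht | ht
        · exact Or.inl (by simp [ht, hh.2, htU.1])
        · exact absurd ht hh.1
        · exact Or.inr ht) htU.2
      omega
  have := hmax _ ⟨h1, h2⟩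
  rw [card_union_of_disjoint hdis] at this
  have := hne.card_pos
  omega

theorem hang_exit {wt : V → V → ℕ} {D : Finset V} {x y b : V} {H : Finset V}
    (I : Inst wt D x y) (hb : b ∈ D) (hH : H ⊆ D.erase b) (hA : Att wt D x y H x b)
    (hM : ∀ U ⊆ (D \ H).erase b, U.Nonempty →
        ∃ u ∈ U, ∃ t, (t ∈ (D \ H).erase b ∨ t = y) ∧ t ∉ U ∧ 1 ≤ wt u t) :
    WP wt y ((D \ H).erase b) b 1 := by
  obtain ⟨u, hu, t, ht, htU, htx, hw⟩ := I.conn (insert b H)
    (insert_subset hb (hH.trans (erase_subset _ _))) (insert_nonempty _ _) x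
  simp only [mem_insert, not_or] at hu htU
  have hub : u = b := by
    rcases hu with hu | hu
    · exact hu
    · rcases hA u hu t ht htU.2 hw with h | h
      · exact absurd h htx
      · exact absurd h htU.1
  subst hub
  rcases ht with ht | ht | ht
  · have ht' : t ∈ (D \ H).erase u := by simp [ht, htU.1, htU.2]
    exact WP.step ht' hw (reach hM t ht') (by omega)
  · exact absurd ht htx
  · subst ht; exact WP.base hw hw

theorem hang_union {D H : Finset V} {b : V} (hb : b ∈ D) (hH : H ⊆ D.erase b) :
    H ∪ insert b ((D \ H).erase b) ⊆ D := by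
  apply union_subset (hH.trans (erase_subset _ _))
  exact insert_subset hb ((erase_subset _ _).trans sdiff_subset)

theorem hang_disj {D H : Finset V} {b : V} : Disjoint H ((D \ H).erase b) := by
  rw [disjoint_right]
  intro a ha
  exact (mem_sdiff.1 (mem_of_mem_erase ha)).2

theorem hang_append {wt : V → V → ℕ} {D : Finset V} {x y b : V} {H : Finset V} {p m : ℕ}
    (hb : b ∈ D) (hH : H ⊆ D.erase b) (h1 : WP wt b H x p)
    (h2 : WP wt y ((D \ H).erase b) b m) : WP wt y D x (p + m) :=
  (h1.append h2 (by simp) (fun h => by simpa using hH h) hang_disj).mono (hang_union hb hH)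

theorem hang_PB {wt : V → V → ℕ} {D : Finset V} {x y b : V} {H : Finset V} {k : ℤ} {m : ℕ}
    (hb : b ∈ D) (hH : H ⊆ D.erase b) (hP : PB wt D x y k)
    (h2 : WP wt y ((D \ H).erase b) b m) : PB wt H x b (k - m) := by
  intro n hn
  have := hP _ (hang_append hb hH hn h2)
  push_cast at this
  omega

theorem hang_sum {D H : Finset V} {b : V} (hH : H ⊆ D.erase b) (g : V → ℤ) :
    ∑ u ∈ D.erase b, g u = ∑ u ∈ H, g u + ∑ u ∈ (D \ H).erase b, g u := by
  rw [← sum_union hang_disj]
  congr 1
  ext a
  simp only [mem_erase, mem_union, mem_sdiff]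
  constructor
  · intro h
    by_cases ha : a ∈ H
    · exact Or.inl ha
    · exact Or.inr ⟨h.1, h.2, ha⟩
  · rintro (h | h)
    · exact mem_erase.1 (hH h)
    · exact ⟨h.1, h.2.1⟩

/-- Weights after absorbing `v` into the root `x`. -/
def absw (wt : V → V → ℕ) (x v : V) : V → V → ℕ := fun s t =>
  if t = x ∧ s ≠ x ∧ 1 ≤ wt s v then wt v x + 1
  else if s = x ∧ t ≠ x ∧ 1 ≤ wt t v then wt v x + 1 else wt s t

theorem absw_other (wt : V → V → ℕ) (x v : V) {s t : V} (hs : s ≠ x) (ht : t ≠ x) :
    absw wt x v s t = wt s t := by simp [absw, hs, ht]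

theorem absw_symm {wt : V → V → ℕ} (hs : ∀ a b, wt a b = wt b a) (x v a b : V) :
    absw wt x v a b = absw wt x v b a := by
  unfold absw
  by_cases ha : a = x <;> by_cases hb : b = x <;> simp [ha, hb, hs a b]
  · rw [hs x b]
  · rw [hs a x]

theorem absw_root (wt : V → V → ℕ) (x v : V) {s : V} (hs : s ≠ x) :
    absw wt x v s x = if 1 ≤ wt s v then wt v x + 1 else wt s x := by
  simp [absw, hs]

theorem absorb {m : ℕ} (hM : Maj V m) {wt : V → V → ℕ} {D : Finset V} {x y v : V} {k : ℤ}
    (hc : D.card ≤ m + 1) (I : Inst wt D x y) (hP : PB wt D x y k) (hv : v ∈ D)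
    (hvx : 1 ≤ wt v x) (hmax : ∀ u ∈ D, wt u x ≤ wt v x) :
    0 ≤ ∑ u ∈ D.erase v, phi (deg wt D x y u - k) := by
  obtain ⟨H, hH, hA, -, hE⟩ := exists_max_hang (wt := wt) (D := D) (x := x) (y := y) v
  have hce : (D.erase v).card ≤ m := by rw [card_erase_of_mem hv]; omega
  have hexit := hang_exit I hv hH hA hE
  have h1 : 0 ≤ ∑ u ∈ H, phi (deg wt D x y u - k) := by
    have hP1 : PB wt H x v k := fun n hn => by
      have := hang_PB hv hH hP hexit n hn
      push_cast at this; omega
    have := hM wt H x v k ((card_le_card hH).trans hce) (hang_inst I hv hH hA) hP1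
    rwa [sum_congr rfl fun u hu => by rw [hang_deg I hv hH hA hu]] at this
  set E := (D \ H).erase v with hEdef
  have hED : E ⊆ D := (erase_subset _ _).trans sdiff_subset
  have hEx : ∀ u ∈ E, u ≠ x := fun u hu e => I.xD (e ▸ hED hu)
  have hEv : E ⊆ D.erase v := erase_subset_erase _ sdiff_subset
  have hge : ∀ u ∈ E, wt u x + wt u v ≤ absw wt x v u x := by
    intro u hu
    rw [absw_root _ _ _ (hEx u hu)]
    have := hmax u (hED hu)
    have := I.le_one u (hED hu) v hv
    split_ifs <;> omega
  have I2 : Inst (absw wt x v) E x y := by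
    refine ⟨absw_symm I.symm x v, ?_, ?_, fun h => I.xD (hED h), fun h => I.yD (hED h), I.xy, ?_⟩
    · intro u hu
      rw [absw_other _ _ _ (hEx u hu) (hEx u hu)]
      exact I.diag u (hED hu)
    · intro u hu z hz
      rw [absw_other _ _ _ (hEx u hu) (hEx z hz)]
      exact I.le_one u (hED hu) z (hED hz)
    · intro U hU hne z
      by_cases hz : z = x
      · obtain ⟨u, hu, t, ht, htU, hw⟩ := hE U hU hne
        have htx : t ≠ x := by
          rcases ht with ht | ht
          · exact hEx t ht
          · exact ht ▸ I.xy.symm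
        refine ⟨u, hu, t, ?_, htU, hz ▸ htx, ?_⟩
        · rcases ht with ht | ht
          · exact Or.inl ht
          · exact Or.inr (Or.inr ht)
        · rwa [absw_other _ _ _ (hEx u (hU hu)) htx]
      · obtain ⟨u, hu, t, ht, htU, htz, hw⟩ := I.conn U (hU.trans hED) hne z
        have hxU : x ∉ U := fun h => hEx x (hU h) rfl
        by_cases htx : t = x ∨ t = v
        · refine ⟨u, hu, x, Or.inr (Or.inl rfl), hxU, fun e => hz e.symm, ?_⟩
          have := hge u (hU hu)
          rcases htx with e | e <;> subst e <;> omega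
        · push Not at htx
          refine ⟨u, hu, t, ?_, htU, htz, ?_⟩
          · rcases ht with ht | ht | ht
            · left
              have htH : t ∉ H := fun hh => by
                have := hang_out I hA (hU hu) hh
                omega
              simp [hEdef, ht, htx.2, htH]
            · exact absurd ht htx.1
            · exact Or.inr (Or.inr ht)
          · rwa [absw_other _ _ _ (hEx u (hU hu)) htx.1]
  have hP2 : PB (absw wt x v) E x y k := by
    intro n hn
    apply hP
    have hcong : ∀ (U : Finset V) (c : V) (r : ℕ), U ⊆ E → c ≠ x →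
        WP (absw wt x v) y U c r → WP wt y U c r := by
      intro U c r hU hc h
      apply h.congr
      intro s t hs ht
      rw [absw_other]
      · rcases hs with hs | hs
        · exact hs ▸ hc
        · exact hEx s (hU hs)
      · rcases ht with ht | ht
        · exact ht ▸ I.xy.symm
        · exact hEx t (hU ht)
    have hxv : 1 ≤ wt x v := by rw [I.symm]; exact hvx
    cases hn with
    | base h1 h2 =>
      rw [absw_symm I.symm, absw_root _ _ _ I.xy.symm] at h1 h2
      split_ifs at h1 h2 with h3
      · refine WP.step (m := 1) hv hxv (WP.base ?_ ?_) ?_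
        · rw [I.symm]; exact h3
        · rw [I.symm]; exact h3
        · rw [I.symm]; exact h2
      · rw [I.symm] at h1 h2; exact WP.base h1 h2
    | @step _ _ c r _ hc h1 h2 h3 =>
      have h4 := hcong _ _ _ (erase_subset _ _) (hEx c hc) h2
      rw [absw_symm I.symm, absw_root _ _ _ (hEx c hc)] at h1 h3
      split_ifs at h1 h3 with h5
      · refine WP.step (m := 1 + r) hv hxv ?_ (by rw [I.symm x v]; omega)
        refine WP.step (hEv hc) (by rw [I.symm]; exact h5) (h4.mono (erase_subset_erase _ hEv)) ?_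
        rw [I.symm v c]; omega
      · rw [I.symm] at h1 h3
        exact WP.step (hED hc) h1 (h4.mono (erase_subset_erase _ hED)) h3
  have h2 := hM _ E x y k ((card_le_card hEv).trans hce) I2 hP2
  have h3 : ∑ u ∈ E, phi (deg (absw wt x v) E x y u - k) ≤
      ∑ u ∈ E, phi (deg wt D x y u - k) := by
    apply sum_le_sum
    intro u hu
    apply phi_anti
    have e1 : ∑ z ∈ E, absw wt x v u z = ∑ z ∈ E, wt u z :=
      sum_congr rfl fun z hz => absw_other _ _ _ (hEx u hu) (hEx z hz)
    have e2 : ∑ z ∈ E, wt u z = ∑ z ∈ D.erase v, wt u z := by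
      apply sum_subset hEv
      intro z hz hzE
      have hzH : z ∈ H := by
        by_contra hh
        apply hzE
        simp only [hEdef, mem_erase, mem_sdiff] at hz ⊢
        exact ⟨hz.1, hz.2, hh⟩
      exact hang_out I hA hu hzH
    have e3 := absw_other wt x v (hEx u hu) I.xy.symm
    have e4 := hge u hu
    have : deg wt D x y u ≤ deg (absw wt x v) E x y u := by
      unfold deg
      rw [← add_sum_erase D _ hv, e1, e2, e3]
      omega
    omega
  rw [hang_sum hH, ← hEdef]
  omega

end Pool.Agent.Lib.MP_544a75_co
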