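import Pool.Agent.Lib.MP_544a75_co.IPath

set_option autoImplicit false
set_option linter.unusedVariables false
set_option linter.unusedSectionVars false

namespace Pool.Agent.Lib.MP_544a75_co

open Finset

variable {V : Type*} [DecidableEq V] [Fintype V] {G : SimpleGraph V} [DecidableRel G.Adj]

/-- No cycle has length at least `c`. -/
def NoCyc (G : SimpleGraph V) (c : ℕ) : Prop :=
  ∀ (u : V) (q : G.Walk u u), q.IsCycle → q.length < c

theorem NoCyc.card_lt {c : ℕ} (hN : NoCyc G c) {a b : V} {T : Finset V} (h : PathOn G a b T)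
    (hadj : G.Adj b a) (h3 : 3 ≤ T.card) : T.card < c := by
  obtain ⟨u, q, hq, hl⟩ := h.cycle hadj h3
  rw [← hl]
  exact hN u q hq

theorem card_two {α β γ : Type*} [DecidableEq γ] {F1 : Finset α} {F2 : Finset β} {T : Finset γ}
    (f1 : α → γ) (f2 : β → γ) (i1 : Set.InjOn f1 F1) (i2 : Set.InjOn f2 F2) (m1 : ∀ a ∈ F1, f1 a ∈ T)
    (m2 : ∀ b ∈ F2, f2 b ∈ T) (hd : ∀ a ∈ F1, ∀ b ∈ F2, f1 a ≠ f2 b) :
    F1.card + F2.card ≤ T.card := by
  rw [← card_image_of_injOn i1, ← card_image_of_injOn i2, ← card_union_of_disjoint]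
  · apply card_le_card
    intro v hv
    simp only [mem_union, mem_image] at hv
    rcases hv with ⟨a, ha, rfl⟩ | ⟨b, hb, rfl⟩
    · exact m1 a ha
    · exact m2 b hb
  · rw [disjoint_left]
    intro v h1 h2
    simp only [mem_image] at h1 h2
    obtain ⟨a, ha, rfl⟩ := h1
    obtain ⟨b, hb, e⟩ := h2
    exact hd a ha b hb e.symm

theorem choose_inj {F : Finset ℕ} {R : ℕ → V → Prop} (h1 : ∀ a ∈ F, ∃ o, R a o)
    (h2 : ∀ a ∈ F, ∀ b ∈ F, a < b → ∀ o, R a o → R b o → False) (v0 : V) :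
    ∃ o : ℕ → V, (∀ a ∈ F, R a (o a)) ∧ Set.InjOn o F := by
  classical
  have : Nonempty V := ⟨v0⟩
  choose! o ho using h1
  refine ⟨o, ho, ?_⟩
  intro a ha b hb e
  rcases lt_trichotomy a b with h | h | h
  · exact (h2 a ha b hb h _ (ho a ha) (e ▸ ho b hb)).elim
  · exact h
  · exact (h2 b hb a ha h _ (ho b hb) (e ▸ ho a ha)).elim

theorem card_lab_le {ℓ : V → ℕ} (hinj : Function.Injective ℓ) (hpos : ∀ v, 1 ≤ ℓ v)
    {T : Finset V} {k : ℕ} (hT : ∀ v ∈ T, ℓ v ≤ k) : T.card ≤ k := by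
  have := card_le_card_of_injOn (s := T) (t := Icc 1 k) ℓ
    (fun v hv => by simpa using ⟨hpos v, hT v hv⟩) hinj.injOn
  simpa using this

namespace IP

variable (P : IP G)

theorem nc0 {c : ℕ} (hN : NoCyc G c) (h3 : 3 ≤ c) (hc : c ≤ P.m + 1) : ¬ G.Adj P.last P.root := by
  intro h
  have := hN.card_lt P.pathOn h (by rw [P.card_S]; omega)
  rw [P.card_S] at this
  omega

theorem nc1 {c : ℕ} (hN : NoCyc G c) (h3 : 3 ≤ c) (hc : c ≤ P.m + 1) {a : ℕ} (ha : a < P.m)
    (h : G.Adj (P.p a) P.last) : ¬ G.Adj (P.p (a + 1)) P.root := by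
  simpa using (P.rot a ha h).nc0 hN h3 hc

theorem nc2 {c : ℕ} (hN : NoCyc G c) (h3 : 3 ≤ c) (hc : c ≤ P.m + 1) {o : V} (ho : o ∉ P.S)
    (h : G.Adj P.last o) : ¬ G.Adj o P.root := by
  simpa using (P.ext o ho h).nc0 hN h3 (by simp; omega)

theorem nc3 {c : ℕ} (hN : NoCyc G c) (h3 : 3 ≤ c) (hc : c ≤ P.m + 1) {a : ℕ} (ha : a < P.m)
    (h : G.Adj (P.p a) P.last) {o : V} (ho : o ∉ P.S) (h' : G.Adj (P.p (a + 1)) o) :
    ¬ G.Adj o P.root := by
  simpa using (P.rot a ha h).nc2 hN h3 hc (o := o) (by simpa using ho) (by simpa using h')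

theorem last_ne_root (h : 1 ≤ P.m) : P.last ≠ P.root := P.ne le_rfl (Nat.zero_le _) (by omega)

/-- Indices of the pivots of the end. -/
def Pv : Finset ℕ := (range P.m).filter fun a => G.Adj (P.p a) P.last

/-- Outside neighbours of the end. -/
def Out : Finset V := univ.filter fun w => w ∉ P.S ∧ G.Adj P.last w

theorem mem_Pv {a : ℕ} : a ∈ P.Pv ↔ a < P.m ∧ G.Adj (P.p a) P.last := by
  simp [Pv]

theorem mem_Out {w : V} : w ∈ P.Out ↔ w ∉ P.S ∧ G.Adj P.last w := by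
  simp [Out]

theorem injOn_p {F : Finset ℕ} (hF : ∀ a ∈ F, a ≤ P.m) : Set.InjOn P.p F :=
  fun a ha b hb e => P.inj a (hF a ha) b (hF b hb) e

theorem injOn_succ {F : Finset ℕ} (hF : ∀ a ∈ F, a < P.m) :
    Set.InjOn (fun a => P.p (a + 1)) F := fun a ha b hb e => by
  have := P.inj (a + 1) (hF a ha) (b + 1) (hF b hb) e
  omega

theorem degree_last : G.degree P.last = P.Pv.card + P.Out.card := by
  rw [← card_image_of_injOn (P.injOn_p fun a ha => (P.mem_Pv.1 ha).1.le),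
    ← card_union_of_disjoint, ← SimpleGraph.card_neighborFinset_eq_degree]
  · congr 1
    ext w
    simp only [SimpleGraph.mem_neighborFinset, mem_union, mem_image, mem_Pv, mem_Out]
    constructor
    · intro h
      by_cases hw : w ∈ P.S
      · obtain ⟨i, hi, rfl⟩ := P.mem_S.1 hw
        refine Or.inl ⟨i, ⟨lt_of_le_of_ne hi ?_, h.symm⟩, rfl⟩
        rintro rfl
        exact h.ne rfl
      · exact Or.inr ⟨hw, h⟩
    · rintro (⟨a, ⟨_, h⟩, rfl⟩ | ⟨_, h⟩)
      · exact h.symm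
      · exact h
  · rw [disjoint_left]
    intro w h1 h2
    obtain ⟨a, ha, rfl⟩ := mem_image.1 h1
    exact (P.mem_Out.1 h2).1 (P.p_mem (P.mem_Pv.1 ha).1.le)

/-- The end has all its neighbours on the path. -/
def Closed : Prop := ∀ w, G.Adj P.last w → w ∈ P.S

theorem out_empty (h : P.Closed) : P.Out = ∅ := by
  rw [eq_empty_iff_forall_notMem]
  intro w hw
  exact (P.mem_Out.1 hw).1 (h w (P.mem_Out.1 hw).2)

theorem exists_out (h : ¬ P.Closed) : ∃ w, w ∉ P.S ∧ G.Adj P.last w := by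
  unfold Closed at h
  push Not at h
  obtain ⟨w, h1, h2⟩ := h
  exact ⟨w, h2, h1⟩

/-- The deficiency lemma. -/
theorem deficient {ℓ : V → ℕ} (hinj : Function.Injective ℓ) (hpos : ∀ v, 1 ≤ ℓ v)
    (hup : ∀ a ∈ P.Pv, ℓ P.last < ℓ (P.p (a + 1)) →
      ∃ o, o ∉ P.S ∧ G.Adj (P.p (a + 1)) o ∧ ¬ G.Adj P.last o ∧ ℓ o ≤ ℓ P.last)
    (hsh : ∀ a ∈ P.Pv, ∀ b ∈ P.Pv, a < b → ℓ P.last < ℓ (P.p (a + 1)) →
      ℓ P.last < ℓ (P.p (b + 1)) → ∀ o, o ∉ P.S → G.Adj (P.p (a + 1)) o →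
      G.Adj (P.p (b + 1)) o → False)
    (hout : ∀ w, w ∉ P.S → G.Adj P.last w → ℓ w ≤ ℓ P.last) :
    G.degree P.last + (if ℓ P.root < ℓ P.last then 1 else 0) ≤ ℓ P.last := by
  obtain ⟨o, ho, hoi⟩ := choose_inj (F := P.Pv.filter fun a => ℓ P.last < ℓ (P.p (a + 1)))
    (R := fun a o => o ∉ P.S ∧ G.Adj (P.p (a + 1)) o ∧ ¬ G.Adj P.last o ∧ ℓ o ≤ ℓ P.last)
    (fun a ha => hup a (mem_filter.1 ha).1 (mem_filter.1 ha).2)
    (fun a ha b hb hab o h1 h2 => hsh a (mem_filter.1 ha).1 b (mem_filter.1 hb).1 hab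
      (mem_filter.1 ha).2 (mem_filter.1 hb).2 o h1.1 h1.2.1 h2.2.1) P.root
  let T := univ.filter fun v => ℓ v ≤ ℓ P.last
  have hT : T.card ≤ ℓ P.last := card_lab_le hinj hpos fun v hv => (mem_filter.1 hv).2
  have e1 := card_filter_add_card_filter_not (s := T) (fun v => v ∈ P.S)
  have e2 := card_filter_add_card_filter_not (s := P.Pv) (fun a => ℓ P.last < ℓ (P.p (a + 1)))
  have h1 := card_two (T := T.filter fun v => ¬ v ∈ P.S) o id hoi (Set.injOn_id _)
    (F2 := P.Out) (fun a ha => by simpa [T] using ⟨(ho a ha).2.2.2, (ho a ha).1⟩)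
    (fun w hw => by
      have := P.mem_Out.1 hw
      simpa [T] using ⟨hout w this.1 this.2, this.1⟩)
    (fun a ha w hw e => (ho a ha).2.2.1 (by rw [e]; exact (P.mem_Out.1 hw).2))
  have h2 := card_two (T := T.filter fun v => v ∈ P.S) (fun a => P.p (a + 1)) id
    (F1 := P.Pv.filter fun a => ¬ ℓ P.last < ℓ (P.p (a + 1)))
    (F2 := if ℓ P.root < ℓ P.last then {P.root} else ∅)
    (P.injOn_succ fun a ha => (P.mem_Pv.1 (mem_filter.1 ha).1).1) (Set.injOn_id _)
    (fun a ha => by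
      have := mem_filter.1 ha
      simpa [T] using ⟨by omega, P.p_mem (P.mem_Pv.1 this.1).1⟩)
    (fun w hw => by
      split_ifs at hw with h
      · rw [mem_singleton] at hw
        subst hw
        simpa [T] using ⟨h.le, P.root_mem⟩
      · simp at hw)
    (fun a ha w hw => by
      split_ifs at hw with h
      · rw [mem_singleton] at hw
        subst hw
        exact P.ne (P.mem_Pv.1 (mem_filter.1 ha).1).1 (Nat.zero_le _) (by omega)
      · simp at hw)
  rw [P.degree_last]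
  split_ifs at h2 ⊢ with h
  · rw [card_singleton] at h2
    omega
  · omega

theorem card_le_sum {f : V → V → ℕ} {F : Finset ℕ}
    (hF : ∀ i ∈ F, i < P.m ∧ 1 ≤ f (P.p i) (P.p (i + 1))) : F.card ≤ P.sum f := by
  calc F.card = ∑ i ∈ F, 1 := by simp
    _ ≤ ∑ i ∈ F, f (P.p i) (P.p (i + 1)) := sum_le_sum fun i hi => (hF i hi).2
    _ ≤ P.sum f := sum_le_sum_of_subset fun i hi => mem_range.2 (hF i hi).1

theorem sum_mono {f g : V → V → ℕ} (h : ∀ u v, f u v ≤ g u v) : P.sum f ≤ P.sum g :=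
  sum_le_sum fun _ _ => h _ _

/-- Counting the first vertices of the runs of a set `N` on a path. -/
theorem runs (N : V → Prop) [DecidablePred N] :
    ((range P.m).filter fun a => ¬ N (P.p a) ∧ N (P.p (a + 1))).card +
      (if N P.root then 1 else 0) + P.sum (fun u v => if N u ∧ N v then 1 else 0) ≤
      (P.S.filter N).card := by
  have key : ∀ k, ((range k).filter fun a => ¬ N (P.p a) ∧ N (P.p (a + 1))).card +
      (if N (P.p 0) then 1 else 0) +
      ∑ i ∈ range k, (if N (P.p i) ∧ N (P.p (i + 1)) then 1 else 0) =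
      ((range (k + 1)).filter fun i => N (P.p i)).card := by
    intro k
    simp only [card_filter]
    induction k with
    | zero => simp only [range_zero, sum_empty, zero_add, add_zero, range_one, sum_singleton]
    | succ k ih =>
      rw [sum_range_succ, sum_range_succ _ k, sum_range_succ _ (k + 1), ← ih]
      by_cases h1 : N (P.p k) <;> by_cases h2 : N (P.p (k + 1)) <;> simp [h1, h2] <;> omega
  have := key P.m
  unfold sum root
  rw [this]
  apply card_le_card_of_injOn P.p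
  · intro i hi
    simp only [coe_filter, mem_range, Set.mem_ofPred_eq] at hi ⊢
    exact ⟨P.p_mem (by omega), hi.2⟩
  · exact P.injOn_p fun a ha => by
      have := mem_range.1 (mem_filter.1 ha).1
      omega

end IP

theorem exists_min_nat {α : Type*} {Q : α → Prop} (f : α → ℕ) (h : ∃ a, Q a) :
    ∃ a, Q a ∧ ∀ b, Q b → f a ≤ f b := by
  classical
  have hex : ∃ k, ∃ a, Q a ∧ f a = k := by
    obtain ⟨a, ha⟩ := h
    exact ⟨_, a, ha, rfl⟩
  obtain ⟨a, ha, e⟩ := Nat.find_spec hex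
  exact ⟨a, ha, fun b hb => e ▸ Nat.find_min' hex ⟨b, hb, rfl⟩⟩

theorem exists_max_nat {α : Type*} {Q : α → Prop} (f : α → ℕ) (h : ∃ a, Q a) (B : ℕ)
    (hB : ∀ a, Q a → f a ≤ B) : ∃ a, Q a ∧ ∀ b, Q b → f b ≤ f a := by
  obtain ⟨a, ha, hm⟩ := exists_min_nat (fun a => B - f a) h
  refine ⟨a, ha, fun b hb => ?_⟩
  have := hm b hb
  have := hB a ha
  have := hB b hb
  omega

theorem IP.m_lt (P : IP G) : P.m + 1 ≤ Fintype.card V := by
  rw [← P.card_S]
  exact card_le_univ _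

end Pool.Agent.Lib.MP_544a75_co
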