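import Pool.Agent.Lib.MP_544a75_co.Clique

set_option autoImplicit false
set_option linter.unusedVariables false
set_option linter.unusedSectionVars false

namespace Pool.Agent.Lib.MP_544a75_co

open Finset

variable {V : Type*} [DecidableEq V] {G : SimpleGraph V}

/-- There is a path from `a` to `b` with vertex set `T`. -/
def PathOn (G : SimpleGraph V) (a b : V) (T : Finset V) : Prop :=
  ∃ w : G.Walk a b, w.IsPath ∧ w.support.toFinset = T

theorem PathOn.single (a : V) : PathOn G a a {a} :=
  ⟨SimpleGraph.Walk.nil, SimpleGraph.Walk.IsPath.nil, by simp⟩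

theorem PathOn.symm {a b : V} {T : Finset V} (h : PathOn G a b T) : PathOn G b a T := by
  obtain ⟨w, hw, hT⟩ := h
  exact ⟨w.reverse, hw.reverse, by rw [← hT]; simp⟩

theorem PathOn.left_mem {a b : V} {T : Finset V} (h : PathOn G a b T) : a ∈ T := by
  obtain ⟨w, -, hT⟩ := h
  rw [← hT]; simp

theorem PathOn.right_mem {a b : V} {T : Finset V} (h : PathOn G a b T) : b ∈ T := by
  obtain ⟨w, -, hT⟩ := h
  rw [← hT]; simp

theorem PathOn.append {a b a' b' : V} {T T' : Finset V} (h : PathOn G a b T)
    (h' : PathOn G a' b' T') (hadj : G.Adj b a') (hd : Disjoint T T') :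
    PathOn G a b' (T ∪ T') := by
  obtain ⟨w, hw, hT⟩ := h
  obtain ⟨w', hw', hT'⟩ := h'
  have hs : (w.append (SimpleGraph.Walk.cons hadj w')).support = w.support ++ w'.support := by
    rw [SimpleGraph.Walk.support_append]; simp
  refine ⟨w.append (SimpleGraph.Walk.cons hadj w'), ?_, ?_⟩
  · rw [SimpleGraph.Walk.isPath_def, hs, List.nodup_append]
    refine ⟨hw.support_nodup, hw'.support_nodup, ?_⟩
    intro x hx y hy e
    subst e
    exact disjoint_left.1 hd (by rw [← hT]; simpa using hx) (by rw [← hT']; simpa using hy)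
  · rw [hs, List.toFinset_append, hT, hT']

theorem PathOn.cycle {a b : V} {T : Finset V} (h : PathOn G a b T) (hadj : G.Adj b a)
    (h3 : 3 ≤ T.card) : ∃ (u : V) (q : G.Walk u u), q.IsCycle ∧ q.length = T.card := by
  obtain ⟨w, hw, hT⟩ := h
  have hl : T.card = w.length + 1 := by
    rw [← hT, List.toFinset_card_of_nodup hw.support_nodup, w.length_support]
  refine ⟨_, SimpleGraph.Walk.cons hadj w, ?_, by rw [SimpleGraph.Walk.length_cons, hl]⟩
  rw [SimpleGraph.Walk.cons_isCycle_iff]
  refine ⟨hw, fun h => ?_⟩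
  rw [Sym2.eq_swap] at h
  have := hw.length_eq_one_of_mem_edges h
  omega

/-- A path given by its index function. -/
structure IP (G : SimpleGraph V) where
  m : ℕ
  p : ℕ → V
  inj : ∀ i ≤ m, ∀ k ≤ m, p i = p k → i = k
  adj : ∀ i < m, G.Adj (p i) (p (i + 1))

namespace IP

variable (P : IP G)

def S : Finset V := (range (P.m + 1)).image P.p

def root : V := P.p 0

def last : V := P.p P.m

def sum (f : V → V → ℕ) : ℕ := ∑ i ∈ range P.m, f (P.p i) (P.p (i + 1))

theorem mem_S {v : V} : v ∈ P.S ↔ ∃ i ≤ P.m, P.p i = v := by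
  simp only [S, mem_image, mem_range, Nat.lt_succ_iff]

theorem p_mem {i : ℕ} (hi : i ≤ P.m) : P.p i ∈ P.S := P.mem_S.2 ⟨i, hi, rfl⟩

theorem root_mem : P.root ∈ P.S := P.p_mem (Nat.zero_le _)

theorem last_mem : P.last ∈ P.S := P.p_mem le_rfl

theorem card_S : P.S.card = P.m + 1 := by
  rw [S, card_image_of_injOn, card_range]
  intro i hi k hk e
  simp only [coe_range, Set.mem_Iio] at hi hk
  exact P.inj i (by omega) k (by omega) e

omit [DecidableEq V] in
theorem ne {i k : ℕ} (hi : i ≤ P.m) (hk : k ≤ P.m) (h : i ≠ k) : P.p i ≠ P.p k :=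
  fun e => h (P.inj i hi k hk e)

theorem seg {i k : ℕ} (hik : i ≤ k) (hk : k ≤ P.m) :
    PathOn G (P.p i) (P.p k) ((Icc i k).image P.p) := by
  induction k, hik using Nat.le_induction with
  | base => simpa using PathOn.single (P.p i)
  | succ k hik ih =>
    have := (ih (by omega)).append (PathOn.single (P.p (k + 1))) (P.adj k (by omega)) (by
      rw [disjoint_singleton_right, mem_image]
      rintro ⟨x, hx, e⟩
      rw [mem_Icc] at hx
      have := P.inj x (by omega) (k + 1) hk e
      omega)
    convert this using 1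
    rw [← insert_Icc_right_eq_Icc_add_one (by omega), image_insert, union_comm]
    rfl

theorem pathOn : PathOn G P.root P.last P.S := by
  have := P.seg (Nat.zero_le P.m) le_rfl
  have e : P.S = (Icc 0 P.m).image P.p := by
    unfold S
    rw [range_eq_Ico]
    rfl
  rw [e]
  exact this

/-- The reversed path. -/
def rev : IP G where
  m := P.m
  p := fun i => P.p (P.m - i)
  inj := fun i hi k hk e => by
    have := P.inj _ (by omega) _ (by omega) e
    omega
  adj := fun i hi => by
    have := P.adj (P.m - (i + 1)) (by omega)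
    rw [show P.m - (i + 1) + 1 = P.m - i by omega] at this
    exact this.symm

omit [DecidableEq V] in
@[simp] theorem rev_m : P.rev.m = P.m := rfl

omit [DecidableEq V] in
theorem rev_p (i : ℕ) : P.rev.p i = P.p (P.m - i) := rfl

omit [DecidableEq V] in
@[simp] theorem rev_root : P.rev.root = P.last := rfl

omit [DecidableEq V] in
@[simp] theorem rev_last : P.rev.last = P.root := by
  simp [last, root, rev_p]

@[simp] theorem rev_S : P.rev.S = P.S := by
  ext v
  simp only [mem_S, rev_m, rev_p]
  constructor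
  · rintro ⟨i, hi, e⟩
    exact ⟨_, by omega, e⟩
  · rintro ⟨i, hi, e⟩
    exact ⟨P.m - i, by omega, by rw [show P.m - (P.m - i) = i by omega, e]⟩

omit [DecidableEq V] in
theorem rev_sum {f : V → V → ℕ} (hf : ∀ u v, f u v = f v u) : P.rev.sum f = P.sum f := by
  unfold sum
  rw [← sum_range_reflect]
  apply sum_congr rfl
  intro i hi
  rw [mem_range] at hi
  simp only [rev_m, rev_p] at hi ⊢
  rw [hf, show P.m - (P.m - 1 - i + 1) = i by omega, show P.m - (P.m - 1 - i) = i + 1 by omega]

/-- Extension by an outside neighbour of the end. -/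
def ext (o : V) (ho : o ∉ P.S) (h : G.Adj P.last o) : IP G where
  m := P.m + 1
  p := fun i => if i ≤ P.m then P.p i else o
  inj := fun i hi k hk e => by
    by_cases h1 : i ≤ P.m <;> by_cases h2 : k ≤ P.m <;> simp only [h1, h2, if_true, if_false] at e
    · exact P.inj i h1 k h2 e
    · exact absurd (e ▸ P.p_mem h1) ho
    · exact absurd (e ▸ P.p_mem h2) ho
    · omega
  adj := fun i hi => by
    by_cases h1 : i < P.m
    · rw [if_pos (by omega), if_pos (by omega)]
      exact P.adj i h1
    · rw [if_pos (by omega), if_neg (by omega), show i = P.m by omega]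
      exact h

section
variable {o : V} (ho : o ∉ P.S) (h : G.Adj P.last o)

@[simp] theorem ext_m : (P.ext o ho h).m = P.m + 1 := rfl

theorem ext_p {i : ℕ} (hi : i ≤ P.m) : (P.ext o ho h).p i = P.p i := if_pos hi

@[simp] theorem ext_root : (P.ext o ho h).root = P.root := P.ext_p ho h (Nat.zero_le _)

@[simp] theorem ext_last : (P.ext o ho h).last = o := if_neg (by simp)

@[simp] theorem ext_S : (P.ext o ho h).S = insert o P.S := by
  ext v
  simp only [mem_S, ext_m, mem_insert]
  constructor
  · rintro ⟨i, hi, e⟩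
    by_cases h1 : i ≤ P.m
    · rw [P.ext_p ho h h1] at e
      exact Or.inr ⟨i, h1, e⟩
    · left
      rw [← e]
      exact if_neg h1
  · rintro (e | ⟨i, hi, e⟩)
    · exact ⟨P.m + 1, le_rfl, by rw [e]; exact P.ext_last ho h⟩
    · exact ⟨i, by omega, by rw [P.ext_p ho h hi, e]⟩

theorem ext_sum (f : V → V → ℕ) : (P.ext o ho h).sum f = P.sum f + f P.last o := by
  unfold sum
  rw [ext_m, sum_range_succ]
  congr 1
  · apply sum_congr rfl
    intro i hi
    rw [mem_range] at hi
    rw [P.ext_p ho h (by omega), P.ext_p ho h (by omega)]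
  · rw [P.ext_p ho h le_rfl]
    congr 1
    exact P.ext_last ho h

end

/-- The initial piece of a path. -/
def trunc (k : ℕ) (hk : k ≤ P.m) : IP G where
  m := k
  p := P.p
  inj := fun i hi l hl e => P.inj i (by omega) l (by omega) e
  adj := fun i hi => P.adj i (by omega)

omit [DecidableEq V] in
theorem trunc_sum_le {k : ℕ} (hk : k ≤ P.m) (f : V → V → ℕ) :
    (P.trunc k hk).sum f ≤ P.sum f :=
  sum_le_sum_of_subset (range_subset_range.2 hk)

/-- Rotation at the pivot with index `a`. -/
def rot (a : ℕ) (ha : a < P.m) (h : G.Adj (P.p a) P.last) : IP G where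
  m := P.m
  p := fun i => if i ≤ a then P.p i else P.p (P.m + a + 1 - i)
  inj := fun i hi k hk e => by
    by_cases h1 : i ≤ a <;> by_cases h2 : k ≤ a <;> simp only [h1, h2, if_true, if_false] at e <;>
      (have := P.inj _ (by omega) _ (by omega) e; omega)
  adj := fun i hi => by
    rcases lt_trichotomy i a with h1 | h1 | h1
    · rw [if_pos (by omega), if_pos (by omega)]
      exact P.adj i hi
    · rw [if_pos (by omega), if_neg (by omega), h1, show P.m + a + 1 - (a + 1) = P.m by omega]
      exact h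
    · rw [if_neg (by omega), if_neg (by omega)]
      have := P.adj (P.m + a + 1 - (i + 1)) (by omega)
      rw [show P.m + a + 1 - (i + 1) + 1 = P.m + a + 1 - i by omega] at this
      exact this.symm

section
variable {a : ℕ} (ha : a < P.m) (h : G.Adj (P.p a) P.last)

omit [DecidableEq V] in
@[simp] theorem rot_m : (P.rot a ha h).m = P.m := rfl

omit [DecidableEq V] in
theorem rot_p_le {i : ℕ} (hi : i ≤ a) : (P.rot a ha h).p i = P.p i := if_pos hi

omit [DecidableEq V] in
theorem rot_p_gt {i : ℕ} (hi : a < i) : (P.rot a ha h).p i = P.p (P.m + a + 1 - i) :=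
  if_neg (by omega)

omit [DecidableEq V] in
@[simp] theorem rot_root : (P.rot a ha h).root = P.root := P.rot_p_le ha h (Nat.zero_le _)

omit [DecidableEq V] in
@[simp] theorem rot_last : (P.rot a ha h).last = P.p (a + 1) := by
  rw [last, rot_m, P.rot_p_gt ha h ha, show P.m + a + 1 - P.m = a + 1 by omega]

@[simp] theorem rot_S : (P.rot a ha h).S = P.S := by
  apply eq_of_subset_of_card_le
  · intro v hv
    obtain ⟨i, hi, e⟩ := (mem_S _).1 hv
    rw [rot_m] at hi
    by_cases h1 : i ≤ a
    · rw [← e, P.rot_p_le ha h h1]; exact P.p_mem hi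
    · rw [← e, P.rot_p_gt ha h (by omega)]; exact P.p_mem (by omega)
  · rw [card_S, card_S, rot_m]

omit [DecidableEq V] in
theorem rot_sum {f : V → V → ℕ} (hf : ∀ u v, f u v = f v u) :
    (P.rot a ha h).sum f + f (P.p a) (P.p (a + 1)) = P.sum f + f (P.p a) P.last := by
  unfold sum
  obtain ⟨r, hr⟩ : ∃ r, P.m = a + 1 + r := ⟨P.m - (a + 1), by omega⟩
  have e1 : ∀ g : ℕ → ℕ, ∑ i ∈ range P.m, g i =
      ∑ i ∈ range a, g i + g a + ∑ i ∈ range r, g (a + 1 + i) := by
    intro g
    rw [hr, sum_range_add, sum_range_succ]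
  rw [rot_m, e1, e1]
  have e2 : ∑ i ∈ range a, f ((P.rot a ha h).p i) ((P.rot a ha h).p (i + 1)) =
      ∑ i ∈ range a, f (P.p i) (P.p (i + 1)) := by
    apply sum_congr rfl
    intro i hi
    rw [mem_range] at hi
    rw [P.rot_p_le ha h (by omega), P.rot_p_le ha h (by omega)]
  have e3 : ∑ i ∈ range r, f ((P.rot a ha h).p (a + 1 + i)) ((P.rot a ha h).p (a + 1 + i + 1)) =
      ∑ i ∈ range r, f (P.p (a + 1 + i)) (P.p (a + 1 + i + 1)) := by
    rw [← sum_range_reflect]
    apply sum_congr rfl
    intro i hi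
    rw [mem_range] at hi
    rw [P.rot_p_gt ha h (by omega), P.rot_p_gt ha h (by omega), hf]
    congr 2 <;> omega
  rw [e2, e3, P.rot_p_le ha h le_rfl, P.rot_p_gt ha h (by omega),
    show P.m + a + 1 - (a + 1) = P.m by omega]
  unfold last
  omega

end

/-- Two rotation ends with a common outside neighbour give a longer path that ends in the later
pivot. -/
theorem share {a b : ℕ} (hab : a < b) (hb : b < P.m) (ha' : G.Adj (P.p a) P.last)
    {o : V} (ho : o ∉ P.S) (h1 : G.Adj (P.p (a + 1)) o)
    (h2 : G.Adj (P.p (b + 1)) o) :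
    ∃ Q : IP G, Q.m = P.m + 1 ∧ Q.S = insert o P.S ∧ Q.root = P.root ∧ Q.last = P.p b ∧
      ∀ f : V → V → ℕ, (∀ u v, f u v = f v u) →
        Q.sum f + f (P.p (b + 1)) (P.p b) =
          (P.rot a (by omega) ha').sum f + f (P.p (a + 1)) o + f (P.p (b + 1)) o := by
  have ha : a < P.m := by omega
  let P1 := P.rot a ha ha'
  have ho1 : o ∉ P1.S := by simpa [P1] using ho
  have h11 : G.Adj P1.last o := by simpa [P1] using h1
  let P2 := P1.ext o ho1 h11
  have e1 : P2.p (P.m + a - b) = P.p (b + 1) := by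
    rw [P1.ext_p ho1 h11 (by simp [P1]; omega), P.rot_p_gt ha ha' (by omega)]
    congr 1; omega
  have e2 : P2.p (P.m + a - b + 1) = P.p b := by
    rw [P1.ext_p ho1 h11 (by simp [P1]; omega), P.rot_p_gt ha ha' (by omega)]
    congr 1; omega
  have hlt : P.m + a - b < P2.m := by simp [P2, P1]; omega
  have hadj : G.Adj (P2.p (P.m + a - b)) P2.last := by
    rw [e1]; simpa [P2] using h2
  refine ⟨P2.rot _ hlt hadj, rfl, by simp [P2, P1], by simp [P2, P1], by rw [rot_last, e2], ?_⟩
  intro f hf
  have := P2.rot_sum hlt hadj hf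
  rw [e1, e2, P1.ext_sum ho1 h11, ext_last] at this
  simpa [P1] using this

theorem exists_of_walk {a b : V} (w : G.Walk a b) (hw : w.IsPath) :
    ∃ P : IP G, P.root = a ∧ P.last = b ∧ P.m = w.length := by
  refine ⟨⟨w.length, w.getVert, fun i hi k hk e => hw.getVert_injOn hi hk e,
    fun i hi => w.adj_getVert_succ hi⟩, by simp [root], by simp [last], rfl⟩

end IP

end Pool.Agent.Lib.MP_544a75_co
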