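import Pool.Agent.Lib.MP_544a75_co.IBasic

set_option autoImplicit false
set_option linter.unusedVariables false
set_option linter.unusedSectionVars false

namespace Pool.Agent.Lib.MP_544a75_co

open Finset

variable {V : Type*} [DecidableEq V] [Fintype V] {G : SimpleGraph V} [DecidableRel G.Adj]

namespace IP

variable (P : IP G)

/-- The graph outside the path. -/
def GO : SimpleGraph V where
  Adj u v := G.Adj u v ∧ u ∉ P.S ∧ v ∉ P.S
  symm := ⟨fun _ _ h => ⟨h.1.symm, h.2.2, h.2.1⟩⟩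
  loopless := ⟨fun _ h => h.1.ne rfl⟩

def Rch (i : ℕ) (w : V) : Prop := ∃ u, u ∉ P.S ∧ G.Adj (P.p i) u ∧ P.GO.Reachable u w

def Jump (i k : ℕ) : Prop := G.Adj (P.p i) (P.p k) ∨ ∃ w, P.Rch i w ∧ G.Adj w (P.p k)

theorem reach_out {u w : V} (h : P.GO.Reachable u w) (hu : u ∉ P.S) : w ∉ P.S := by
  obtain ⟨q⟩ := h
  induction q with
  | nil => exact hu
  | cons h _ ih => exact ih h.2.2

theorem Rch.out {P : IP G} {i : ℕ} {w : V} (h : P.Rch i w) : w ∉ P.S := by
  obtain ⟨u, hu, -, h⟩ := h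
  exact P.reach_out h hu

theorem jump_exists (h2 : ∀ v, (G.induce {w | w ≠ v}).Connected) {h : ℕ} (h0 : 0 < h)
    (hm : h < P.m) : ∃ i < h, ∃ k, h < k ∧ k ≤ P.m ∧ P.Jump i k ∧
      ∀ i' < h, ∀ k' ≤ P.m, P.Jump i' k' → k' ≤ k := by
  classical
  have hex : ∃ k, h < k ∧ k ≤ P.m ∧ ∃ i < h, P.Jump i k := by
    let U : Finset V := univ.filter fun v => ∃ i < h, P.p i = v ∨ P.Rch i v
    have hU : ∀ v, v ∈ U ↔ ∃ i < h, P.p i = v ∨ P.Rch i v := fun v => by simp [U]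
    have hnot : ∀ k, h ≤ k → k ≤ P.m → P.p k ∉ U := by
      intro k hk hkm hh
      obtain ⟨i, hi, e | e⟩ := (hU _).1 hh
      · exact P.ne (by omega) hkm (by omega) e
      · exact e.out (P.p_mem hkm)
    obtain ⟨u, hu, t, ht, htz, hadj⟩ := two_conn h2 (U := U) (u0 := P.p 0) (z := P.p h)
      (w := P.p P.m) ((hU _).2 ⟨0, h0, Or.inl rfl⟩) (hnot h le_rfl hm.le)
      (hnot _ hm.le le_rfl) (P.ne le_rfl hm.le (by omega))
    obtain ⟨i, hi, e⟩ := (hU _).1 hu
    by_cases htS : t ∈ P.S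
    · obtain ⟨k, hk, rfl⟩ := P.mem_S.1 htS
      have : h ≠ k := fun e => htz (e ▸ rfl)
      have : ¬ k < h := fun hh => ht ((hU _).2 ⟨k, hh, Or.inl rfl⟩)
      refine ⟨k, by omega, hk, i, hi, ?_⟩
      rcases e with e | e
      · exact Or.inl (e ▸ hadj)
      · exact Or.inr ⟨u, e, hadj⟩
    · exfalso
      apply ht
      refine (hU _).2 ⟨i, hi, Or.inr ?_⟩
      rcases e with e | e
      · exact ⟨t, htS, e ▸ hadj, SimpleGraph.Reachable.refl _⟩
      · obtain ⟨u', h1, h2, h3⟩ := id e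
        exact ⟨u', h1, h2, h3.trans (SimpleGraph.Adj.reachable ⟨hadj, e.out, htS⟩)⟩
  obtain ⟨k, ⟨hk1, hk2, i, hi, hj⟩, hmax⟩ := exists_max_nat id hex P.m fun a ha => ha.2.1
  refine ⟨i, hi, k, hk1, hk2, hj, fun i' hi' k' hk' hj' => ?_⟩
  by_cases hh : h < k'
  · exact hmax k' ⟨hh, hk', i', hi', hj'⟩
  · omega

theorem link {i k : ℕ} (hk : k ≤ P.m) (hj : P.Jump i k) :
    ∃ T : Finset V, (∀ v ∈ T, P.Rch i v ∧ ∀ i', P.Rch i' v → P.Jump i' k) ∧
      ∀ s T1, PathOn G s (P.p i) T1 → Disjoint T1 T → P.p k ∉ T1 →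
        PathOn G s (P.p k) (T1 ∪ T ∪ {P.p k}) := by
  rcases hj with hj | ⟨w, ⟨u, hu, hadj, hr⟩, hw⟩
  · refine ⟨∅, by simp, fun s T1 h1 _ h3 => ?_⟩
    simpa using h1.append (PathOn.single (P.p k)) hj (by simpa using h3)
  · obtain ⟨q, hq⟩ := hr.exists_isPath
    have hle : P.GO ≤ G := fun _ _ h => h.1
    have hT : PathOn G u w q.support.toFinset :=
      ⟨q.mapLe hle, hq.mapLe hle, by simp⟩
    have hv : ∀ v ∈ q.support.toFinset, P.GO.Reachable u v := by
      intro v hv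
      exact ⟨q.takeUntil v (by simpa using hv)⟩
    refine ⟨q.support.toFinset, fun v hv' => ⟨⟨u, hu, hadj, hv v hv'⟩, ?_⟩,
      fun s T1 h1 h2 h3 => ?_⟩
    · rintro i' ⟨u', h1, h2, h3⟩
      exact Or.inr ⟨w, ⟨u', h1, h2, h3.trans ((hv v hv').symm.trans hr)⟩, hw⟩
    · refine (h1.append hT hadj h2).append (PathOn.single _) hw ?_
      rw [disjoint_singleton_right, mem_union]
      rintro (h | h)
      · exact h3 h
      · exact P.reach_out (hv _ h) hu (P.p_mem hk)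

theorem ext_seg {s : V} {R : Finset V} {lo i : ℕ} (h : PathOn G s (P.p lo) R) (hi : lo ≤ i)
    (him : i ≤ P.m) (hR : ∀ l, lo < l → l ≤ i → P.p l ∉ R) :
    PathOn G s (P.p i) (R ∪ (Ioc lo i).image P.p) := by
  rcases hi.eq_or_lt with rfl | hi
  · simpa using h
  · rw [← Icc_add_one_left_eq_Ioc]
    refine h.append (P.seg (i := lo + 1) hi him) (P.adj lo (by omega)) ?_
    rw [disjoint_right]
    intro v hv
    obtain ⟨l, hl, rfl⟩ := mem_image.1 hv
    rw [mem_Icc] at hl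
    exact hR l hl.1 hl.2

theorem kopylov_cross {c : ℕ} (hN : NoCyc G c) (h3 : 3 ≤ c) (hc : c ≤ P.m + 1)
    (hx : P.rev.Closed) (hy : P.Closed)
    (hex : ∃ ik : ℕ × ℕ, ik.1 < ik.2 ∧ ik.2 ≤ P.m ∧ G.Adj (P.p ik.1) P.last ∧
      G.Adj (P.p ik.2) P.root) : G.degree P.root + G.degree P.last < c := by
  obtain ⟨⟨i, k⟩, ⟨h1, h2, h4, h5⟩, hmin⟩ := exists_min_nat (fun ik => ik.2 - ik.1) hex
  simp only at h1 h2 h4 h5
  have hi0 : i ≠ 0 := by
    rintro rfl
    exact P.nc0 hN h3 hc h4.symm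
  have hd : Disjoint ((Icc 0 i).image P.p) ((Icc k P.m).image P.p) := by
    rw [disjoint_left]
    intro v hv hv'
    obtain ⟨l, hl, rfl⟩ := mem_image.1 hv
    obtain ⟨l', hl', e⟩ := mem_image.1 hv'
    rw [mem_Icc] at hl hl'
    exact P.ne hl'.2 (by omega) (by omega) e
  have hp := (P.seg (Nat.zero_le i) (by omega)).append (P.seg h2 le_rfl).symm h4 hd
  have hcard : ((Icc 0 i).image P.p ∪ (Icc k P.m).image P.p).card = i + 1 + (P.m + 1 - k) := by
    rw [card_union_of_disjoint hd,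
      card_image_of_injOn (P.injOn_p fun a ha => by have := mem_Icc.1 ha; omega),
      card_image_of_injOn (P.injOn_p fun a ha => by have := mem_Icc.1 ha; omega)]
    simp
  have hlt := hN.card_lt hp h5 (by omega)
  have e1 := P.degree_last
  have e2 := P.rev.degree_last
  rw [P.out_empty hy, card_empty] at e1
  rw [P.rev.out_empty hx, card_empty, rev_last] at e2
  have := card_two (F1 := P.Pv) (F2 := P.rev.Pv) (T := Icc 0 i ∪ Icc (k - 1) (P.m - 1)) id
    (fun a => P.m - a - 1) (Set.injOn_id _)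
    (fun a ha b hb e => by
      have := (P.rev.mem_Pv.1 ha).1
      have := (P.rev.mem_Pv.1 hb).1
      simp only [rev_m] at *
      omega)
    (fun a ha => by
      obtain ⟨ha1, ha2⟩ := P.mem_Pv.1 ha
      have := hmin (a, k)
      simp only [mem_union, mem_Icc, id] at this ⊢
      by_cases hak : a < k
      · have := this ⟨hak, h2, ha2, h5⟩
        omega
      · omega)
    (fun a ha => by
      obtain ⟨ha1, ha2⟩ := P.rev.mem_Pv.1 ha
      rw [rev_m] at ha1
      rw [rev_p, rev_last] at ha2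
      have := hmin (i, P.m - a)
      simp only [mem_union, mem_Icc] at this ⊢
      by_cases hak : i < P.m - a
      · have := this ⟨hak, by omega, h4, ha2⟩
        omega
      · omega)
    (fun a ha b hb e => by
      obtain ⟨ha1, ha2⟩ := P.mem_Pv.1 ha
      obtain ⟨hb1, hb2⟩ := P.rev.mem_Pv.1 hb
      rw [rev_m] at hb1
      rw [rev_p, rev_last] at hb2
      simp only [id] at e
      have := hmin (a, P.m - b) ⟨by simp only; omega, by simp only; omega, ha2, hb2⟩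
      simp only at this
      omega)
  have h6 := card_union_le (Icc 0 i) (Icc (k - 1) (P.m - 1))
  simp only [Nat.card_Icc] at h6
  omega

/-- State of the vine. -/
def Vine (lo hi : ℕ) : Prop :=
  lo < hi ∧ hi ≤ P.m ∧ (∀ i < lo, ∀ k ≤ P.m, P.Jump i k → k ≤ hi) ∧
    ∃ R, PathOn G (P.p lo) (P.p hi) R ∧ P.root ∈ R ∧ (∀ w, G.Adj P.root w → w ∈ R) ∧
      ∀ v ∈ R, (∃ i ≤ lo, P.p i = v) ∨ v = P.p hi ∨ ∃ i < lo, P.Rch i v

theorem vine_step (h2 : ∀ v, (G.induce {w | w ≠ v}).Connected) {lo hi : ℕ} (h : P.Vine lo hi)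
    (hm : hi < P.m) : ∃ k, P.Vine hi k := by
  obtain ⟨h1, -, hj, R, hR, hr, hN, hmem⟩ := h
  obtain ⟨i, hi1, k, hk1, hk2, hjk, hmax⟩ := P.jump_exists h2 (h := hi) (by omega) hm
  have hlo : lo ≤ i := by
    by_contra hh
    have := hj i (by omega) k hk2 hjk
    omega
  have hnot : ∀ l, lo < l → l ≤ P.m → l ≠ hi → P.p l ∉ R := by
    intro l hl1 hl2 hl3 hh
    rcases hmem _ hh with ⟨i', hi', e⟩ | e | ⟨i', -, e⟩
    · exact P.ne (by omega) hl2 (by omega) e
    · exact P.ne hl2 hm.le hl3 e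
    · exact e.out (P.p_mem hl2)
  have hp := P.ext_seg hR.symm hlo (by omega) fun l h1 h2 => hnot l h1 (by omega) (by omega)
  obtain ⟨T, hT, hlink⟩ := P.link hk2 hjk
  refine ⟨k, hk1, hk2, hmax, _, hlink _ _ hp ?_ ?_, by simp [hr], fun w hw => by simp [hN w hw], ?_⟩
  · rw [disjoint_left]
    intro v hv hvT
    have hout := (hT v hvT).1.out
    rcases mem_union.1 hv with hv | hv
    · rcases hmem _ hv with ⟨i', hi', e⟩ | e | ⟨i', hi', e⟩
      · exact hout (e ▸ P.p_mem (by omega))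
      · exact hout (e ▸ P.p_mem hm.le)
      · have := hj i' hi' k hk2 ((hT v hvT).2 i' e)
        omega
    · obtain ⟨l, hl, rfl⟩ := mem_image.1 hv
      exact hout (P.p_mem (by have := mem_Ioc.1 hl; omega))
  · intro hh
    rcases mem_union.1 hh with hh | hh
    · exact hnot k (by omega) hk2 (by omega) hh
    · obtain ⟨l, hl, e⟩ := mem_image.1 hh
      have := mem_Ioc.1 hl
      exact P.ne (by omega) hk2 (by omega) e
  · intro v hv
    simp only [mem_union, mem_image, mem_singleton, mem_Ioc] at hv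
    rcases hv with ((hv | ⟨l, hl, e⟩) | hv) | hv
    · rcases hmem _ hv with ⟨i', hi', e⟩ | e | ⟨i', hi', e⟩
      · exact Or.inl ⟨i', by omega, e⟩
      · exact Or.inl ⟨hi, le_rfl, e.symm⟩
      · exact Or.inr (Or.inr ⟨i', by omega, e⟩)
    · exact Or.inl ⟨l, by omega, e⟩
    · exact Or.inr (Or.inr ⟨i, hi1, (hT v hv).1⟩)
    · exact Or.inr (Or.inl hv)

theorem vine_start (h2 : ∀ v, (G.induce {w | w ≠ v}).Connected) (hx : P.rev.Closed) {a : ℕ}
    (ha0 : 0 < a) (ham : a < P.m) (ha : G.Adj (P.p a) P.root)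
    (hmax : ∀ k ≤ P.m, G.Adj (P.p k) P.root → k ≤ a) : ∃ k, P.Vine a k := by
  obtain ⟨i, hi1, k, hk1, hk2, hjk, hmx⟩ := P.jump_exists h2 (h := a) ha0 ham
  obtain ⟨a', ⟨ha1, ha2, ha3⟩, hmin⟩ := exists_min_nat
    (Q := fun k => i < k ∧ k ≤ a ∧ G.Adj (P.p k) P.root) id ⟨a, hi1, le_rfl, ha⟩
  have hp := (P.seg ha2 ham.le).symm.append (P.seg (Nat.zero_le i) (by omega)) ha3 (by
    rw [disjoint_left]
    intro v hv hv'
    obtain ⟨l, hl, rfl⟩ := mem_image.1 hv
    obtain ⟨l', hl', e⟩ := mem_image.1 hv'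
    rw [mem_Icc] at hl hl'
    exact P.ne (by omega) (by omega) (by omega) e)
  have hmem : ∀ v ∈ (Icc a' a).image P.p ∪ (Icc 0 i).image P.p, ∃ l ≤ a, P.p l = v := by
    intro v hv
    simp only [mem_union, mem_image, mem_Icc] at hv
    rcases hv with ⟨l, hl, e⟩ | ⟨l, hl, e⟩
    · exact ⟨l, by omega, e⟩
    · exact ⟨l, by omega, e⟩
  obtain ⟨T, hT, hlink⟩ := P.link hk2 hjk
  refine ⟨k, hk1, hk2, hmx, _, hlink _ _ hp ?_ ?_, ?_, ?_, ?_⟩
  · rw [disjoint_left]
    intro v hv hvT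
    obtain ⟨l, hl, e⟩ := hmem v hv
    exact (hT v hvT).1.out (e ▸ P.p_mem (by omega))
  · intro hh
    obtain ⟨l, hl, e⟩ := hmem _ hh
    exact P.ne (by omega) hk2 (by omega) e
  · simp only [mem_union, mem_image, mem_Icc]
    exact Or.inl (Or.inl (Or.inr ⟨0, by omega, rfl⟩))
  · intro w hw
    obtain ⟨l, hl, rfl⟩ := P.mem_S.1 (by simpa using hx w (by simpa using hw))
    have h1 := hmax l hl hw.symm
    simp only [mem_union, mem_image, mem_Icc]
    by_cases h2 : i < l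
    · exact Or.inl (Or.inl (Or.inl ⟨l, ⟨hmin l ⟨h2, h1, hw.symm⟩, h1⟩, rfl⟩))
    · exact Or.inl (Or.inl (Or.inr ⟨l, by omega, rfl⟩))
  · intro v hv
    rw [mem_union, mem_union, mem_singleton] at hv
    rcases hv with (hv | hv) | hv
    · exact Or.inl (hmem v hv)
    · exact Or.inr (Or.inr ⟨i, hi1, (hT v hv).1⟩)
    · exact Or.inr (Or.inl hv)

theorem vine_close {c : ℕ} (hN : NoCyc G c) (hy : P.Closed) {lo hi b : ℕ} (h : P.Vine lo hi)
    (hb1 : lo ≤ b) (hb2 : b < hi) (hb : G.Adj (P.p b) P.last)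
    (hmin : ∀ k ≤ P.m, G.Adj (P.p k) P.last → b ≤ k) :
    ∃ T : Finset V, (3 ≤ T.card → T.card < c) ∧ P.root ∈ T ∧ (∀ w, G.Adj P.root w → w ∈ T) ∧
      ∀ w, G.Adj P.last w → w ∈ T := by
  obtain ⟨h1, hm, hj, R, hR, hr, hNx, hmem⟩ := h
  have hnot : ∀ l, lo < l → l ≤ P.m → l ≠ hi → P.p l ∉ R := by
    intro l hl1 hl2 hl3 hh
    rcases hmem _ hh with ⟨i', hi', e⟩ | e | ⟨i', -, e⟩
    · exact P.ne (by omega) hl2 (by omega) e
    · exact P.ne hl2 hm hl3 e
    · exact e.out (P.p_mem hl2)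
  obtain ⟨b', ⟨hb3, hb4⟩, hmax⟩ := exists_max_nat
    (Q := fun k => k < hi ∧ G.Adj (P.p k) P.last) id ⟨b, hb2, hb⟩ hi fun a ha => ha.1.le
  have hb5 : b ≤ b' := hmax b ⟨hb2, hb⟩
  have p1 := P.ext_seg hR hm le_rfl fun l h1 h2 => hnot l (by omega) h2 (by omega)
  have p2 := P.ext_seg p1.symm (i := b') (by omega) (by omega) fun l h1 h2 hh => by
    rcases mem_union.1 hh with hh | hh
    · exact hnot l h1 (by omega) (by omega) hh
    · obtain ⟨l', hl', e⟩ := mem_image.1 hh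
      have := mem_Ioc.1 hl'
      exact P.ne (by omega) (by omega) (by omega) e
  refine ⟨_, hN.card_lt p2 hb4, by simp [hr], fun w hw => by simp [hNx w hw], fun w hw => ?_⟩
  obtain ⟨l, hl, rfl⟩ := P.mem_S.1 (hy w hw)
  have h3 := hmin l hl hw.symm
  simp only [mem_union, mem_image, mem_Ioc]
  rcases lt_trichotomy l hi with h4 | h4 | h4
  · have h5 : l ≤ b' := hmax l ⟨h4, hw.symm⟩
    by_cases h6 : l = lo
    · exact Or.inl (Or.inl (h6 ▸ hR.left_mem))
    · exact Or.inr ⟨l, by omega, rfl⟩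
  · exact Or.inl (Or.inl (h4 ▸ hR.right_mem))
  · exact Or.inl (Or.inr ⟨l, by omega, rfl⟩)

/-- Kopylov's lemma for a long path whose ends have all their neighbours on it. -/
theorem kopylov (h2 : ∀ v, (G.induce {w | w ≠ v}).Connected) {c : ℕ} (hN : NoCyc G c)
    (h3 : 3 ≤ c) (hc : c ≤ P.m + 1) (hx : P.rev.Closed) (hy : P.Closed) :
    G.degree P.root + G.degree P.last < c := by
  by_cases hex : ∃ ik : ℕ × ℕ, ik.1 < ik.2 ∧ ik.2 ≤ P.m ∧ G.Adj (P.p ik.1) P.last ∧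
      G.Adj (P.p ik.2) P.root
  · exact P.kopylov_cross hN h3 hc hx hy hex
  have hnc : ∀ i k, k ≤ P.m → G.Adj (P.p i) P.last → G.Adj (P.p k) P.root → k ≤ i := by
    intro i k h1 h4 h5
    by_contra hh
    exact hex ⟨(i, k), by simp only; omega, h1, h4, h5⟩
  obtain ⟨a, ⟨ha1, ha2⟩, hamax⟩ := exists_max_nat
    (Q := fun k => k ≤ P.m ∧ G.Adj (P.p k) P.root) id
    ⟨1, by omega, (P.adj 0 (by omega)).symm⟩ P.m fun a ha => ha.1
  have hl : G.Adj (P.p (P.m - 1)) P.last := by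
    have := P.adj (P.m - 1) (by omega)
    rwa [show P.m - 1 + 1 = P.m by omega] at this
  obtain ⟨b, ⟨hb1, hb2⟩, hbmin⟩ := exists_min_nat
    (Q := fun k => k ≤ P.m ∧ G.Adj (P.p k) P.last) id ⟨P.m - 1, by omega, hl⟩
  have hab := hnc b a ha1 hb2 ha2
  have hb3 : b ≤ P.m - 1 := hbmin _ ⟨by omega, hl⟩
  have ha3 : 1 ≤ a := hamax 1 ⟨by omega, (P.adj 0 (by omega)).symm⟩
  have key : ∀ r lo hi, P.Vine lo hi → lo ≤ b → P.m - hi ≤ r →
      ∃ lo hi, P.Vine lo hi ∧ lo ≤ b ∧ b < hi := by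
    intro r
    induction r with
    | zero => intro lo hi h h1 h2; exact ⟨lo, hi, h, h1, by omega⟩
    | succ r ih =>
      intro lo hi h h1 h4
      by_cases hh : b < hi
      · exact ⟨lo, hi, h, h1, hh⟩
      · obtain ⟨k, hk⟩ := P.vine_step h2 h (by omega)
        exact ih hi k hk (by omega) (by have := hk.1; omega)
  obtain ⟨k, hk⟩ := P.vine_start h2 hx ha3 (by omega) ha2 fun k h1 h2 => hamax k ⟨h1, h2⟩
  obtain ⟨lo, hi, hv, h4, h5⟩ := key _ a k hk hab le_rfl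
  obtain ⟨T, hT, hr, hT1, hT2⟩ := P.vine_close hN hy hv h4 h5 hb2 fun k h1 h2 => hbmin k ⟨h1, h2⟩
  have h6 := card_two (F1 := insert P.root (G.neighborFinset P.root))
    (F2 := (G.neighborFinset P.last).erase (P.p a)) (T := T) id id (Set.injOn_id _)
    (Set.injOn_id _)
    (fun w hw => by
      rcases mem_insert.1 hw with rfl | hw
      · exact hr
      · exact hT1 w (by simpa using hw))
    (fun w hw => hT2 w (by simpa using (mem_erase.1 hw).2))
    (fun w hw w' hw' e => by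
      simp only [id] at e
      subst e
      obtain ⟨h7, h8⟩ := mem_erase.1 hw'
      rw [SimpleGraph.mem_neighborFinset] at h8
      rcases mem_insert.1 hw with rfl | hw
      · exact P.nc0 hN h3 hc h8
      · rw [SimpleGraph.mem_neighborFinset] at hw
        obtain ⟨l, hl, rfl⟩ := P.mem_S.1 (hy w h8)
        have h9 : l ≤ a := hamax l ⟨hl, hw.symm⟩
        have h10 : b ≤ l := hbmin l ⟨hl, h8.symm⟩
        exact h7 (by rw [show l = a by omega]))
  rw [card_insert_of_notMem (by simp), SimpleGraph.card_neighborFinset_eq_degree] at h6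
  have h7 := pred_card_le_card_erase (s := G.neighborFinset P.last) (a := P.p a)
  rw [SimpleGraph.card_neighborFinset_eq_degree] at h7
  omega

end IP

end Pool.Agent.Lib.MP_544a75_co
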