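import Pool.Agent.Lib.MP_544a75_co.CaseA

set_option autoImplicit false

namespace Pool.Agent.Lib.MP_544a75_co

open Finset

variable {V : Type*} [DecidableEq V]

theorem closed_bound {m : ℕ} (hM : Maj V m) {wt : V → V → ℕ} {D U : Finset V} {x y : V} {k : ℤ}
    (hc : U.card ≤ m) (I : Inst wt D x y) (hP : PB wt D x y k) (hU : U ⊆ D)
    (hcl : ∀ u ∈ U, ∀ t ∈ D, t ∉ U → wt u t = 0) :
    0 ≤ ∑ u ∈ U, phi (deg wt D x y u - k) := by
  have J : Inst wt U x y := by
    refine ⟨I.symm, fun u hu => I.diag u (hU hu), fun u hu z hz => I.le_one u (hU hu) z (hU hz),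
      fun h => I.xD (hU h), fun h => I.yD (hU h), I.xy, ?_⟩
    intro W hW hne z
    obtain ⟨u, hu, t, ht, htW, htz, hw⟩ := I.conn W (hW.trans hU) hne z
    refine ⟨u, hu, t, ?_, htW, htz, hw⟩
    rcases ht with ht | ht
    · left
      by_contra hh
      have := hcl u (hW hu) t ht hh
      omega
    · exact Or.inr ht
  have h := hM wt U x y k hc J (fun n hn => hP n (hn.mono hU))
  have e : ∀ u ∈ U, deg wt U x y u = deg wt D x y u := by
    intro u hu
    unfold deg
    rw [sum_subset hU fun z hz hzU => hcl u hu z hz hzU]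
  rwa [sum_congr rfl fun u hu => by rw [e u hu]] at h

theorem caseA {m : ℕ} (hM : Maj V m) {wt : V → V → ℕ} {D : Finset V} {x y b : V} {k : ℤ}
    (hc : D.card ≤ m + 1) (I : Inst wt D x y) (hP : PB wt D x y k)
    (hconn : ∀ U ⊆ D, U.Nonempty → U ≠ D → ∃ u ∈ U, ∃ t ∈ D, t ∉ U ∧ 1 ≤ wt u t)
    (hb : b ∈ D) {H0 : Finset V} (hH0 : H0 ⊆ D.erase b) (hA0 : Att wt D x y H0 x b)
    (hne0 : H0.Nonempty) : 0 ≤ ∑ u ∈ D, phi (deg wt D x y u - k) := by
  classical
  obtain ⟨H, hH, hA, hmx, hE⟩ := exists_max_hang (wt := wt) (D := D) (x := x) (y := y) b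
  have hne : H.Nonempty := by
    have := hmx H0 hH0 hA0
    have := hne0.card_pos
    exact card_pos.1 (by omega)
  have hce : (D.erase b).card ≤ m := by rw [card_erase_of_mem hb]; omega
  have hexit := hang_exit I hb hH hA hE
  have hPB := hang_PB hb hH hP hexit
  have h1 := hang_path I hb hH hA hne
  -- the maximal weight
  obtain ⟨p, hp, hpmax⟩ : ∃ p, WP wt b H x p ∧ ∀ n, WP wt b H x n → n ≤ p := by
    have hbd : BddAbove {n | WP wt b H x n} := by
      refine ⟨k.toNat, fun n hn => ?_⟩
      have := hPB n hn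
      push_cast at this
      omega
    exact ⟨sSup {n | WP wt b H x n}, Nat.sSup_mem ⟨1, h1⟩ hbd, fun n hn => le_csSup hbd hn⟩
  have hp1 : 1 ≤ p := hpmax 1 h1
  have hpx : wt b x ≤ p := by
    by_cases h : 1 ≤ wt x b
    · rw [I.symm]; exact hpmax _ (WP.base h le_rfl)
    · rw [I.symm]; omega
  have hpk := hPB p hp
  have hH1 : 1 ≤ ∑ u ∈ H, phi (deg wt D x y u - k) := by
    have := slack hM ((card_le_card hH).trans hce) hne (hang_inst I hb hH hA) (k := k) hPB
    rwa [sum_congr rfl fun u hu => by rw [hang_deg I hb hH hA hu]] at this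
  have hrest := rest_bound hM hc I hP hb hH hA hne hp hp1 hpx
  rw [← add_sum_erase D _ hb, hang_sum hH]
  by_cases he : ∑ z ∈ H, wt b z + wt b x ≤ p + 1
  · have := phi_pred (s := (deg wt D x y b : ℤ) - (∑ z ∈ H, wt b z : ℕ) - wt b x + p - k)
      (t := (deg wt D x y b : ℤ) - k) (by omega)
    omega
  · by_cases hEe : (D \ H).erase b = ∅
    · rw [hEe, sum_empty]
      have := neg_one_le_phi ((deg wt D x y b : ℤ) - k)
      omega
    · have hbH : b ∉ H := fun h => by simpa using hH h
      have hsub : insert b H ⊆ D := insert_subset hb (hH.trans (erase_subset _ _))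
      obtain ⟨t0, ht0⟩ := nonempty_iff_ne_empty.2 hEe
      have ht0' := ht0
      simp only [mem_erase, mem_sdiff] at ht0'
      have hneq : insert b H ≠ D := by
        intro e
        have := ht0'.2.1
        rw [← e, mem_insert] at this
        tauto
      obtain ⟨u, hu, t, ht, htU, hw⟩ := hconn _ hsub (insert_nonempty _ _) hneq
      simp only [mem_insert, not_or] at hu htU
      have hub : u = b := by
        rcases hu with hu | hu
        · exact hu
        · rcases hA u hu t (Or.inl ht) htU.2 hw with h | h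
          · exact absurd (h ▸ ht) I.xD
          · exact absurd h htU.1
      subst hub
      have ht' : t ∈ (D \ H).erase u := by simp [ht, htU.1, htU.2]
      have hexit2 : WP wt y ((D \ H).erase u) u 2 :=
        WP.step ht' hw (reach hE t ht') (by omega)
      have hk2 := hang_PB hb hH hP hexit2 p hp
      have hcard : H.card + 1 ≤ m := by
        have := card_lt_card (LE.le.ssubset_of_ne hsub hneq)
        rw [card_insert_of_notMem hbH] at this
        omega
      have htop := top_bound hM hcard I hb hH hA hne hpmax (by omega)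
      have : ∑ a ∈ H, phi (deg wt D x y a - (p + 2 : ℕ)) ≤ ∑ a ∈ H, phi (deg wt D x y a - k) := by
        apply sum_le_sum
        intro a _
        apply phi_anti
        push_cast at hk2 ⊢
        omega
      have := neg_one_le_phi ((deg wt D x y u : ℤ) - k)
      have := phi_le_one ((deg wt D x y u : ℤ) - (∑ z ∈ H, wt u z : ℕ) - wt u x + p - k)
      omega

theorem caseB {m : ℕ} (hM : Maj V m) {wt : V → V → ℕ} {D : Finset V} {x y : V} {k : ℤ}
    (hc : D.card ≤ m + 1) (I : Inst wt D x y) (hP : PB wt D x y k) (hne : D.Nonempty)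
    (hconn : ∀ U ⊆ D, U.Nonempty → U ≠ D → ∃ u ∈ U, ∃ t ∈ D, t ∉ U ∧ 1 ≤ wt u t)
    (hno : ∀ b ∈ D, ∀ H ⊆ D.erase b, H.Nonempty → ¬ Att wt D x y H x b) :
    0 ≤ ∑ u ∈ D, phi (deg wt D x y u - k) := by
  classical
  obtain ⟨r0, hr0, hmax0⟩ := exists_max_image D (fun u => wt u x) hne
  have hW : 1 ≤ wt r0 x := by
    obtain ⟨u, hu, t, ht, htU, hty, hw⟩ := I.conn D subset_rfl hne y
    have htx : t = x := by
      rcases ht with ht | ht | ht
      · exact absurd ht htU
      · exact ht
      · exact absurd ht hty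
    exact (htx ▸ hw).trans (hmax0 u hu)
  set W := wt r0 x with hWdef
  have hce : ∀ r ∈ D, (D.erase r).card ≤ m := by
    intro r hr; rw [card_erase_of_mem hr]; omega
  have hI : ∀ r ∈ D, Inst wt (D.erase r) r y := by
    intro r hr
    have hs := erase_subset r D
    refine ⟨I.symm, fun u hu => I.diag u (hs hu), fun u hu z hz => I.le_one u (hs hu) z (hs hz),
      by simp, fun h => I.yD (hs h), fun e => I.yD (e ▸ hr), ?_⟩
    intro U hU hUne z
    have hUD : U ≠ D := fun e => (mem_erase.1 (hU (e ▸ hr))).1 rfl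
    have hmem : ∀ t, (t ∈ D ∨ t = y) → (t ∈ D.erase r ∨ t = r ∨ t = y) := by
      intro t ht
      by_cases htr : t = r
      · exact Or.inr (Or.inl htr)
      · rcases ht with ht | ht
        · exact Or.inl (mem_erase.2 ⟨htr, ht⟩)
        · exact Or.inr (Or.inr ht)
    by_cases hz : z ∈ D ∧ z ∉ U
    · have := hno z hz.1 U (fun a ha => mem_erase.2 ⟨fun e => hz.2 (e ▸ ha), hs (hU ha)⟩) hUne
      unfold Att at this
      push Not at this
      obtain ⟨u, hu, t, ht, htU, hw, htx, htz⟩ := this
      refine ⟨u, hu, t, hmem t ?_, htU, htz, hw⟩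
      rcases ht with ht | ht | ht
      · exact Or.inl ht
      · exact absurd ht htx
      · exact Or.inr ht
    · obtain ⟨u, hu, t, ht, htU, hw⟩ := hconn U (hU.trans hs) hUne hUD
      exact ⟨u, hu, t, hmem t (Or.inl ht), htU, fun e => hz (e ▸ ⟨ht, htU⟩), hw⟩
  have hPB : ∀ r ∈ D, wt r x = W → PB wt (D.erase r) r y (k - W) := by
    intro r hr hrW n hn
    have := hP (W + n) (WP.step hr (by rw [I.symm]; omega) hn (by rw [I.symm]; omega))
    push_cast at this
    omega
  have hdeg : ∀ r ∈ D, ∀ u, deg wt (D.erase r) r y u + wt u x = deg wt D x y u := by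
    intro r hr u
    unfold deg
    rw [← add_sum_erase D _ hr]
    omega
  have hcmp : ∀ r ∈ D, ∀ u ∈ D, phi ((deg wt (D.erase r) r y u : ℤ) - (k - W)) ≤
      phi (deg wt D x y u - k) := by
    intro r hr u hu
    apply phi_anti
    have := hdeg r hr u
    have : wt u x ≤ W := hmax0 u hu
    omega
  have hbase : ∀ r ∈ D, wt r x = W →
      0 ≤ ∑ u ∈ D.erase r, phi ((deg wt (D.erase r) r y u : ℤ) - (k - W)) :=
    fun r hr hrW => hM _ _ _ _ _ (hce r hr) (hI r hr) (hPB r hr hrW)
  by_cases hB1 : ∃ r ∈ D, wt r x = W ∧ (deg wt D x y r : ℤ) ≤ k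
  · obtain ⟨r, hr, hrW, hrk⟩ := hB1
    rw [← add_sum_erase D _ hr]
    have h1 := hbase r hr hrW
    have h2 := sum_le_sum fun u (hu : u ∈ D.erase r) => hcmp r hr u (mem_of_mem_erase hu)
    have h3 := phi_nonneg (t := (deg wt D x y r : ℤ) - k) (by omega)
    omega
  push Not at hB1
  by_cases hB2 : ∃ r ∈ D, wt r x = W ∧ ∃ v ∈ D, 1 ≤ wt v r ∧ (deg wt D x y v : ℤ) < k
  · obtain ⟨r, hr, hrW, v, hv, hvr, hvk⟩ := hB2
    have hne' : v ≠ r := by
      intro e
      have := hB1 r hr hrW
      rw [e] at hvk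
      omega
    have hv' : v ∈ D.erase r := mem_erase.2 ⟨hne', hv⟩
    have h1 := absorb hM ((hce r hr).trans (Nat.le_succ _)) (hI r hr) (hPB r hr hrW) hv' hvr
      (fun u hu => (I.le_one u (mem_of_mem_erase hu) r hr).trans hvr)
    have h2 := sum_le_sum fun u (hu : u ∈ (D.erase r).erase v) =>
      hcmp r hr u (mem_of_mem_erase (mem_of_mem_erase hu))
    rw [← add_sum_erase D _ hr, ← add_sum_erase _ _ hv', phi_neg (t := deg wt D x y v - k) (by omega)]
    have := neg_one_le_phi ((deg wt D x y r : ℤ) - k)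
    omega
  push Not at hB2
  have hr0k := hB1 r0 hr0 rfl
  by_cases hB3 : ∃ u ∈ D, (deg wt D x y u : ℤ) = k
  · obtain ⟨u, hu, huk⟩ := hB3
    have huW : wt u x ≠ W := fun e => by
      have := hB1 u hu e
      omega
    have hur : u ≠ r0 := fun e => huW (by rw [e])
    have hu' : u ∈ D.erase r0 := mem_erase.2 ⟨hur, hu⟩
    have h1 := hbase r0 hr0 rfl
    rw [← add_sum_erase _ _ hu'] at h1
    have h2 := sum_le_sum fun a (ha : a ∈ (D.erase r0).erase u) =>
      hcmp r0 hr0 a (mem_of_mem_erase (mem_of_mem_erase ha))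
    rw [← add_sum_erase D _ hr0, ← add_sum_erase _ _ hu']
    have h3 : phi ((deg wt (D.erase r0) r0 y u : ℤ) - (k - W)) = -1 := by
      apply phi_pos
      have := hdeg r0 hr0 u
      have : wt u x ≤ W := hmax0 u hu
      omega
    have h4 := phi_nonneg (t := (deg wt D x y u : ℤ) - k) (by omega)
    have := neg_one_le_phi ((deg wt D x y r0 : ℤ) - k)
    omega
  by_cases hB4 : ∃ v ∈ D, (deg wt D x y v : ℤ) < k
  · obtain ⟨v, hv, hvk⟩ := hB4
    have hvr : v ≠ r0 := fun e => by rw [e] at hvk; omega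
    have hv' : v ∈ D.erase r0 := mem_erase.2 ⟨hvr, hv⟩
    obtain ⟨wt', I', hP', hle⟩ := contract (hI r0 hr0) hv'
    have h1 := hM _ _ _ _ _ ((card_le_card (erase_subset _ _)).trans (hce r0 hr0)) I'
      (hP' _ (hPB r0 hr0 rfl))
    have h2 : ∑ a ∈ (D.erase r0).erase v,
        phi ((deg wt' ((D.erase r0).erase v) r0 y a : ℤ) - (k - W)) ≤
        ∑ a ∈ (D.erase r0).erase v, phi (deg wt D x y a - k) := by
      apply sum_le_sum
      intro a ha
      have haD := mem_of_mem_erase (mem_of_mem_erase ha)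
      apply phi_anti
      have e1 := hdeg r0 hr0 a
      have e2 : wt a x ≤ W := hmax0 a haD
      have e3 := deg_erase_le (x := r0) (y := y) (u := a) hv' hle
      have e4 := I.le_one a haD v hv
      by_cases e5 : wt a x = W
      · have : wt a v = 0 := by
          by_contra hh
          have := hB2 a haD e5 v hv (by rw [I.symm]; omega)
          omega
        omega
      · omega
    rw [← add_sum_erase D _ hr0, ← add_sum_erase _ _ hv',
      phi_neg (t := deg wt D x y v - k) (by omega)]
    have := neg_one_le_phi ((deg wt D x y r0 : ℤ) - k)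
    omega
  exfalso
  push Not at hB3 hB4
  have hemp : D.erase r0 = ∅ := by
    by_contra hh
    have h1 := hbase r0 hr0 rfl
    have : ∑ u ∈ D.erase r0, phi ((deg wt (D.erase r0) r0 y u : ℤ) - (k - W)) <
        ∑ _u ∈ D.erase r0, (0 : ℤ) := by
      apply sum_lt_sum_of_nonempty (nonempty_iff_ne_empty.2 hh)
      intro u hu
      have h2 := hcmp r0 hr0 u (mem_of_mem_erase hu)
      have h3 := hB3 u (mem_of_mem_erase hu)
      have h4 := hB4 u (mem_of_mem_erase hu)
      rw [phi_pos (t := deg wt D x y u - k) (by omega)] at h2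
      omega
    simp at this
    omega
  have hy : 1 ≤ wt r0 y := by
    obtain ⟨u, hu, t, ht, htU, htx, hw⟩ := I.conn D subset_rfl hne x
    have hty : t = y := by
      rcases ht with ht | ht | ht
      · exact absurd ht htU
      · exact absurd ht htx
      · exact ht
    have hur : u = r0 := by
      by_contra hh
      have : u ∈ D.erase r0 := mem_erase.2 ⟨hh, hu⟩
      rw [hemp] at this
      simp at this
    rw [← hur, ← hty]; exact hw
  have h1 := hPB r0 hr0 rfl (wt r0 y) (WP.base hy le_rfl)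
  have h2 := hdeg r0 hr0 r0
  have h3 : deg wt (D.erase r0) r0 y r0 = wt r0 y := by
    unfold deg
    rw [hemp, I.diag r0 hr0]
    simp
  omega

theorem maj_all (m : ℕ) : Maj V m := by
  induction m with
  | zero =>
    intro wt D x y k hc _ _
    rw [card_eq_zero.1 (Nat.le_zero.1 hc)]
    simp
  | succ m hM =>
    intro wt D x y k hc I hP
    rcases D.eq_empty_or_nonempty with he | hne
    · rw [he]; simp
    by_cases hconn : ∀ U ⊆ D, U.Nonempty → U ≠ D → ∃ u ∈ U, ∃ t ∈ D, t ∉ U ∧ 1 ≤ wt u t
    · by_cases hno : ∀ b ∈ D, ∀ H ⊆ D.erase b, H.Nonempty → ¬ Att wt D x y H x b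
      · exact caseB hM hc I hP hne hconn hno
      · push Not at hno
        obtain ⟨b, hb, H, hH, hHne, hA⟩ := hno
        exact caseA hM hc I hP hconn hb hH hA hHne
    · push Not at hconn
      obtain ⟨U, hU, hUne, hUD, hcl⟩ := hconn
      have hlt := card_lt_card (LE.le.ssubset_of_ne hU hUD)
      have h1 := closed_bound hM (by omega) I hP hU fun u hu t ht htU => by
        have := hcl u hu t ht htU
        omega
      have h2 := closed_bound (U := D \ U) hM (by
        rw [card_sdiff_of_subset hU]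
        have := hUne.card_pos
        omega) I hP sdiff_subset fun u hu t ht htU => by
          rw [mem_sdiff] at hu
          have htU' : t ∈ U := by
            by_contra hh
            exact htU (mem_sdiff.2 ⟨ht, hh⟩)
          have := hcl t htU' u hu.1 hu.2
          rw [I.symm]
          omega
      rw [← sum_sdiff hU]
      omega

/-- The weighted majority lemma. -/
theorem majority {wt : V → V → ℕ} {D : Finset V} {x y : V} {k : ℤ} (I : Inst wt D x y)
    (hP : PB wt D x y k) : 0 ≤ ∑ u ∈ D, phi (deg wt D x y u - k) :=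
  maj_all D.card wt D x y k le_rfl I hP

end Pool.Agent.Lib.MP_544a75_co
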