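import Pool.Agent.Lib.MP_544a75_co.Regime1B

set_option autoImplicit false
set_option linter.unusedVariables false
set_option linter.unusedSectionVars false

namespace Pool.Agent.Lib.MP_544a75_co

open Finset

variable {V : Type*} [DecidableEq V] [Fintype V]

theorem path_of_cycle_snd {H : SimpleGraph V} {x : V} (q : H.Walk x x) (hq : q.IsCycle) :
    ∃ w : H.Walk q.snd x, w.IsPath ∧ s(x, q.snd) ∉ w.edges ∧ w.length + 1 = q.length := by
  cases q with
  | nil => exact absurd rfl hq.ne_nil
  | cons h w =>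
    rw [SimpleGraph.Walk.cons_isCycle_iff] at hq
    rw [SimpleGraph.Walk.snd_cons]
    exact ⟨w, hq.1, hq.2, rfl⟩

theorem path_of_cycle {H : SimpleGraph V} {x y : V} (q : H.Walk x x) (hq : q.IsCycle)
    (he : s(x, y) ∈ q.edges) :
    ∃ w : H.Walk y x, w.IsPath ∧ s(x, y) ∉ w.edges ∧ w.length + 1 = q.length := by
  have key : y = q.snd ∨ y = q.reverse.snd := by
    rw [SimpleGraph.Walk.snd_reverse]
    cases q with
    | nil => exact absurd rfl hq.ne_nil
    | cons h w =>
      rw [SimpleGraph.Walk.cons_isCycle_iff] at hq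
      rw [SimpleGraph.Walk.edges_cons, List.mem_cons] at he
      rcases he with he | he
      · left
        rw [SimpleGraph.Walk.snd_cons]
        exact Sym2.congr_right.1 he
      · right
        rw [SimpleGraph.Walk.penultimate_cons_of_not_nil _ _
          (SimpleGraph.Walk.edges_eq_nil.not.1 (List.ne_nil_of_mem he))]
        exact hq.1.eq_penultimate_of_mem_edges he
  rcases key with rfl | h
  · exact path_of_cycle_snd q hq
  · have := path_of_cycle_snd q.reverse hq.reverse
    rw [← h, SimpleGraph.Walk.length_reverse] at this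
    exact this

theorem exists_maximal {G : SimpleGraph V} {c : ℕ} (hG : NoCyc G c) :
    ∃ H : SimpleGraph V, G ≤ H ∧ NoCyc H c ∧
      ∀ x y, x ≠ y → ¬ H.Adj x y → ∃ P : IP H, P.root = x ∧ P.last = y ∧ c ≤ P.m + 1 := by
  classical
  obtain ⟨H, ⟨h1, h2⟩, hmax⟩ := exists_max_nat (Q := fun H : SimpleGraph V => G ≤ H ∧ NoCyc H c)
    (fun H => {e : V × V | H.Adj e.1 e.2}.ncard) ⟨G, le_rfl, hG⟩
    (Nat.card (V × V)) fun a _ => Set.ncard_le_card _
  refine ⟨H, h1, h2, fun x y hxy hadj => ?_⟩
  have h3 : ¬ NoCyc (H ⊔ SimpleGraph.edge y x) c := fun h => by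
    have h4 := hmax _ ⟨h1.trans le_sup_left, h⟩
    refine absurd h4 (not_le.2 (Set.ncard_lt_ncard ⟨?_, fun hh => hadj ?_⟩ (Set.toFinite _)))
    · intro e he
      exact Or.inl he
    · exact hh (a := (x, y))
        (Or.inr ((SimpleGraph.edge_adj _ _ _ _).2 ⟨Or.inr ⟨rfl, rfl⟩, hxy⟩))
  unfold NoCyc at h3
  push Not at h3
  obtain ⟨u, q, hq, hl⟩ := h3
  have hE : ∀ e ∈ (H ⊔ SimpleGraph.edge y x).edgeSet, e ≠ s(y, x) → e ∈ H.edgeSet := by
    intro e he hne
    induction e using Sym2.ind with
    | h a b =>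
      rcases he with he | he
      · exact he
      · exact absurd ((SimpleGraph.adj_edge _ _).1 he).1.symm hne
  by_cases he : s(y, x) ∈ q.edges
  · have hy := q.fst_mem_support_of_mem_edges he
    obtain ⟨w, hw, hw', hwl⟩ := path_of_cycle (q.rotate y hy) (hq.rotate hy)
      ((q.rotate_edges y hy).mem_iff.2 he)
    have ht : ∀ e ∈ w.edges, e ∈ H.edgeSet := fun e he =>
      hE e (w.edges_subset_edgeSet he) fun h => hw' (h ▸ he)
    obtain ⟨P, h4, h5, h6⟩ := IP.exists_of_walk (w.transfer H ht) (hw.transfer ht)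
    rw [SimpleGraph.Walk.length_transfer] at h6
    rw [SimpleGraph.Walk.length_rotate] at hwl
    exact ⟨P, h4, h5, by omega⟩
  · have ht : ∀ e ∈ q.edges, e ∈ H.edgeSet := fun e he' =>
      hE e (q.edges_subset_edgeSet he') fun h => he (h ▸ he')
    have := h2 u (q.transfer H ht) (hq.transfer ht)
    rw [SimpleGraph.Walk.length_transfer] at this
    omega

theorem not_complete {n c : ℕ} {H : SimpleGraph (Fin n)} (h3 : 3 ≤ c) (hc : c ≤ n)
    (hH : NoCyc H c) : ∃ x y, x ≠ y ∧ ¬ H.Adj x y := by
  classical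
  let p : ℕ → Fin n := fun i => ⟨min i (n - 1), by omega⟩
  by_contra h
  push Not at h
  let P : IP H := ⟨n - 1, p, fun i hi k hk e => by
      have := congrArg Fin.val e
      simp only [p] at this
      omega,
    fun i hi => h _ _ fun e => by
      have := congrArg Fin.val e
      simp only [p] at this
      omega⟩
  exact P.nc0 hH h3 (by change c ≤ n - 1 + 1; omega)
    (h _ _ (P.last_ne_root (by change 1 ≤ n - 1; omega)))

end Pool.Agent.Lib.MP_544a75_co
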