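import Pool.Agent.Lib.MP_544a75_co.Major

set_option autoImplicit false

namespace Pool.Agent.Lib.MP_544a75_co

open Finset

variable {V : Type*} [DecidableEq V]

omit [DecidableEq V] in
theorem cycle_of_list {G : SimpleGraph V} {a : V} {l : List V} (hc : (a :: (l ++ [a])).IsChain G.Adj)
    (hn : (a :: l).Nodup) (h2 : 2 ≤ l.length) :
    ∃ (u : V) (p : G.Walk u u), p.IsCycle ∧ p.length = l.length + 1 := by
  have hne : a :: l ≠ [] := by simp
  have hc' : ((a :: l) ++ [a]).IsChain G.Adj := by simpa using hc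
  rw [List.isChain_append] at hc'
  obtain ⟨h1, -, h3⟩ := hc'
  have hadj : G.Adj ((a :: l).getLast hne) ((a :: l).head hne) := by
    apply h3
    · rw [List.getLast?_eq_some_getLast hne]; rfl
    · simp
  obtain ⟨p, hps⟩ : ∃ p : G.Walk ((a :: l).head hne) ((a :: l).getLast hne), p.support = a :: l :=
    ⟨_, SimpleGraph.Walk.support_ofSupport hne h1⟩
  have hp : p.IsPath := by
    rw [SimpleGraph.Walk.isPath_def, hps]
    exact hn
  have hl : p.length = l.length := by
    have := p.length_support
    rw [hps, List.length_cons] at this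
    omega
  refine ⟨_, SimpleGraph.Walk.cons hadj p, ?_, by rw [SimpleGraph.Walk.length_cons, hl]⟩
  rw [SimpleGraph.Walk.cons_isCycle_iff]
  refine ⟨hp, fun h => ?_⟩
  rw [Sym2.eq_swap] at h
  have := hp.length_eq_one_of_mem_edges h
  omega

theorem two_conn {G : SimpleGraph V} (h2 : ∀ v, (G.induce {w | w ≠ v}).Connected)
    {U : Finset V} {u0 w z : V} (hu0 : u0 ∈ U) (hz : z ∉ U) (hw : w ∉ U) (hwz : w ≠ z) :
    ∃ u ∈ U, ∃ t, t ∉ U ∧ t ≠ z ∧ G.Adj u t := by
  have hu0z : u0 ≠ z := fun e => hz (e ▸ hu0)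
  obtain ⟨p⟩ := (h2 z).preconnected ⟨u0, hu0z⟩ ⟨w, hwz⟩
  have key : ∀ (a b : {w | w ≠ z}) (_ : (G.induce {w | w ≠ z}).Walk a b), a.1 ∈ U → b.1 ∉ U →
      ∃ u ∈ U, ∃ t, t ∉ U ∧ t ≠ z ∧ G.Adj u t := by
    intro a b q
    induction q with
    | nil => intro h1 h2; exact absurd h1 h2
    | @cons a c b h _ ih =>
      intro h1 h2
      by_cases hc : c.1 ∈ U
      · exact ih hc h2
      · exact ⟨a.1, h1, c.1, hc, c.2, h⟩
  exact key _ _ p hu0 hw

/-- No ear through vertices outside `P` is longer than the piece of `P` it spans. -/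
def Tight (G : SimpleGraph V) (P : List V) : Prop :=
  ∀ (A B C Q : List V) (s t : V), P = A ++ s :: (B ++ t :: C) → Q.Nodup →
    (∀ z ∈ Q, z ∉ P) → (s :: (Q ++ [t])).IsChain G.Adj → Q.length ≤ B.length

theorem split_idx {P : List V} (hn : P.Nodup) {s t : V} (hs : s ∈ P) (ht : t ∈ P)
    (h : P.idxOf s < P.idxOf t) :
    ∃ A B C : List V, P = A ++ s :: (B ++ t :: C) ∧ P.idxOf s + B.length + 1 = P.idxOf t := by
  obtain ⟨A, R, rfl⟩ := List.append_of_mem hs
  have hn' := hn
  rw [List.nodup_append] at hn'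
  have hsA : s ∉ A := fun hh => hn'.2.2 s hh s (by simp) rfl
  rw [List.idxOf_append_of_notMem hsA] at h
  have htA : t ∉ A := by
    intro hh
    rw [List.idxOf_append_of_mem hh] at h
    have := List.idxOf_lt_length_of_mem hh
    omega
  rw [List.idxOf_append_of_notMem htA] at h
  have hts : s ≠ t := by
    intro e; subst e; omega
  have htR : t ∈ R := by
    simp only [List.mem_append, List.mem_cons] at ht
    rcases ht with ht | ht | ht
    · exact absurd ht htA
    · exact absurd ht.symm hts
    · exact ht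
  obtain ⟨B, C, rfl⟩ := List.append_of_mem htR
  have htB : t ∉ B := by
    have := (List.nodup_cons.1 hn'.2.1).2
    rw [List.nodup_append] at this
    exact fun hh => this.2.2 t hh t (by simp) rfl
  refine ⟨A, B, C, rfl, ?_⟩
  rw [List.idxOf_append_of_notMem hsA, List.idxOf_append_of_notMem htA, List.idxOf_cons_ne _ hts,
    List.idxOf_append_of_notMem htB]
  simp
  omega

theorem ear_bound {G : SimpleGraph V} {P : List V} {c : ℕ} (hc : P.IsChain G.Adj) (hn : P.Nodup)
    (hT : Tight G P) (hcyc : ∀ (u : V) (p : G.Walk u u), p.IsCycle → p.length < c)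
    {s t : V} (hs : s ∈ P) (ht : t ∈ P) (h : P.idxOf s < P.idxOf t) {Q : List V} (hQ : Q ≠ [])
    (hQn : Q.Nodup) (hQP : ∀ z ∈ Q, z ∉ P) (hch : (s :: (Q ++ [t])).IsChain G.Adj) :
    P.idxOf s + Q.length + 1 ≤ P.idxOf t ∧ P.idxOf t + Q.length + 1 < c + P.idxOf s := by
  obtain ⟨A, B, C, hP, hidx⟩ := split_idx hn hs ht h
  have h1 := hT A B C Q s t hP hQn hQP hch
  refine ⟨by omega, ?_⟩
  have hQl : 1 ≤ Q.length := List.length_pos_iff.2 hQ
  have hc1 : (s :: (B ++ [t])).IsChain G.Adj := by
    rw [hP, List.isChain_split] at hc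
    exact (List.isChain_cons_split.1 hc.2).1
  have hc2 : (t :: (Q.reverse ++ [s])).IsChain G.Adj := by
    have := List.isChain_reverse.2 (hch.imp fun _ _ h => h.symm)
    simpa using this
  have hc3 : (s :: ((B ++ t :: Q.reverse) ++ [s])).IsChain G.Adj := by
    have : (s :: (B ++ t :: (Q.reverse ++ [s]))).IsChain G.Adj :=
      List.isChain_cons_split.2 ⟨hc1, hc2⟩
    simpa using this
  have hn3 : (s :: (B ++ t :: Q.reverse)).Nodup := by
    have e : s :: (B ++ t :: Q.reverse) = (s :: (B ++ [t])) ++ Q.reverse := by simp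
    rw [e, List.nodup_append]
    refine ⟨?_, List.nodup_reverse.2 hQn, ?_⟩
    · have : (s :: (B ++ [t])).Sublist P := by
        rw [hP]
        refine List.Sublist.trans ?_ (List.sublist_append_right _ _)
        apply List.Sublist.cons_cons
        apply List.Sublist.append_left
        simp
      exact this.nodup hn
    · intro a ha b hb e
      apply hQP b (List.mem_reverse.1 hb)
      rw [← e, hP]
      simp only [List.mem_cons, List.mem_append, List.not_mem_nil, or_false] at ha ⊢
      tauto
  obtain ⟨u, p, hp, hl⟩ := cycle_of_list hc3 hn3 (by simp; omega)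
  have := hcyc u p hp
  rw [hl] at this
  simp at this
  omega

theorem spaced {F : Finset ℕ} {lo hi : ℕ} (hF : ∀ i ∈ F, lo ≤ i ∧ i ≤ hi)
    (hs : ∀ i ∈ F, ∀ j ∈ F, i < j → i + 2 ≤ j) : F.card ≤ (hi - lo) / 2 + 1 := by
  have := card_le_card_of_injOn (s := F) (t := range ((hi - lo) / 2 + 1)) (fun i => (i - lo) / 2)
    (fun i hi => by
      have := hF i hi
      simp only [coe_range, Set.mem_Iio]
      omega)
    (fun i hi j hj e => by
      have h1 := hF i hi
      have h2 := hF j hj
      simp only at e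
      rcases lt_trichotomy i j with h | h | h
      · have := hs i hi j hj h; omega
      · exact h
      · have := hs j hj i hi h; omega)
  simpa using this

theorem spider {F : Finset ℕ} {a j c : ℕ} (hne : F.Nonempty)
    (h1 : ∀ i ∈ F, ∀ i' ∈ F, i < i' → i + 2 ≤ i' ∧ i' + 2 < c + i)
    (h2 : ∀ i ∈ F, (a + j + 1 ≤ i ∧ i + j + 1 < c + a) ∨ (i + j + 1 ≤ a ∧ a + j + 1 < c + i)) :
    2 * (j + F.card) < c := by
  have hlo := min'_mem F hne
  have hhi := max'_mem F hne
  have hb : ∀ i ∈ F, F.min' hne ≤ i ∧ i ≤ F.max' hne := fun i hi => ⟨min'_le _ _ hi, le_max' _ _ hi⟩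
  generalize F.min' hne = lo at hlo hb
  generalize F.max' hne = hi at hhi hb
  have hsp : ∀ i ∈ F, ∀ i' ∈ F, i < i' → i + 2 ≤ i' := fun i h i' h' hh => (h1 i h i' h' hh).1
  rcases h2 lo hlo with hl | hl
  · have := spaced (lo := a + j + 1) (hi := hi) (fun i h => by have := hb i h; omega) hsp
    have := hb lo hlo
    rcases h2 hi hhi with hh | hh <;> omega
  · rcases h2 hi hhi with hh | hh
    · have e := card_filter_add_card_filter_not (s := F) (fun i => i < a)
      have s1 := spaced (F := F.filter fun i => i < a) (lo := lo) (hi := a - j - 1)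
        (fun i h => by
          rw [mem_filter] at h
          have := hb i h.1
          have := h2 i h.1
          omega)
        (fun i h i' h' => hsp i (mem_filter.1 h).1 i' (mem_filter.1 h').1)
      have s2 := spaced (F := F.filter fun i => ¬ i < a) (lo := a + j + 1) (hi := hi)
        (fun i h => by
          rw [mem_filter] at h
          have := hb i h.1
          have := h2 i h.1
          omega)
        (fun i h i' h' => hsp i (mem_filter.1 h).1 i' (mem_filter.1 h').1)
      have := h1 lo hlo hi hhi (by omega)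
      omega
    · have := spaced (lo := lo) (hi := a - j - 1) (fun i h => by have := hb i h; omega) hsp
      omega

end Pool.Agent.Lib.MP_544a75_co
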