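import Pool.Agent.Lib.MP_544a75_co.Kopylov

set_option autoImplicit false
set_option linter.unusedVariables false
set_option linter.unusedSectionVars false

namespace Pool.Agent.Lib.MP_544a75_co

open Finset

variable {V : Type*} [DecidableEq V] [Fintype V] {G : SimpleGraph V} [DecidableRel G.Adj]

/-- The standing hypotheses of a counterexample. -/
structure Ctx (G : SimpleGraph V) [DecidableRel G.Adj] (ℓ : V → ℕ) (c : ℕ) : Prop where
  inj : Function.Injective ℓ
  pos : ∀ v, 1 ≤ ℓ v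
  le : ∀ v, ℓ v ≤ Fintype.card V
  c3 : 3 ≤ c
  cn : c ≤ Fintype.card V
  conn : ∀ v, (G.induce {w | w ≠ v}).Connected
  nocyc : NoCyc G c
  good : ∀ x y, ℓ x < ℓ y → ¬ G.Adj x y → c ≤ ℓ x + ℓ y → G.degree x ≤ ℓ x →
    G.degree y + 1 ≤ ℓ y → c ≤ G.degree x + G.degree y

variable {ℓ : V → ℕ} {c : ℕ}

theorem Ctx.bad (C : Ctx G ℓ c) {x y : V} (hne : x ≠ y) (hadj : ¬ G.Adj x y)
    (hc : c ≤ ℓ x + ℓ y) (hx : G.degree x + (if ℓ y < ℓ x then 1 else 0) ≤ ℓ x)
    (hy : G.degree y + (if ℓ x < ℓ y then 1 else 0) ≤ ℓ y)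
    (hd : G.degree x + G.degree y < c) : False := by
  have : ℓ x ≠ ℓ y := fun e => hne (C.inj e)
  split_ifs at hx hy with h1 h2 h2
  · omega
  · have := C.good y x h1 (fun h => hadj h.symm) (by omega) (by omega) hx
    omega
  · have := C.good x y h2 hadj hc (by omega) hy
    omega
  · omega

theorem Ctx.card_le (C : Ctx G ℓ c) {T : Finset V} {k : ℕ} (hT : ∀ v ∈ T, ℓ v ≤ k) :
    T.card ≤ k := card_lab_le C.inj C.pos hT

/-- Edge potential: edges with a smaller label below `k` are weighted lexicographically. -/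
def fPi (ℓ : V → ℕ) (k : ℕ) (u v : V) : ℕ :=
  if min (ℓ u) (ℓ v) < k then
    (Fintype.card V * Fintype.card V + 1) ^ (Fintype.card V - min (ℓ u) (ℓ v)) * max (ℓ u) (ℓ v)
  else 0

theorem fPi_symm (k : ℕ) (u v : V) : fPi ℓ k u v = fPi ℓ k v u := by
  unfold fPi
  rw [min_comm, max_comm]

theorem fPi_zero {k : ℕ} {u v : V} (hu : k ≤ ℓ u) (hv : k ≤ ℓ v) : fPi ℓ k u v = 0 :=
  if_neg (by omega)

theorem fPi_lt {k : ℕ} {x e q : V} (hx : ℓ x < k) (he : k ≤ ℓ e) (hq : ℓ e < ℓ q) :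
    fPi ℓ k x e < fPi ℓ k x q := by
  unfold fPi
  rw [min_eq_left (by omega : ℓ x ≤ ℓ e), min_eq_left (by omega : ℓ x ≤ ℓ q),
    max_eq_right (by omega : ℓ x ≤ ℓ e), max_eq_right (by omega : ℓ x ≤ ℓ q), if_pos hx, if_pos hx]
  exact Nat.mul_lt_mul_of_pos_left hq (by positivity)

theorem fPi_nest (hle : ∀ v, ℓ v ≤ Fintype.card V) {k t : ℕ} (hk : k ≤ t) {X Y : IP G}
    (h : X.sum (fPi ℓ k) < Y.sum (fPi ℓ k)) : X.sum (fPi ℓ t) < Y.sum (fPi ℓ t) := by
  set n := Fintype.card V with hn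
  have h1 : Y.sum (fPi ℓ k) ≤ Y.sum (fPi ℓ t) := Y.sum_mono fun u v => by
    unfold fPi
    split_ifs <;> omega
  have hd : ∀ Z : IP G, (n * n + 1) ^ (n + 1 - k) ∣ Z.sum (fPi ℓ k) := fun Z => by
    apply dvd_sum
    intro i _
    unfold fPi
    split_ifs with h
    · have := hle (Z.p i)
      exact Dvd.dvd.mul_right (pow_dvd_pow _ (by omega)) _
    · exact dvd_zero _
  have h2 : X.sum (fPi ℓ k) + (n * n + 1) ^ (n + 1 - k) ≤ Y.sum (fPi ℓ k) := by
    obtain ⟨a, ha⟩ := hd X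
    obtain ⟨b, hb⟩ := hd Y
    rw [ha, hb] at h ⊢
    have := Nat.lt_of_mul_lt_mul_left h
    rw [← Nat.mul_succ]
    exact Nat.mul_le_mul_left _ this
  by_cases hkn : k ≤ n
  · have h3 : X.sum (fPi ℓ t) ≤ X.sum (fPi ℓ k) + X.m * ((n * n + 1) ^ (n - k) * n) := by
      have : X.m * ((n * n + 1) ^ (n - k) * n) =
          ∑ _i ∈ range X.m, (n * n + 1) ^ (n - k) * n := by simp
      rw [this]
      unfold IP.sum
      rw [← sum_add_distrib]
      apply sum_le_sum
      intro i _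
      unfold fPi
      split_ifs with h4 h5 h5
      · omega
      · rw [zero_add]
        have := hle (X.p i)
        have := hle (X.p (i + 1))
        exact Nat.mul_le_mul (Nat.pow_le_pow_right (by positivity) (by omega)) (by omega)
      · omega
      · omega
    have h4 := X.m_lt
    have h5 : X.m * ((n * n + 1) ^ (n - k) * n) < (n * n + 1) ^ (n + 1 - k) := by
      rw [show n + 1 - k = n - k + 1 by omega, pow_succ]
      have : X.m * n < n * n + 1 := by nlinarith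
      calc X.m * ((n * n + 1) ^ (n - k) * n) = (n * n + 1) ^ (n - k) * (X.m * n) := by ring
        _ < _ := Nat.mul_lt_mul_of_pos_left this (by positivity)
    omega
  · have h3 : X.sum (fPi ℓ t) ≤ X.sum (fPi ℓ k) := X.sum_mono fun u v => by
      have := hle u
      unfold fPi
      split_ifs <;> omega
    omega

/-- Low non-neighbours of `z`. -/
abbrev NZ (G : SimpleGraph V) (ℓ : V → ℕ) (t : ℕ) (z v : V) : Prop := ℓ v < t ∧ ¬ G.Adj z v

/-- Indicator of a low-high edge. -/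
def fLH (ℓ : V → ℕ) (t : ℕ) (u v : V) : ℕ := if (ℓ u < t ↔ ℓ v < t) then 0 else 1

/-- Indicator of an edge between low non-neighbours of `z`. -/
def fNN (G : SimpleGraph V) [DecidableRel G.Adj] (ℓ : V → ℕ) (t : ℕ) (z u v : V) : ℕ :=
  if NZ G ℓ t z u ∧ NZ G ℓ t z v then 1 else 0

/-- Indicator of such an edge from a very low vertex of the base to a vertex that is not very
low. -/
def fLB (G : SimpleGraph V) [DecidableRel G.Adj] (ℓ : V → ℕ) (c t : ℕ) (z : V) (Sb : Finset V)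
    (u v : V) : ℕ :=
  if NZ G ℓ t z u ∧ NZ G ℓ t z v ∧ ((ℓ u + ℓ z < c ∧ u ∈ Sb ∧ c ≤ ℓ v + ℓ z) ∨
    (ℓ v + ℓ z < c ∧ v ∈ Sb ∧ c ≤ ℓ u + ℓ z)) then 1 else 0

section
variable {t : ℕ} {z : V} {Sb : Finset V}

theorem fLH_symm (u v : V) : fLH ℓ t u v = fLH ℓ t v u := by
  unfold fLH
  exact if_congr Iff.comm rfl rfl

theorem fNN_symm (u v : V) : fNN G ℓ t z u v = fNN G ℓ t z v u := by
  unfold fNN
  exact if_congr and_comm rfl rfl

theorem fLB_symm (u v : V) : fLB G ℓ c t z Sb u v = fLB G ℓ c t z Sb v u := by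
  unfold fLB
  exact if_congr (by tauto) rfl rfl

theorem fLH_congr (u : V) {v w : V} (h : ℓ v < t ↔ ℓ w < t) : fLH ℓ t u v = fLH ℓ t u w := by
  unfold fLH
  exact if_congr (by rw [h]) rfl rfl

theorem fLH_same {u v : V} (h : ℓ u < t ↔ ℓ v < t) : fLH ℓ t u v = 0 := if_pos h

theorem fLH_diff {u v : V} (h : ¬ (ℓ u < t ↔ ℓ v < t)) : fLH ℓ t u v = 1 := if_neg h

theorem fNN_congr (u : V) {v w : V} (h : NZ G ℓ t z v ↔ NZ G ℓ t z w) :
    fNN G ℓ t z u v = fNN G ℓ t z u w := by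
  unfold fNN
  exact if_congr (by rw [h]) rfl rfl

theorem fNN_le (u v : V) : fNN G ℓ t z u v ≤ 1 := by
  unfold fNN
  split_ifs <;> omega

theorem fNN_zero {u : V} (v : V) (h : t ≤ ℓ u) : fNN G ℓ t z u v = 0 :=
  if_neg fun hh => by have := hh.1.1; omega

theorem fNN_one {u v : V} (hu : NZ G ℓ t z u) (hv : NZ G ℓ t z v) : fNN G ℓ t z u v = 1 :=
  if_pos ⟨hu, hv⟩

theorem fLB_congr (u : V) {v w : V} (hv : NZ G ℓ t z v) (hw : NZ G ℓ t z w)
    (hv' : c ≤ ℓ v + ℓ z) (hw' : c ≤ ℓ w + ℓ z) :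
    fLB G ℓ c t z Sb u v = fLB G ℓ c t z Sb u w := by
  unfold fLB
  have h1 : ¬ ℓ v + ℓ z < c := by omega
  have h2 : ¬ ℓ w + ℓ z < c := by omega
  exact if_congr (by tauto) rfl rfl

theorem fLB_zero {u v : V} (hu : c ≤ ℓ u + ℓ z) (hv : v ∉ Sb) : fLB G ℓ c t z Sb u v = 0 := by
  have h1 : ¬ ℓ u + ℓ z < c := by omega
  exact if_neg (by tauto)

theorem fLB_le (u v : V) : fLB G ℓ c t z Sb u v ≤ fNN G ℓ t z u v := by
  unfold fLB fNN
  split_ifs with h1 h2
  · omega
  · exact absurd ⟨h1.1, h1.2.1⟩ h2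
  · omega
  · omega

end

/-- Degree bound for a closed end in terms of its rotation ends with a higher label. -/
theorem Ctx.closed_bound (C : Ctx G ℓ c) (P : IP G) (hP : P.Closed) {t : ℕ} (ht : t ≤ ℓ P.last) :
    G.degree P.last + (if ℓ P.root ≤ ℓ P.last then 1 else 0) + P.sum (fNN G ℓ t P.last) +
      (univ.filter fun v => NZ G ℓ t P.last v ∧ v ∉ P.S).card ≤
      ℓ P.last + (P.Pv.filter fun a => ℓ P.last < ℓ (P.p (a + 1))).card := by
  have e1 := P.degree_last
  rw [P.out_empty hP, card_empty] at e1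
  have e2 := card_filter_add_card_filter_not (s := P.Pv) (fun a => ℓ P.last < ℓ (P.p (a + 1)))
  have e3 := card_filter_add_card_filter_not
    (s := P.Pv.filter fun a => ¬ ℓ P.last < ℓ (P.p (a + 1)))
    (fun a => NZ G ℓ t P.last (P.p (a + 1)))
  have h1 := P.runs (NZ G ℓ t P.last)
  have h2 : ((P.Pv.filter fun a => ¬ ℓ P.last < ℓ (P.p (a + 1))).filter
      fun a => NZ G ℓ t P.last (P.p (a + 1))).card ≤ ((range P.m).filter
      fun a => ¬ NZ G ℓ t P.last (P.p a) ∧ NZ G ℓ t P.last (P.p (a + 1))).card := by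
    apply card_le_card
    intro a ha
    simp only [mem_filter, IP.mem_Pv, mem_range] at ha ⊢
    exact ⟨ha.1.1.1, fun h => h.2 ha.1.1.2.symm, ha.2⟩
  let T := univ.filter fun v => ℓ v ≤ ℓ P.last
  have hT : T.card ≤ ℓ P.last := C.card_le fun v hv => (mem_filter.1 hv).2
  have e4 := card_filter_add_card_filter_not (s := T) (fun v => NZ G ℓ t P.last v)
  have h3 := card_two (T := T.filter fun v => NZ G ℓ t P.last v) id id
    (F1 := P.S.filter (NZ G ℓ t P.last))
    (F2 := univ.filter fun v => NZ G ℓ t P.last v ∧ v ∉ P.S) (Set.injOn_id _) (Set.injOn_id _)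
    (fun v hv => by
      have := (mem_filter.1 hv).2
      exact mem_filter.2 ⟨mem_filter.2 ⟨mem_univ _, by have := this.1; simp only [id]; omega⟩, this⟩)
    (fun v hv => by
      have := (mem_filter.1 hv).2.1
      exact mem_filter.2 ⟨mem_filter.2 ⟨mem_univ _, by have := this.1; simp only [id]; omega⟩, this⟩)
    (fun v hv w hw e => (mem_filter.1 hw).2.2 (by
      simp only [id] at e
      exact e ▸ (mem_filter.1 hv).1))
  have h4 := card_two (T := T.filter fun v => ¬ NZ G ℓ t P.last v) (fun a => P.p (a + 1)) id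
    (F1 := (P.Pv.filter fun a => ¬ ℓ P.last < ℓ (P.p (a + 1))).filter
      fun a => ¬ NZ G ℓ t P.last (P.p (a + 1)))
    (F2 := if ℓ P.root ≤ ℓ P.last ∧ ¬ NZ G ℓ t P.last P.root then {P.root} else ∅)
    (P.injOn_succ fun a ha => (P.mem_Pv.1 (mem_filter.1 (mem_filter.1 ha).1).1).1)
    (Set.injOn_id _)
    (fun a ha => by
      have h5 := mem_filter.1 ha
      have h6 := (mem_filter.1 h5.1).2
      exact mem_filter.2 ⟨mem_filter.2 ⟨mem_univ _, by omega⟩, h5.2⟩)
    (fun w hw => by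
      split_ifs at hw with h
      · rw [mem_singleton] at hw
        subst hw
        exact mem_filter.2 ⟨mem_filter.2 ⟨mem_univ _, h.1⟩, h.2⟩
      · simp at hw)
    (fun a ha w hw => by
      split_ifs at hw with h
      · rw [mem_singleton] at hw
        subst hw
        exact P.ne (P.mem_Pv.1 (mem_filter.1 (mem_filter.1 ha).1).1).1 (Nat.zero_le _) (by omega)
      · simp at hw)
  have e5 : P.sum (fNN G ℓ t P.last) =
      P.sum (fun u v => if NZ G ℓ t P.last u ∧ NZ G ℓ t P.last v then 1 else 0) := rfl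
  by_cases h5 : ℓ P.root ≤ ℓ P.last
  · by_cases h6 : NZ G ℓ t P.last P.root
    · rw [if_pos h6] at h1
      rw [if_pos h5]
      omega
    · rw [if_pos ⟨h5, h6⟩, card_singleton] at h4
      rw [if_pos h5]
      omega
  · rw [if_neg h5]
    omega

end Pool.Agent.Lib.MP_544a75_co
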