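import Pool.Agent.Lib.MP_544a75_co.Regime2

set_option autoImplicit false
set_option linter.unusedVariables false
set_option linter.unusedSectionVars false

namespace Pool.Agent.Lib.MP_544a75_co

open Finset

variable {V : Type*} [DecidableEq V] [Fintype V] {G : SimpleGraph V} [DecidableRel G.Adj]
  {ℓ : V → ℕ} {c : ℕ}

/-- Long paths with two high ends. -/
def HH (ℓ : V → ℕ) (c t : ℕ) (P : IP G) : Prop :=
  t ≤ ℓ P.root ∧ t ≤ ℓ P.last ∧ c ≤ P.m + 1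

/-- Extremal such paths. -/
def Ext1 (ℓ : V → ℕ) (c t : ℕ) (P : IP G) : Prop :=
  HH ℓ c t P ∧ ∀ Q : IP G, HH ℓ c t Q → Q.m ≤ P.m ∧
    (Q.m = P.m → P.sum (fLH ℓ t) ≤ Q.sum (fLH ℓ t) ∧
      (Q.sum (fLH ℓ t) ≤ P.sum (fLH ℓ t) → P.sum (fPi ℓ t) ≤ Q.sum (fPi ℓ t)))

theorem exists_ext1 {t : ℕ} (hex : ∃ P : IP G, HH ℓ c t P) : ∃ P : IP G, Ext1 ℓ c t P := by
  obtain ⟨P1, hP1, hmax⟩ := exists_max_nat IP.m hex (Fintype.card V)
    fun a _ => by have := a.m_lt; omega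
  obtain ⟨P2, ⟨hP2, e⟩, hmin⟩ := exists_min_nat (Q := fun Q : IP G => HH ℓ c t Q ∧ Q.m = P1.m)
    (fun Q => Q.sum (fLH ℓ t)) ⟨P1, hP1, rfl⟩
  obtain ⟨P3, ⟨hP3, e1, e2⟩, hmin'⟩ := exists_min_nat
    (Q := fun Q : IP G => HH ℓ c t Q ∧ Q.m = P1.m ∧ Q.sum (fLH ℓ t) ≤ P2.sum (fLH ℓ t))
    (fun Q => Q.sum (fPi ℓ t)) ⟨P2, hP2, e, le_rfl⟩
  exact ⟨P3, hP3, fun R hR => ⟨e1 ▸ hmax R hR, fun e' => ⟨e2.trans (hmin R ⟨hR, e'.trans e1⟩),
    fun h => hmin' R ⟨hR, e'.trans e1, h.trans e2⟩⟩⟩⟩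

namespace Ext1

variable {t : ℕ} {P : IP G}

theorem rev (hP : Ext1 ℓ c t P) : Ext1 ℓ c t P.rev := by
  refine ⟨⟨hP.1.2.1, by simpa using hP.1.1, hP.1.2.2⟩, fun Q hQ => ?_⟩
  rw [P.rev_sum fLH_symm, P.rev_sum (fPi_symm t)]
  exact hP.2 Q hQ

theorem long (hP : Ext1 ℓ c t P) {Q : IP G} (hr : t ≤ ℓ Q.root) (hm : P.m < Q.m) :
    ℓ Q.last < t := by
  by_contra h
  have := (hP.2 Q ⟨hr, by omega, by have := hP.1.2.2; omega⟩).1
  omega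

theorem out (hP : Ext1 ℓ c t P) {o : V} (ho : o ∉ P.S) (h : G.Adj P.last o) : ℓ o < t := by
  simpa using hP.long (Q := P.ext o ho h) (by simpa using hP.1.1) (by simp)

theorem rotLH (hP : Ext1 ℓ c t P) {a : ℕ} (ha : a < P.m) (h : G.Adj (P.p a) P.last)
    (hq : t ≤ ℓ (P.p (a + 1))) : (P.rot a ha h).sum (fLH ℓ t) = P.sum (fLH ℓ t) := by
  have h2 := P.rot_sum ha h (fLH_symm (ℓ := ℓ) (t := t))
  rw [fLH_congr _ (w := P.last) (by have := hP.1.2.1; omega)] at h2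
  omega

theorem rot (hP : Ext1 ℓ c t P) {a : ℕ} (ha : a < P.m) (h : G.Adj (P.p a) P.last)
    (hq : t ≤ ℓ (P.p (a + 1))) (hx : t ≤ ℓ (P.p a)) : Ext1 ℓ c t (P.rot a ha h) := by
  refine ⟨⟨by simpa using hP.1.1, by simpa using hq, hP.1.2.2⟩, fun Q hQ => ?_⟩
  have h2 := P.rot_sum ha h (fPi_symm (ℓ := ℓ) t)
  rw [fPi_zero hx hq, fPi_zero hx hP.1.2.1] at h2
  have := hP.2 Q hQ
  rw [IP.rot_m, hP.rotLH ha h hq]
  omega

theorem share (hP : Ext1 ℓ c t P) {a b : ℕ} (hab : a < b) (hb : b < P.m)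
    (ha' : G.Adj (P.p a) P.last) (hx : t ≤ ℓ (P.p b)) {o : V} (ho : o ∉ P.S)
    (h1 : G.Adj (P.p (a + 1)) o) (h2 : G.Adj (P.p (b + 1)) o) : False := by
  obtain ⟨Q, hm, -, hr, hl, -⟩ := P.share hab hb ha' ho h1 h2
  have := hP.long (Q := Q) (hr ▸ hP.1.1) (by omega)
  rw [hl] at this
  omega

theorem up (hP : Ext1 ℓ c t P) {a : ℕ} (ha : a < P.m) (h : G.Adj (P.p a) P.last)
    (hq : ℓ P.last < ℓ (P.p (a + 1))) : t ≤ ℓ (P.p a) := by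
  by_contra hx
  have hb := hP.1.2.1
  have h1 := ((hP.2 (P.rot a ha h) ⟨by simpa using hP.1.1, by simp; omega, hP.1.2.2⟩).2 rfl).2
    (hP.rotLH ha h (by omega)).le
  have h2 := P.rot_sum ha h (fPi_symm (ℓ := ℓ) t)
  have h3 := fPi_lt (ℓ := ℓ) (k := t) (x := P.p a) (by omega) (by omega) hq
  omega

theorem def_top (C : Ctx G ℓ c) (hP : Ext1 ℓ c t P)
    (htop : ∀ Q : IP G, Ext1 ℓ c t Q → Q.root = P.root → Q.S = P.S → ℓ Q.last ≤ ℓ P.last) :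
    G.degree P.last + (if ℓ P.root < ℓ P.last then 1 else 0) ≤ ℓ P.last := by
  have hb := hP.1.2.1
  have hup : ∀ a ∈ P.Pv, ¬ ℓ P.last < ℓ (P.p (a + 1)) := by
    intro a ha hq
    obtain ⟨ha, h⟩ := P.mem_Pv.1 ha
    have := htop _ (hP.rot ha h (by omega) (hP.up ha h hq)) (by simp) (by simp)
    simp only [IP.rot_last] at this
    omega
  exact P.deficient C.inj C.pos (fun a ha hq => (hup a ha hq).elim)
    (fun a ha _ _ _ hq => (hup a ha hq).elim) fun w hw h => by have := hP.out hw h; omega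

theorem half (C : Ctx G ℓ c) (hP : Ext1 ℓ c t P) (hopen : ∀ Q : IP G, Ext1 ℓ c t Q → ¬ Q.Closed)
    {Q : IP G} (hQ : Ext1 ℓ c t Q) (hS : Q.S = P.S) (hl : Q.last = P.root) :
    (P.Pv.filter fun a => ℓ (P.p (a + 1)) < t).card +
      (Q.Pv.filter fun a => ℓ (Q.p a) < t).card +
      (P.Pv.filter fun a => t ≤ ℓ (P.p (a + 1)) ∧ t ≤ ℓ (P.p a)).card + Q.Out.card ≤ t - 1 := by
  have hc := hP.1.2.2
  obtain ⟨o, ho, hoi⟩ := choose_inj
    (F := P.Pv.filter fun a => t ≤ ℓ (P.p (a + 1)) ∧ t ≤ ℓ (P.p a))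
    (R := fun a o => o ∉ P.S ∧ G.Adj (P.p (a + 1)) o ∧ ℓ o < t)
    (fun a ha => by
      obtain ⟨h1, h2, h3⟩ := mem_filter.1 ha
      obtain ⟨h4, h5⟩ := P.mem_Pv.1 h1
      have hE := hP.rot h4 h5 h2 h3
      obtain ⟨o, ho, hadj⟩ := IP.exists_out _ (hopen _ hE)
      exact ⟨o, by simpa using ho, by simpa using hadj, hE.out ho hadj⟩)
    (fun a ha b hb hab o h1 h2 => hP.share hab (P.mem_Pv.1 (mem_filter.1 hb).1).1
      (P.mem_Pv.1 (mem_filter.1 ha).1).2 (mem_filter.1 hb).2.2 h1.1 h1.2.1 h2.2.1) P.root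
  let L := univ.filter fun v => ℓ v < t
  have e1 := card_filter_add_card_filter_not (s := L) (fun v => v ∈ P.S)
  have e2 : L.card ≤ t - 1 := C.card_le fun v hv => by have := (mem_filter.1 hv).2; omega
  have h1 := card_two (F1 := P.Pv.filter fun a => ℓ (P.p (a + 1)) < t)
    (F2 := Q.Pv.filter fun a => ℓ (Q.p a) < t) (T := L.filter fun v => v ∈ P.S)
    (fun a => P.p (a + 1)) Q.p (P.injOn_succ fun a ha => (P.mem_Pv.1 (mem_filter.1 ha).1).1)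
    (Q.injOn_p fun a ha => (Q.mem_Pv.1 (mem_filter.1 ha).1).1.le)
    (fun a ha => mem_filter.2 ⟨mem_filter.2 ⟨mem_univ _, (mem_filter.1 ha).2⟩,
      P.p_mem (P.mem_Pv.1 (mem_filter.1 ha).1).1⟩)
    (fun a ha => mem_filter.2 ⟨mem_filter.2 ⟨mem_univ _, (mem_filter.1 ha).2⟩,
      hS ▸ Q.p_mem (Q.mem_Pv.1 (mem_filter.1 ha).1).1.le⟩)
    (fun a ha b hb e => by
      obtain ⟨h4, h5⟩ := P.mem_Pv.1 (mem_filter.1 ha).1
      apply P.nc1 C.nocyc C.c3 hc h4 h5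
      rw [e, ← hl]
      exact (Q.mem_Pv.1 (mem_filter.1 hb).1).2)
  have h2 := card_two (F1 := P.Pv.filter fun a => t ≤ ℓ (P.p (a + 1)) ∧ t ≤ ℓ (P.p a))
    (F2 := Q.Out) (T := L.filter fun v => ¬ v ∈ P.S) o id hoi (Set.injOn_id _)
    (fun a ha => mem_filter.2 ⟨mem_filter.2 ⟨mem_univ _, (ho a ha).2.2⟩, (ho a ha).1⟩)
    (fun v hv => mem_filter.2 ⟨mem_filter.2 ⟨mem_univ _,
      hQ.out (Q.mem_Out.1 hv).1 (Q.mem_Out.1 hv).2⟩, hS ▸ (Q.mem_Out.1 hv).1⟩)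
    (fun a ha v hv e => by
      obtain ⟨h4, h5⟩ := P.mem_Pv.1 (mem_filter.1 ha).1
      apply P.nc3 C.nocyc C.c3 hc h4 h5 (ho a ha).1 (ho a ha).2.1
      rw [e, ← hl]
      exact (Q.mem_Out.1 hv).2.symm)
  omega

end Ext1

theorem IP.degree_three (P : IP G) (t : ℕ) : G.degree P.last ≤
    (P.Pv.filter fun a => ℓ (P.p (a + 1)) < t).card + (P.Pv.filter fun a => ℓ (P.p a) < t).card +
      (P.Pv.filter fun a => t ≤ ℓ (P.p (a + 1)) ∧ t ≤ ℓ (P.p a)).card + P.Out.card := by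
  rw [P.degree_last]
  refine Nat.add_le_add_right (le_trans (card_le_card ?_) ((card_union_le _ _).trans
      (Nat.add_le_add_right (card_union_le _ _) _))) _
  intro a ha
  simp only [mem_union, mem_filter, ha, true_and]
  omega

theorem regime1A (C : Ctx G ℓ c) {t : ℕ} (h1 : c ≤ 2 * t) (h2 : 2 * t ≤ c + 1)
    (hex : ∃ P : IP G, Ext1 ℓ c t P) (hopen : ∀ Q : IP G, Ext1 ℓ c t Q → ¬ Q.Closed) : False := by
  obtain ⟨P1, hP1, htop⟩ := exists_max_nat (fun P : IP G => ℓ P.last) hex (Fintype.card V)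
    fun a _ => C.le _
  obtain ⟨P, ⟨hP, hr⟩, htop'⟩ := exists_max_nat
    (Q := fun Q : IP G => Ext1 ℓ c t Q ∧ Q.root = P1.last) (fun P : IP G => ℓ P.last)
    ⟨P1.rev, hP1.rev, rfl⟩ (Fintype.card V) fun a _ => C.le _
  have d1 := hP.def_top C fun Q hQ e _ => htop' Q ⟨hQ, e.trans hr⟩
  have d2 := hP.rev.def_top C fun Q hQ _ _ => by
    rw [IP.rev_last, hr]
    exact htop Q hQ
  have k1 := hP.half C hopen hP.rev (by simp) (by simp)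
  have k2 := hP.rev.half C hopen hP (by simp) (by simp)
  have g1 := P.degree_three (ℓ := ℓ) t
  have g2 := P.rev.degree_three (ℓ := ℓ) t
  rw [IP.rev_last, IP.rev_root] at d2
  rw [IP.rev_last] at g2
  obtain ⟨h3, h4, h5⟩ := hP.1
  have := C.c3
  exact C.bad (P.last_ne_root (by omega)) (P.nc0 C.nocyc C.c3 h5) (by omega) d1 d2 (by omega)

end Pool.Agent.Lib.MP_544a75_co
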