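import Pool.Agent.Lib.MP_544a75_co.Regime1

set_option autoImplicit false
set_option linter.unusedVariables false
set_option linter.unusedSectionVars false

namespace Pool.Agent.Lib.MP_544a75_co

open Finset

variable {V : Type*} [DecidableEq V] [Fintype V] {G : SimpleGraph V} [DecidableRel G.Adj]
  {ℓ : V → ℕ} {c : ℕ}

/-- The data of the case of a closed end. -/
structure BD (G : SimpleGraph V) [DecidableRel G.Adj] (ℓ : V → ℕ) (c : ℕ) where
  C : Ctx G ℓ c
  t : ℕ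
  h2t : c ≤ 2 * t
  P : IP G
  hP : Ext1 ℓ c t P
  cl : ∀ w, G.Adj P.root w → w ∈ P.S
  T : Finset V
  hh : V → V
  hT : ∀ o ∈ T, ℓ o < t ∧ o ∉ P.S ∧ t ≤ ℓ (hh o) ∧ hh o ∈ P.S ∧ G.Adj (hh o) o
  hinj : Set.InjOn hh T
  K : G.degree P.root + 1 + P.sum (fNN G ℓ t P.root) +
    (univ.filter fun v => NZ G ℓ t P.root v ∧ v ∉ P.S).card ≤ ℓ P.root + T.card
  hW : (P.rev.Pv.filter fun a => ℓ P.root < ℓ (P.rev.p (a + 1))).card + P.Out.card ≤
    ((univ.filter fun v => ℓ v ≤ ℓ P.root).filter fun v => ¬ v ∈ P.S).card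
  hdef : G.degree P.last + (if ℓ P.root < ℓ P.last then 1 else 0) ≤ ℓ P.last

namespace BD

variable (D : BD G ℓ c)

abbrev z : V := D.P.root

abbrev σ : ℕ := D.P.sum (fLH ℓ D.t)

abbrev ν : ℕ := D.P.sum (fNN G ℓ D.t D.z)

abbrev Ψ (X : IP G) : ℕ := X.sum (fPi ℓ (c - ℓ D.z))

abbrev N (v : V) : Prop := NZ G ℓ D.t D.z v

theorem tj : D.t ≤ ℓ D.z := D.hP.1.1

theorem cj : c ≤ ℓ D.z + D.t := by
  have := D.tj
  have := D.h2t
  omega

theorem cm : c ≤ D.P.m + 1 := D.hP.1.2.2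

theorem psi_ge {Y : IP G} (hr : Y.root = D.z) (hl : D.t ≤ ℓ Y.last) (hm : Y.m = D.P.m)
    (hs : Y.sum (fLH ℓ D.t) ≤ D.σ) : D.Ψ D.P ≤ D.Ψ Y := by
  by_contra h
  have h1 := fPi_nest D.C.le (k := c - ℓ D.z) (t := D.t) (by have := D.cj; omega) (not_le.1 h)
  have h2 := ((D.hP.2 Y ⟨hr ▸ D.tj, hl, hm ▸ D.cm⟩).2 hm).2 hs
  omega

theorem alpha {X : IP G} (hX : Cls G ℓ c D.t D.z D.P.S D.σ D.ν X)
    (h : X.m = D.P.m → D.Ψ X < D.Ψ D.P) : False := by
  refine RD.elim (G := G) (ℓ := ℓ) (c := c)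
    { C := D.C, t := D.t, z := D.z, Sb := D.P.S, σ := D.σ, ν := D.ν, T := D.T, hh := D.hh
      tj := D.tj, cj := D.cj, nz := D.cl, cb := by rw [IP.card_S]; exact D.cm
      hT := D.hT, hinj := D.hinj, K := D.K, X0 := X, hX0 := hX, FC := fun Y h3 h4 h5 => ?_ }
  rw [IP.card_S] at h5 ⊢
  have h6 := D.hP.2 Y ⟨h3 ▸ D.tj, h4, D.cm.trans h5⟩
  have h7 : Y.m = D.P.m := by omega
  exact ⟨by omega, (h6.2 h7).1, fun h8 h9 => (h (by omega)).trans_le (D.psi_ge h3 h4 h7 h9)⟩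

theorem beta {X : IP G} {o : V} (hr : X.root = D.z) (hS : X.S = insert o D.P.S) (ho : o ∉ D.P.S)
    (hl : ℓ X.last < D.t) (hb : c ≤ ℓ X.last + ℓ D.z) (hn : X.sum (fNN G ℓ D.t D.z) ≤ D.ν) :
    False := by
  have hc : (insert o D.P.S).card = D.P.m + 2 := by rw [card_insert_of_notMem ho, IP.card_S]
  refine RD.elim (G := G) (ℓ := ℓ) (c := c)
    { C := D.C, t := D.t, z := D.z, Sb := insert o D.P.S, σ := X.sum (fLH ℓ D.t) + 1, ν := D.ν
      T := D.T.erase o, hh := D.hh, tj := D.tj, cj := D.cj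
      nz := fun w hw => mem_insert_of_mem (D.cl w hw), cb := by have := D.cm; omega
      hT := fun v hv => ?_, hinj := D.hinj.mono (coe_subset.2 (erase_subset _ _)), K := ?_
      X0 := X, hX0 := ?_, FC := fun Y h3 h4 h5 => ?_ }
  · obtain ⟨h1, h2⟩ := mem_erase.1 hv
    obtain ⟨h3, h4, h5, h6, h7⟩ := D.hT v h2
    exact ⟨h3, by simp [h1, h4], h5, mem_insert_of_mem h6, h7⟩
  · have hK := D.K
    have e : (univ.filter fun v => NZ G ℓ D.t D.z v ∧ v ∉ insert o D.P.S) =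
        (univ.filter fun v => NZ G ℓ D.t D.z v ∧ v ∉ D.P.S).erase o := by
      ext v
      simp only [mem_filter, mem_univ, true_and, mem_insert, mem_erase]
      tauto
    rw [e]
    by_cases hoT : o ∈ D.T
    · have h1 : o ∈ univ.filter fun v => NZ G ℓ D.t D.z v ∧ v ∉ D.P.S :=
        mem_filter.2 ⟨mem_univ _, ⟨(D.hT o hoT).1, fun h => ho (D.cl o h)⟩, ho⟩
      have h2 := card_erase_add_one h1
      have h3 := card_erase_add_one hoT
      unfold ν z at *
      omega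
    · rw [erase_eq_of_notMem hoT]
      have := card_erase_le (s := univ.filter fun v => NZ G ℓ D.t D.z v ∧ v ∉ D.P.S) (a := o)
      unfold ν z at *
      omega
  · refine ⟨hr, hS.ge, hl, hb, le_rfl, ?_, (X.sum_mono fLB_le).trans hn⟩
    rw [← hS, IP.card_S]
    omega
  · exfalso
    have := D.hP.long (Q := Y) (h3 ▸ D.tj) (by omega)
    omega

/-- Paths from `z` on the base vertex set that are no worse than the base path. -/
structure KE (X : IP G) : Prop where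
  root : X.root = D.z
  S : X.S = D.P.S
  big : c ≤ ℓ X.last + ℓ D.z
  lh : X.sum (fLH ℓ D.t) + (if ℓ X.last < D.t then 1 else 0) ≤ D.σ
  nn : X.sum (fNN G ℓ D.t D.z) ≤ D.ν

variable {D}

theorem KE.m {X : IP G} (h : D.KE X) : X.m = D.P.m := by
  have := X.card_S
  rw [h.S, IP.card_S] at this
  omega

theorem nonadj {Y : IP G} (hr : Y.root = D.z) (hs : D.P.m ≤ Y.m) : ¬ G.Adj D.z Y.last := fun h =>
  Y.nc0 D.C.nocyc D.C.c3 (by have := D.cm; omega) (hr ▸ h.symm)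

theorem KE.psi {X : IP G} (h : D.KE X) : D.Ψ D.P ≤ D.Ψ X := by
  have h1 := h.lh
  split_ifs at h1 with hl
  · by_contra hh
    refine D.alpha ⟨h.root, h.S.ge, hl, h.big, h1, ?_, (X.sum_mono fLB_le).trans h.nn⟩
      fun _ => not_le.1 hh
    rw [← h.S, IP.card_S]
    have := h.nn
    omega
  · exact D.psi_ge h.root (by omega) h.m h1

theorem KE.out {X : IP G} (h : D.KE X) {o : V} (ho : o ∉ X.S) (hadj : G.Adj X.last o) :
    ℓ o + ℓ D.z < c := by
  by_contra hb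
  have hm := h.m
  have hr : (X.ext o ho hadj).root = D.z := by simpa using h.root
  have hl : ℓ o < D.t := by
    simpa using D.hP.long (Q := X.ext o ho hadj) (hr ▸ D.tj) (by simp; omega)
  have h1 := h.lh
  have h2 := h.nn
  split_ifs at h1 with hq
  · refine D.alpha (X := X.ext o ho hadj) ⟨hr, ?_, by simpa using hl, by simpa using hb, ?_, ?_, ?_⟩
      fun e => by simp at e; omega
    · rw [IP.ext_S, h.S]
      exact subset_insert _ _
    · rw [IP.ext_sum, fLH_same (by omega)]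
      exact h1
    · rw [IP.ext_sum, IP.ext_m, IP.card_S]
      have := fNN_le (G := G) (ℓ := ℓ) (t := D.t) (z := D.z) X.last o
      omega
    · rw [IP.ext_sum, fLB_zero h.big (h.S ▸ ho)]
      exact (X.sum_mono fLB_le).trans h.nn
  · refine D.beta (X := X.ext o ho hadj) (o := o) hr (by simp [h.S]) (h.S ▸ ho) (by simpa using hl)
      (by simpa using hb) ?_
    rw [IP.ext_sum, fNN_zero _ (by omega)]
    exact h2

theorem KE.rot {X : IP G} (h : D.KE X) {a : ℕ} (ha : a < X.m) (hadj : G.Adj (X.p a) X.last)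
    (hq : c ≤ ℓ (X.p (a + 1)) + ℓ D.z) (hx : D.t ≤ ℓ (X.p a) ∨ ℓ X.last < ℓ (X.p (a + 1))) :
    D.KE (X.rot a ha hadj) := by
  have hr : (X.rot a ha hadj).root = D.z := by simpa using h.root
  have h1 := h.lh
  have h2 := h.nn
  have h3 := X.rot_sum ha hadj (fLH_symm (ℓ := ℓ) (t := D.t))
  have h4 := X.rot_sum ha hadj (fNN_symm (G := G) (ℓ := ℓ) (t := D.t) (z := D.z))
  refine ⟨hr, by simpa using h.S, by simpa using hq, ?_, ?_⟩
  · rw [IP.rot_last]
    unfold fLH at h3 h1 ⊢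
    unfold σ fLH at h1 ⊢
    split_ifs at h3 h1 ⊢ <;> omega
  · by_cases hx' : D.t ≤ ℓ (X.p a)
    · rw [fNN_zero _ hx', fNN_zero _ hx'] at h4
      omega
    · by_cases hl : ℓ X.last < D.t
      · by_cases hq' : ℓ (X.p (a + 1)) < D.t
        · have n1 : D.N X.last := ⟨hl, nonadj h.root h.m.ge⟩
          have n2 : D.N (X.p (a + 1)) := ⟨hq', by simpa using nonadj hr h.m.ge⟩
          rw [fNN_congr _ (w := X.last) ⟨fun _ => n1, fun _ => n2⟩] at h4
          omega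
        · exfalso
          rw [fLH_diff (by omega), fLH_same (by omega)] at h3
          rw [if_pos hl] at h1
          have := ((D.hP.2 (X.rot a ha hadj) ⟨hr ▸ D.tj, by simpa using hq',
            by have := D.cm; have := h.m; simp; omega⟩).2 h.m).1
          unfold σ at h1
          omega
      · rw [fNN_symm _ X.last, fNN_zero (u := X.last) _ (by omega)] at h4
        omega

/-- Members of the class with the potential of the base path. -/
def ME (D : BD G ℓ c) (X : IP G) : Prop := D.KE X ∧ D.Ψ X ≤ D.Ψ D.P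

theorem me_base : D.ME D.P := by
  have := D.hP.1.2.1
  have := D.cj
  exact ⟨⟨rfl, rfl, by omega, by rw [if_neg (by omega)]; exact le_rfl, le_rfl⟩, le_rfl⟩

theorem ME.up {X : IP G} (h : D.ME X) {a : ℕ} (ha : a < X.m) (hadj : G.Adj (X.p a) X.last)
    (hq : ℓ X.last < ℓ (X.p (a + 1))) : c ≤ ℓ (X.p a) + ℓ D.z := by
  by_contra hx
  have hb := h.1.big
  have h1 := (h.1.rot ha hadj (by omega) (Or.inr hq)).psi
  have h2 := X.rot_sum ha hadj (fPi_symm (ℓ := ℓ) (c - ℓ D.z))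
  have h3 := fPi_lt (ℓ := ℓ) (k := c - ℓ D.z) (x := X.p a) (by omega) (by omega) hq
  have h4 := h.2
  unfold Ψ at h1 h4
  omega

theorem ME.rot {X : IP G} (h : D.ME X) {a : ℕ} (ha : a < X.m) (hadj : G.Adj (X.p a) X.last)
    (hq : c ≤ ℓ (X.p (a + 1)) + ℓ D.z) (hx : D.t ≤ ℓ (X.p a) ∨ ℓ X.last < ℓ (X.p (a + 1)))
    (hx' : c ≤ ℓ (X.p a) + ℓ D.z) : D.ME (X.rot a ha hadj) := by
  refine ⟨h.1.rot ha hadj hq hx, ?_⟩
  have hb := h.1.big
  have h2 := X.rot_sum ha hadj (fPi_symm (ℓ := ℓ) (c - ℓ D.z))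
  rw [fPi_zero (by omega) (by omega), fPi_zero (by omega) (by omega)] at h2
  have h4 := h.2
  unfold Ψ at h4 ⊢
  omega

theorem share {X : IP G} {a b : ℕ} (hab : a < b) (hb : b < X.m) (ha' : G.Adj (X.p a) X.last)
    (h : D.KE (X.rot a (by omega) ha')) (hqb : c ≤ ℓ (X.p (b + 1)) + ℓ D.z)
    (hxb : c ≤ ℓ (X.p b) + ℓ D.z) {o : V} (ho : o ∉ X.S) (h1 : G.Adj (X.p (a + 1)) o)
    (h2 : G.Adj (X.p (b + 1)) o) : False := by
  obtain ⟨Q, hm, hS, hr, hl, hs⟩ := X.share hab hb ha' ho h1 h2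
  have hr' : Q.root = D.z := hr.trans (by simpa using h.root)
  have hS' : X.S = D.P.S := by simpa using h.S
  have hm' : X.m = D.P.m := h.m
  have hqa : c ≤ ℓ (X.p (a + 1)) + ℓ D.z := by simpa using h.big
  have hlam : ℓ o + ℓ D.z < c := h.out (by simpa using ho) (by simpa using h1)
  have hoN : D.N o := ⟨by have := D.cj; omega, fun hh => ho (hS' ▸ D.cl o hh)⟩
  have hxN : D.N (X.p b) := hl ▸ ⟨D.hP.long (hr' ▸ D.tj) (by omega), nonadj hr' (by omega)⟩
  have h3 := h.lh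
  have h4 := h.nn
  have h5 := hs _ (fNN_symm (G := G) (ℓ := ℓ) (t := D.t) (z := D.z))
  rw [fNN_congr _ (w := o) ⟨fun _ => hoN, fun _ => hxN⟩] at h5
  rw [IP.rot_last] at h3
  split_ifs at h3 with hq
  · refine D.alpha (X := Q) ⟨hr', ?_, hl ▸ hxN.1, hl ▸ hxb, ?_, ?_, ?_⟩ fun e => by omega
    · rw [hS, hS']
      exact subset_insert _ _
    · have := hs _ (fLH_symm (ℓ := ℓ) (t := D.t))
      rw [fLH_congr _ (w := o) (by have := hxN.1; have := hoN.1; omega),
        fLH_same (u := X.p (a + 1)) (by have := hoN.1; omega)] at this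
      omega
    · have := fNN_le (G := G) (ℓ := ℓ) (t := D.t) (z := D.z) (X.p (a + 1)) o
      rw [IP.card_S]
      omega
    · have := hs _ (fLB_symm (G := G) (ℓ := ℓ) (c := c) (t := D.t) (z := D.z) (Sb := D.P.S))
      have ho' : o ∉ D.P.S := hS' ▸ ho
      rw [fLB_zero hqa ho', fLB_zero hqb ho'] at this
      have := (X.rot a (by omega) ha').sum_mono
        (fLB_le (G := G) (ℓ := ℓ) (c := c) (t := D.t) (z := D.z) (Sb := D.P.S))
      omega
  · rw [fNN_zero (u := X.p (a + 1)) _ (by omega)] at h5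
    exact D.beta hr' (hS' ▸ hS) (hS' ▸ ho) (hl ▸ hxN.1) (hl ▸ hxb) (by omega)

theorem z_def : G.degree D.z + 1 ≤ ℓ D.z := by
  have h1 := D.K
  have h2 : D.T.card ≤ (univ.filter fun v => NZ G ℓ D.t D.P.root v ∧ v ∉ D.P.S).card := by
    apply card_le_card
    intro o ho
    obtain ⟨h1, h2, -⟩ := D.hT o ho
    exact mem_filter.2 ⟨mem_univ _, ⟨h1, fun h => h2 (D.cl o h)⟩, h2⟩
  unfold z
  omega

theorem finish {X : IP G} (h : D.KE X)
    (h1 : G.degree X.last + (if ℓ X.root < ℓ X.last then 1 else 0) ≤ ℓ X.last)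
    (h2 : G.degree D.z + G.degree X.last < c) : False := by
  have h3 := z_def (D := D)
  have h4 := D.cm
  have h5 := D.C.c3
  have h6 := h.m
  refine D.C.bad (x := D.z) (y := X.last) (h.root ▸ (X.last_ne_root (by omega)).symm)
    (nonadj h.root h6.ge) (by have := h.big; omega) (by split_ifs <;> omega) (h.root ▸ h1) h2

theorem closed_case (h : ∃ X, D.ME X ∧ X.Closed) : False := by
  obtain ⟨X, ⟨hX, hc⟩, hmax⟩ := exists_max_nat (fun P : IP G => ℓ P.last) h (Fintype.card V)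
    fun a _ => D.C.le _
  have hb := hX.1.big
  refine finish hX.1 (X.deficient D.C.inj D.C.pos ?_ ?_ ?_) ?_
  · intro a ha hq
    obtain ⟨ha, h⟩ := X.mem_Pv.1 ha
    have hE := hX.rot ha h (by omega) (Or.inr hq) (hX.up ha h hq)
    have hnc : ¬ (X.rot a ha h).Closed := fun hh => by
      have := hmax _ ⟨hE, hh⟩
      simp only [IP.rot_last] at this
      omega
    obtain ⟨o, ho, hadj⟩ := IP.exists_out _ hnc
    have := hE.1.out ho hadj
    rw [IP.rot_S] at ho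
    rw [IP.rot_last] at hadj
    exact ⟨o, ho, hadj, fun hh => ho (hc o hh), by omega⟩
  · intro a ha b hb hab hqa hqb o ho h1 h2
    obtain ⟨ha, h⟩ := X.mem_Pv.1 ha
    obtain ⟨hb, h'⟩ := X.mem_Pv.1 hb
    exact share hab hb h (hX.1.rot ha h (by omega) (Or.inr hqa)) (by omega) (hX.up hb h' hqb)
      ho h1 h2
  · intro w hw h
    exact absurd (hc w h) hw
  · rw [← hX.1.root]
    refine X.kopylov D.C.conn D.C.nocyc D.C.c3 (hX.1.m ▸ D.cm) ?_ hc
    intro w hw
    rw [IP.rev_last, hX.1.root] at hw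
    rw [IP.rev_S, hX.1.S]
    exact D.cl w hw

theorem open_case (h : ∀ X, D.ME X → ¬ X.Closed) : False := by
  have hB := me_base (D := D)
  refine finish hB.1 D.hdef ?_
  have htj := D.tj
  have hcj := D.cj
  let PA := D.P.Pv.filter fun a => ℓ (D.P.p (a + 1)) + ℓ D.z < c
  let PB := D.P.Pv.filter fun a => ℓ (D.P.p a) ≤ ℓ D.z
  let PC := D.P.Pv.filter fun a => c ≤ ℓ (D.P.p (a + 1)) + ℓ D.z ∧ ℓ D.z < ℓ (D.P.p a)
  have e1 : D.P.Pv.card ≤ PA.card + PB.card + PC.card := by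
    refine le_trans (card_le_card ?_) ((card_union_le (PA ∪ PB) PC).trans
      (Nat.add_le_add_right (card_union_le _ _) _))
    intro a ha
    simp only [PA, PB, PC, mem_union, mem_filter, ha, true_and]
    omega
  obtain ⟨o, ho, hoi⟩ := choose_inj (F := PC) (R := fun a o => o ∉ D.P.S ∧
      G.Adj (D.P.p (a + 1)) o ∧ ℓ o + ℓ D.z < c)
    (fun a ha => by
      obtain ⟨h1, h2, h3⟩ := mem_filter.1 ha
      obtain ⟨h4, h5⟩ := D.P.mem_Pv.1 h1
      have hE := hB.rot h4 h5 h2 (Or.inl (by omega)) (by omega)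
      obtain ⟨o, ho, hadj⟩ := IP.exists_out _ (h _ hE)
      exact ⟨o, by simpa using ho, by simpa using hadj, hE.1.out ho hadj⟩)
    (fun a ha b hb hab o h1 h2 => D.hP.share hab (D.P.mem_Pv.1 (mem_filter.1 hb).1).1
      (D.P.mem_Pv.1 (mem_filter.1 ha).1).2 (by have := (mem_filter.1 hb).2.2; omega) h1.1 h1.2.1
      h2.2.1) D.P.root
  let Lam := univ.filter fun v => ℓ v + ℓ D.z < c
  have e5 : Lam.card ≤ c - ℓ D.z - 1 := D.C.card_le fun v hv => by
    have := (mem_filter.1 hv).2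
    omega
  obtain ⟨w, hw, hadj⟩ := D.P.exists_out (h D.P hB)
  have e6 := hB.1.out hw hadj
  have e7 := D.C.pos w
  have h1 := card_two (F1 := PA) (F2 := PC) (T := Lam) (fun a => D.P.p (a + 1)) o
    (D.P.injOn_succ fun a ha => (D.P.mem_Pv.1 (mem_filter.1 ha).1).1) hoi
    (fun a ha => mem_filter.2 ⟨mem_univ _, (mem_filter.1 ha).2⟩)
    (fun a ha => mem_filter.2 ⟨mem_univ _, (ho a ha).2.2⟩)
    (fun a ha b hb e => (ho b hb).1 (e ▸ D.P.p_mem (D.P.mem_Pv.1 (mem_filter.1 ha).1).1))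
  have h2 := card_two (F1 := D.P.rev.Pv.filter fun a => ¬ ℓ D.P.root < ℓ (D.P.rev.p (a + 1)))
    (F2 := PB) (T := (univ.filter fun v => ℓ v ≤ ℓ D.P.root).filter fun v => v ∈ D.P.S)
    (fun a => D.P.rev.p (a + 1)) D.P.p
    (D.P.rev.injOn_succ fun a ha => (D.P.rev.mem_Pv.1 (mem_filter.1 ha).1).1)
    (D.P.injOn_p fun a ha => (D.P.mem_Pv.1 (mem_filter.1 ha).1).1.le)
    (fun a ha => mem_filter.2 ⟨mem_filter.2 ⟨mem_univ _, not_lt.1 (mem_filter.1 ha).2⟩,
      D.P.rev_S ▸ D.P.rev.p_mem (D.P.rev.mem_Pv.1 (mem_filter.1 ha).1).1⟩)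
    (fun a ha => mem_filter.2 ⟨mem_filter.2 ⟨mem_univ _, (mem_filter.1 ha).2⟩,
      D.P.p_mem (D.P.mem_Pv.1 (mem_filter.1 ha).1).1.le⟩)
    (fun a ha b hb e => by
      obtain ⟨h4, h5⟩ := D.P.rev.mem_Pv.1 (mem_filter.1 ha).1
      apply D.P.rev.nc1 D.C.nocyc D.C.c3 D.cm h4 h5
      rw [e]
      exact (D.P.mem_Pv.1 (mem_filter.1 hb).1).2)
  have h3 := D.hW
  have h4 := card_filter_add_card_filter_not (s := univ.filter fun v => ℓ v ≤ ℓ D.P.root)
    (fun v => v ∈ D.P.S)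
  have h5 : (univ.filter fun v => ℓ v ≤ ℓ D.P.root).card ≤ ℓ D.P.root :=
    D.C.card_le fun v hv => (mem_filter.1 hv).2
  have h6 := card_filter_add_card_filter_not (s := D.P.rev.Pv)
    (fun a => ℓ D.P.root < ℓ (D.P.rev.p (a + 1)))
  have h7 := D.P.degree_last
  have h8 := D.P.rev.degree_last
  rw [D.P.rev.out_empty (fun w hw => by simpa using D.cl w (by simpa using hw)), card_empty,
    IP.rev_last] at h8
  unfold z at *
  omega

theorem elim (D : BD G ℓ c) : False := by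
  by_cases h : ∃ X, D.ME X ∧ X.Closed
  · exact closed_case h
  · exact open_case fun P hP hc => h ⟨P, hP, hc⟩

end BD

theorem regime1B (C : Ctx G ℓ c) {t : ℕ} (h1 : c ≤ 2 * t)
    (hex : ∃ P : IP G, Ext1 ℓ c t P ∧ P.Closed) : False := by
  obtain ⟨P1, ⟨hP1, hc1⟩, htop⟩ := exists_max_nat (fun P : IP G => ℓ P.last) hex (Fintype.card V)
    fun a _ => C.le _
  obtain ⟨P, ⟨hP, hr, hc⟩, htop'⟩ := exists_max_nat
    (Q := fun Q : IP G => Ext1 ℓ c t Q ∧ Q.root = P1.last ∧ ∀ w, G.Adj P1.last w → w ∈ Q.S)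
    (fun P : IP G => ℓ P.last) ⟨P1.rev, hP1.rev, rfl, fun w hw => by simpa using hc1 w hw⟩ (Fintype.card V)
    fun a _ => C.le _
  have d1 := hP.def_top C fun Q hQ e e' => htop' Q ⟨hQ, e.trans hr, e' ▸ hc⟩
  rw [← hr] at hc htop
  have hcm := hP.1.2.2
  have htj := hP.1.1
  have hR := hP.rev
  have hRc : P.rev.Closed := fun w hw => by simpa using hc w (by simpa using hw)
  have hopen : ∀ Q : IP G, Ext1 ℓ c t Q → ℓ P.root < ℓ Q.last →
      ∃ o, o ∉ Q.S ∧ G.Adj Q.last o ∧ ℓ o < t := fun Q hQ hl => by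
    obtain ⟨o, ho, hadj⟩ := Q.exists_out fun hh => by
      have := htop Q ⟨hQ, hh⟩
      omega
    exact ⟨o, ho, hadj, hQ.out ho hadj⟩
  set W0 := P.rev.Pv.filter fun a => ℓ P.root < ℓ (P.rev.p (a + 1)) with hW0
  have hW : ∀ a ∈ W0, a < P.rev.m ∧ G.Adj (P.rev.p a) P.rev.last ∧
      ℓ P.root < ℓ (P.rev.p (a + 1)) ∧ t ≤ ℓ (P.rev.p a) := fun a ha => by
    obtain ⟨h3, h4⟩ := mem_filter.1 ha
    obtain ⟨h5, h6⟩ := P.rev.mem_Pv.1 h3
    exact ⟨h5, h6, h4, hR.up h5 h6 (by simpa using h4)⟩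
  have hex0 : ∀ a ∈ W0, ∃ o, o ∉ P.S ∧ G.Adj (P.rev.p (a + 1)) o ∧ ℓ o < t := fun a ha => by
    obtain ⟨h3, h4, h5, h6⟩ := hW a ha
    simpa using hopen _ (hR.rot h3 h4 (by omega) h6) (by simpa using h5)
  have hsh : ∀ a ∈ W0, ∀ b ∈ W0, a < b → ∀ o, o ∉ P.S → G.Adj (P.rev.p (a + 1)) o →
      G.Adj (P.rev.p (b + 1)) o → False := fun a ha b hb hab o h3 h4 h5 =>
    hR.share hab (hW b hb).1 (hW a ha).2.1 (hW b hb).2.2.2 (by simpa using h3) h4 h5
  have hnc : ∀ a ∈ W0, ∀ o, o ∉ P.S → G.Adj (P.rev.p (a + 1)) o → ¬ G.Adj P.last o :=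
    fun a ha o h3 h4 h5 => P.rev.nc3 C.nocyc C.c3 hcm (hW a ha).1 (hW a ha).2.1
      (by simpa using h3) h4 h5.symm
  obtain ⟨T, hh, hT1, hT2, hT3⟩ := exists_fam
    (W := W0.image (fun a => P.rev.p (a + 1)) ∪ if ℓ P.root < ℓ P.last then {P.last} else ∅)
    (R := fun h o => o ∉ P.S ∧ G.Adj h o ∧ ℓ o < t)
    (fun h hh => by
      rcases mem_union.1 hh with hh | hh
      · obtain ⟨a, ha, rfl⟩ := mem_image.1 hh
        exact hex0 a ha
      · split_ifs at hh with h3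
        · rw [mem_singleton.1 hh]
          exact hopen P hP h3
        · simp at hh)
    (fun h hh h' hh' o h3 h4 => by
      have hl : ∀ v ∈ (if ℓ P.root < ℓ P.last then {P.last} else ∅ : Finset V), v = P.last := by
        intro v hv
        split_ifs at hv
        · exact mem_singleton.1 hv
        · simp at hv
      rcases mem_union.1 hh with hh | hh <;> rcases mem_union.1 hh' with hh' | hh'
      · obtain ⟨a, ha, rfl⟩ := mem_image.1 hh
        obtain ⟨b, hb, rfl⟩ := mem_image.1 hh'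
        rcases lt_trichotomy a b with hab | hab | hab
        · exact (hsh a ha b hb hab o h3.1 h3.2.1 h4.2.1).elim
        · rw [hab]
        · exact (hsh b hb a ha hab o h3.1 h4.2.1 h3.2.1).elim
      · obtain ⟨a, ha, rfl⟩ := mem_image.1 hh
        exact (hnc a ha o h3.1 h3.2.1 (hl _ hh' ▸ h4.2.1)).elim
      · obtain ⟨a, ha, rfl⟩ := mem_image.1 hh'
        exact (hnc a ha o h4.1 h4.2.1 (hl _ hh ▸ h3.2.1)).elim
      · rw [hl _ hh, hl _ hh'])
  have hT4 : W0.card + (if ℓ P.root < ℓ P.last then 1 else 0) ≤ T.card := by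
    rw [hT1, card_union_of_disjoint, card_image_of_injOn (P.rev.injOn_succ fun a ha => (hW a ha).1)]
    · split_ifs <;> simp
    · split_ifs
      · rw [disjoint_singleton_right]
        intro hh
        obtain ⟨a, ha, e⟩ := mem_image.1 hh
        exact P.rev.ne (i := a + 1) (k := 0) (hW a ha).1 (Nat.zero_le _) (by omega) e
      · simp
  have hK := C.closed_bound P.rev hRc (t := t) (by simpa using htj)
  rw [IP.rev_last, IP.rev_root, P.rev_sum fNN_symm, IP.rev_S, ← hW0] at hK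
  obtain ⟨o, ho, hoi⟩ := choose_inj (F := W0)
    (R := fun a o => o ∉ P.S ∧ G.Adj (P.rev.p (a + 1)) o ∧ ℓ o < t) hex0
    (fun a ha b hb hab o h3 h4 => hsh a ha b hb hab o h3.1 h3.2.1 h4.2.1) P.root
  refine BD.elim (G := G) (ℓ := ℓ) (c := c)
    { C := C, t := t, h2t := h1, P := P, hP := hP, cl := hc, T := T, hh := hh
      hT := fun o ho => ?_, hinj := hT3, K := by split_ifs at hK hT4 <;> omega
      hW := ?_, hdef := d1 }
  · obtain ⟨h3, h4, h5, h6⟩ := hT2 o ho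
    refine ⟨h6, h4, ?_, ?_, h5⟩
    · rcases mem_union.1 h3 with h3 | h3
      · obtain ⟨a, ha, e⟩ := mem_image.1 h3
        have := (hW a ha).2.2.1
        rw [← e]
        omega
      · split_ifs at h3
        · rw [mem_singleton.1 h3]
          exact hP.1.2.1
        · simp at h3
    · rcases mem_union.1 h3 with h3 | h3
      · obtain ⟨a, ha, e⟩ := mem_image.1 h3
        rw [← e, ← P.rev_S]
        exact P.rev.p_mem (hW a ha).1
      · split_ifs at h3
        · rw [mem_singleton.1 h3]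
          exact P.last_mem
        · simp at h3
  · exact card_two o id hoi (Set.injOn_id _)
      (fun a ha => mem_filter.2 ⟨mem_filter.2 ⟨mem_univ _, by have := (ho a ha).2.2; omega⟩,
        (ho a ha).1⟩)
      (fun v hv => mem_filter.2 ⟨mem_filter.2 ⟨mem_univ _, by
        have := hP.out (P.mem_Out.1 hv).1 (P.mem_Out.1 hv).2
        simp only [id]
        omega⟩, (P.mem_Out.1 hv).1⟩)
      (fun a ha v hv e => hnc a ha _ (ho a ha).1 (ho a ha).2.1
        (by rw [e]; exact (P.mem_Out.1 hv).2))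

/-- There is no edge-maximal counterexample. -/
theorem Ctx.elim (C : Ctx G ℓ c)
    (hmax : ∀ x y, x ≠ y → ¬ G.Adj x y → ∃ P : IP G, P.root = x ∧ P.last = y ∧ c ≤ P.m + 1)
    (hex : ∃ x y, x ≠ y ∧ ¬ G.Adj x y) : False := by
  have hex' : ∃ u, ∃ w, ℓ u < ℓ w ∧ ¬ G.Adj u w := by
    obtain ⟨x, y, h1, h2⟩ := hex
    rcases lt_or_gt_of_ne (fun e => h1 (C.inj e)) with h | h
    · exact ⟨x, y, h, h2⟩
    · exact ⟨y, x, h, fun h => h2 h.symm⟩
  obtain ⟨u, ⟨w, h1, h2⟩, htop⟩ := exists_max_nat ℓ hex' (Fintype.card V) fun a _ => C.le _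
  obtain ⟨P, h3, h4, h5⟩ := hmax u w (fun e => by rw [e] at h1; omega) h2
  by_cases h : 2 * ℓ u + 1 ≤ c
  · refine regime2 C (u := u) (fun x y h6 h7 h8 => ?_) h ⟨P, h3, h4 ▸ h1, h5⟩
    by_contra h9
    rcases lt_or_gt_of_ne (fun e => h6 (C.inj e)) with h | h
    · have := htop x ⟨y, h, h9⟩
      omega
    · have := htop y ⟨x, h, fun h => h9 h.symm⟩
      omega
  · have hE : ∃ P : IP G, Ext1 ℓ c ((c + 1) / 2) P :=
      exists_ext1 ⟨P, by rw [h3]; omega, by rw [h4]; omega, h5⟩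
    by_cases hc : ∃ P : IP G, Ext1 ℓ c ((c + 1) / 2) P ∧ P.Closed
    · exact regime1B C (by omega) hc
    · exact regime1A C (by omega) (by omega) hE fun Q hQ h => hc ⟨Q, hQ, h⟩

end Pool.Agent.Lib.MP_544a75_co
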