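import Pool.Agent.Lib.MP_544a75_co.Root2

set_option autoImplicit false
set_option linter.unusedVariables false
set_option linter.unusedSectionVars false

namespace Pool.Agent.Lib.MP_544a75_co

open Finset

variable {V : Type*} [DecidableEq V] [Fintype V] {G : SimpleGraph V} [DecidableRel G.Adj]
  {ℓ : V → ℕ} {c : ℕ}

theorem exists_fam {W : Finset V} {R : V → V → Prop} (h1 : ∀ h ∈ W, ∃ o, R h o)
    (h2 : ∀ h ∈ W, ∀ h' ∈ W, ∀ o, R h o → R h' o → h = h') :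
    ∃ (T : Finset V) (hh : V → V), T.card = W.card ∧ (∀ o ∈ T, hh o ∈ W ∧ R (hh o) o) ∧
      Set.InjOn hh T := by
  classical
  have h3 : ∀ h, ∃ o, h ∈ W → R h o := fun h => by
    by_cases hh : h ∈ W
    · obtain ⟨o, ho⟩ := h1 h hh
      exact ⟨o, fun _ => ho⟩
    · exact ⟨h, fun h' => absurd h' hh⟩
  choose o ho using h3
  have h4 : ∀ v, ∃ h, v ∈ W.image o → h ∈ W ∧ o h = v := fun v => by
    by_cases hv : v ∈ W.image o
    · obtain ⟨h, hh, e⟩ := mem_image.1 hv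
      exact ⟨h, fun _ => ⟨hh, e⟩⟩
    · exact ⟨v, fun h' => absurd h' hv⟩
  choose hh hhh using h4
  refine ⟨W.image o, hh, card_image_of_injOn fun a ha b hb e => ?_, fun v hv => ?_,
    fun v hv w hw e => ?_⟩
  · exact h2 a ha b hb _ (ho a ha) (e ▸ ho b hb)
  · obtain ⟨h5, h6⟩ := hhh v hv
    have := ho _ h5
    rw [h6] at this
    exact ⟨h5, this⟩
  · rw [← (hhh v hv).2, ← (hhh w hw).2, e]

/-- Long paths from `u` to a higher label. -/
def UH (ℓ : V → ℕ) (c : ℕ) (u : V) (P : IP G) : Prop :=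
  P.root = u ∧ ℓ u < ℓ P.last ∧ c ≤ P.m + 1

/-- Extremal such paths. -/
def Ext2 (ℓ : V → ℕ) (c : ℕ) (u : V) (P : IP G) : Prop :=
  UH ℓ c u P ∧ ∀ Q : IP G, UH ℓ c u Q → Q.m ≤ P.m ∧
    (Q.m = P.m → P.sum (fPi ℓ (ℓ u + 1)) ≤ Q.sum (fPi ℓ (ℓ u + 1)))

namespace Ext2

variable {u : V} {P : IP G}

theorem sub (hP : Ext2 ℓ c u P) (hK : ∀ x y, x ≠ y → ℓ u < ℓ x → ℓ u < ℓ y → G.Adj x y) {h : V}
    (hh : ℓ u < ℓ h) : h ∈ P.S := by
  by_contra ho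
  have hadj := hK P.last h (fun e => ho (e ▸ P.last_mem)) hP.1.2.1 hh
  have := (hP.2 (P.ext h ho hadj) ⟨by simpa using hP.1.1, by simpa using hh,
    by have := hP.1.2.2; simp; omega⟩).1
  simp at this

theorem rot (hP : Ext2 ℓ c u P) {a : ℕ} (ha : a < P.m) (h : G.Adj (P.p a) P.last)
    (hq : ℓ u < ℓ (P.p (a + 1))) (hx : ℓ u < ℓ (P.p a)) : Ext2 ℓ c u (P.rot a ha h) := by
  refine ⟨⟨by simpa using hP.1.1, by simpa using hq, hP.1.2.2⟩, fun Q hQ => ?_⟩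
  have h2 := P.rot_sum ha h (fPi_symm (ℓ := ℓ) (ℓ u + 1))
  rw [fPi_zero hx hq, fPi_zero hx hP.1.2.1] at h2
  have := hP.2 Q hQ
  rw [IP.rot_m]
  omega

theorem share (hP : Ext2 ℓ c u P) {a b : ℕ} (hab : a < b) (hb : b < P.m)
    (ha' : G.Adj (P.p a) P.last) (hx : ℓ u < ℓ (P.p b)) {o : V} (ho : o ∉ P.S)
    (h1 : G.Adj (P.p (a + 1)) o) (h2 : G.Adj (P.p (b + 1)) o) : False := by
  obtain ⟨Q, hm, -, hr, hl, -⟩ := P.share hab hb ha' ho h1 h2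
  have := (hP.2 Q ⟨hr.trans hP.1.1, hl ▸ hx, by have := hP.1.2.2; omega⟩).1
  omega

theorem up (hP : Ext2 ℓ c u P) {a : ℕ} (ha : a < P.m) (h : G.Adj (P.p a) P.last)
    (hq : ℓ P.last < ℓ (P.p (a + 1))) : ℓ u < ℓ (P.p a) := by
  by_contra hx
  have hb := hP.1.2.1
  have h1 := (hP.2 (P.rot a ha h) ⟨by simpa using hP.1.1, by simp; omega, hP.1.2.2⟩).2 rfl
  have h2 := P.rot_sum ha h (fPi_symm (ℓ := ℓ) (ℓ u + 1))
  have h3 := fPi_lt (ℓ := ℓ) (k := ℓ u + 1) (x := P.p a) (by omega) (by omega) hq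
  omega

theorem exists_closed (C : Ctx G ℓ c) (hP : Ext2 ℓ c u P)
    (hK : ∀ x y, x ≠ y → ℓ u < ℓ x → ℓ u < ℓ y → G.Adj x y) (h2 : 2 * ℓ u + 1 ≤ c) :
    ∃ Q : IP G, Ext2 ℓ c u Q ∧ Q.Closed ∧ c ≤ ℓ Q.last + ℓ u := by
  by_contra hne
  let F := (range P.m).filter fun a => ℓ u < ℓ (P.p a) ∧ c ≤ ℓ (P.p (a + 1)) + ℓ u
  have hF : ∀ a ∈ F, a < P.m ∧ ℓ u < ℓ (P.p a) ∧ c ≤ ℓ (P.p (a + 1)) + ℓ u ∧
      G.Adj (P.p a) P.last := fun a ha => by
    obtain ⟨h3, h4, h5⟩ := mem_filter.1 ha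
    rw [mem_range] at h3
    exact ⟨h3, h4, h5, hK _ _ (P.ne h3.le le_rfl h3.ne) h4 hP.1.2.1⟩
  obtain ⟨o, ho, hoi⟩ := choose_inj (F := F) (R := fun a o => o ∉ P.S ∧ G.Adj (P.p (a + 1)) o)
    (fun a ha => by
      obtain ⟨h3, h4, h5, h6⟩ := hF a ha
      obtain ⟨o, ho, hadj⟩ := (P.rot a h3 h6).exists_out fun hc =>
        hne ⟨_, hP.rot h3 h6 (by omega) h4, hc, by simpa using h5⟩
      exact ⟨o, by simpa using ho, by simpa using hadj⟩)
    (fun a ha b hb hab o h3 h4 =>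
      hP.share hab (hF b hb).1 (hF a ha).2.2.2 (hF b hb).2.1 h3.1 h3.2 h4.2) u
  let F' := (range P.m).filter fun a => ℓ (P.p a) ≤ ℓ u
  have h3 := card_two (F1 := F) (F2 := F') (T := univ.filter fun v => ℓ v ≤ ℓ u) o P.p hoi
    (P.injOn_p fun a ha => (mem_range.1 (mem_filter.1 ha).1).le)
    (fun a ha => mem_filter.2 ⟨mem_univ _, by
      by_contra hh
      exact (ho a ha).1 (hP.sub hK (by omega))⟩)
    (fun a ha => mem_filter.2 ⟨mem_univ _, (mem_filter.1 ha).2⟩)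
    (fun a ha b hb e => (ho a ha).1 (e ▸ P.p_mem (mem_range.1 (mem_filter.1 hb).1).le))
  have h4 : (univ.filter fun v => ℓ v ≤ ℓ u).card ≤ ℓ u :=
    C.card_le fun v hv => (mem_filter.1 hv).2
  have h5 : (univ.filter fun v => ¬ c ≤ ℓ v + ℓ u).card ≤ c - ℓ u - 1 :=
    C.card_le fun v hv => by have := (mem_filter.1 hv).2; omega
  have h6 := card_filter_add_card_filter_not (s := univ) (fun v => c ≤ ℓ v + ℓ u)
  have h7 : (univ.filter fun v => c ≤ ℓ v + ℓ u).card ≤ F.card + F'.card := by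
    refine le_trans (card_le_card ?_)
      ((card_image_le (f := fun a => P.p (a + 1))).trans (card_union_le F F'))
    intro v hv
    have h8 := (mem_filter.1 hv).2
    obtain ⟨i, hi, rfl⟩ := P.mem_S.1 (hP.sub hK (h := v) (by omega))
    have h9 : i ≠ 0 := by
      rintro rfl
      have : P.p 0 = u := hP.1.1
      rw [this] at h8
      omega
    obtain ⟨a, rfl⟩ : ∃ a, i = a + 1 := ⟨i - 1, by omega⟩
    refine mem_image.2 ⟨a, ?_, rfl⟩
    simp only [F, F', mem_union, mem_filter, mem_range]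
    omega
  rw [card_univ] at h6
  have := C.cn
  omega

end Ext2

theorem regime2 (C : Ctx G ℓ c) {u : V} (hK : ∀ x y, x ≠ y → ℓ u < ℓ x → ℓ u < ℓ y → G.Adj x y)
    (h2 : 2 * ℓ u + 1 ≤ c) (hex : ∃ P : IP G, UH ℓ c u P) : False := by
  obtain ⟨P1, hP1, hmax⟩ := exists_max_nat IP.m hex (Fintype.card V)
    fun a _ => by have := a.m_lt; omega
  obtain ⟨P2, ⟨hP2, e⟩, hmin⟩ := exists_min_nat (Q := fun Q : IP G => UH ℓ c u Q ∧ Q.m = P1.m)
    (fun Q => Q.sum (fPi ℓ (ℓ u + 1))) ⟨P1, hP1, rfl⟩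
  have hE : Ext2 ℓ c u P2 := ⟨hP2, fun R hR => ⟨e ▸ hmax R hR, fun e' => hmin R ⟨hR, e'.trans e⟩⟩⟩
  obtain ⟨P, ⟨hP, hc, hb⟩, htop⟩ := exists_max_nat (fun P : IP G => ℓ P.last)
    (hE.exists_closed C hK h2) (Fintype.card V) fun a _ => C.le _
  have hW : ∀ a ∈ P.Pv.filter fun a => ℓ P.last < ℓ (P.p (a + 1)), a < P.m ∧
      G.Adj (P.p a) P.last ∧ ℓ P.last < ℓ (P.p (a + 1)) ∧ ℓ u < ℓ (P.p a) := fun a ha => by
    obtain ⟨h3, h4⟩ := mem_filter.1 ha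
    obtain ⟨h5, h6⟩ := P.mem_Pv.1 h3
    exact ⟨h5, h6, h4, hP.up h5 h6 h4⟩
  obtain ⟨T, hh, hT1, hT2, hT3⟩ := exists_fam
    (W := (P.Pv.filter fun a => ℓ P.last < ℓ (P.p (a + 1))).image fun a => P.p (a + 1))
    (R := fun h o => o ∉ P.S ∧ G.Adj h o)
    (fun h hh => by
      obtain ⟨a, ha, rfl⟩ := mem_image.1 hh
      obtain ⟨h3, h4, h5, h6⟩ := hW a ha
      obtain ⟨o, ho, hadj⟩ := (P.rot a h3 h4).exists_out fun hc => by
        have := htop _ ⟨hP.rot h3 h4 (by omega) h6, hc, by simp; omega⟩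
        simp only [IP.rot_last] at this
        omega
      exact ⟨o, by simpa using ho, by simpa using hadj⟩)
    (fun h hh h' hh' o h3 h4 => by
      obtain ⟨a, ha, rfl⟩ := mem_image.1 hh
      obtain ⟨b, hb, rfl⟩ := mem_image.1 hh'
      rcases lt_trichotomy a b with hab | hab | hab
      · exact (hP.share hab (hW b hb).1 (hW a ha).2.1 (hW b hb).2.2.2 h3.1 h3.2 h4.2).elim
      · rw [hab]
      · exact (hP.share hab (hW a ha).1 (hW b hb).2.1 (hW a ha).2.2.2 h3.1 h4.2 h3.2).elim)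
  rw [card_image_of_injOn (P.injOn_succ fun a ha => (hW a ha).1)] at hT1
  have hu := hP.1.2.1
  have hK1 := C.closed_bound P hc (t := ℓ u + 1) hu
  rw [hP.1.1, if_pos hu.le] at hK1
  have hcm := hP.1.2.2
  refine RD.elim (G := G) (ℓ := ℓ) (c := c)
    { C := C, t := ℓ u + 1, z := P.last, Sb := P.S, σ := P.sum (fLH ℓ (ℓ u + 1)) + 1
      ν := P.sum (fNN G ℓ (ℓ u + 1) P.last), T := T, hh := hh, tj := hu, cj := by omega
      nz := hc, cb := by rwa [P.card_S], hT := fun o ho => ?_, hinj := hT3, K := by omega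
      X0 := P.rev, hX0 := ?_, FC := fun Y h3 h4 h5 => ?_ }
  · obtain ⟨h3, h4, h5⟩ := hT2 o ho
    obtain ⟨a, ha, e⟩ := mem_image.1 h3
    obtain ⟨h6, h7, h8, h9⟩ := hW a ha
    refine ⟨?_, h4, by rw [← e]; omega, e ▸ P.p_mem h6, h5⟩
    by_contra hl
    exact h4 (hP.sub hK (by omega))
  · refine ⟨rfl, by simp, by simp [hP.1.1], by rw [IP.rev_last, hP.1.1]; omega, ?_, ?_, ?_⟩
    · rw [P.rev_sum fLH_symm]
    · rw [P.rev_sum fNN_symm, P.card_S, IP.rev_m]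
    · rw [P.rev_sum fLB_symm]
      exact P.sum_mono fLB_le
  · exfalso
    rw [P.card_S] at h5
    have := C.c3
    refine Y.nc0 C.nocyc C.c3 (by omega) (hK _ _ (Y.last_ne_root (by omega)) h4 (h3 ▸ hu))

end Pool.Agent.Lib.MP_544a75_co
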