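import Pool.Agent.Lib.MP_544a75_co.Pot

set_option autoImplicit false
set_option linter.unusedVariables false
set_option linter.unusedSectionVars false

namespace Pool.Agent.Lib.MP_544a75_co

open Finset

variable {V : Type*} [DecidableEq V] [Fintype V] {G : SimpleGraph V} [DecidableRel G.Adj]
  {ℓ : V → ℕ} {c : ℕ}

/-- The class of paths of the root process. -/
structure Cls (G : SimpleGraph V) [DecidableRel G.Adj] (ℓ : V → ℕ) (c t : ℕ) (z : V)
    (Sb : Finset V) (σ ν : ℕ) (X : IP G) : Prop where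
  root : X.root = z
  sub : Sb ⊆ X.S
  low : ℓ X.last < t
  big : c ≤ ℓ X.last + ℓ z
  lh : X.sum (fLH ℓ t) + 1 ≤ σ
  nn : X.sum (fNN G ℓ t z) + Sb.card ≤ ν + (X.m + 1)
  lb : X.sum (fLB G ℓ c t z Sb) ≤ ν

/-- The data of the root process. -/
structure RD (G : SimpleGraph V) [DecidableRel G.Adj] (ℓ : V → ℕ) (c : ℕ) where
  C : Ctx G ℓ c
  t : ℕ
  z : V
  Sb : Finset V
  σ : ℕ
  ν : ℕ
  T : Finset V
  hh : V → V
  tj : t ≤ ℓ z
  cj : c ≤ ℓ z + t
  nz : ∀ w, G.Adj z w → w ∈ Sb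
  cb : c ≤ Sb.card
  hT : ∀ o ∈ T, ℓ o < t ∧ o ∉ Sb ∧ t ≤ ℓ (hh o) ∧ hh o ∈ Sb ∧ G.Adj (hh o) o
  hinj : Set.InjOn hh T
  K : G.degree z + 1 + ν + (univ.filter fun v => NZ G ℓ t z v ∧ v ∉ Sb).card ≤ ℓ z + T.card
  X0 : IP G
  hX0 : Cls G ℓ c t z Sb σ ν X0
  FC : ∀ Y : IP G, Y.root = z → t ≤ ℓ Y.last → Sb.card ≤ Y.m + 1 →
    Y.m + 1 = Sb.card ∧ σ ≤ Y.sum (fLH ℓ t) ∧ (X0.m + 1 = Sb.card → Y.sum (fLH ℓ t) ≤ σ →
      X0.sum (fPi ℓ (c - ℓ z)) < Y.sum (fPi ℓ (c - ℓ z)))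

namespace RD

variable (D : RD G ℓ c)

abbrev Cl (X : IP G) : Prop := Cls G ℓ c D.t D.z D.Sb D.σ D.ν X

abbrev N (v : V) : Prop := NZ G ℓ D.t D.z v

abbrev Ψ (X : IP G) : ℕ := X.sum (fPi ℓ (c - ℓ D.z))

/-- Extremal members of the class. -/
def Ext (P : IP G) : Prop := D.Cl P ∧ ∀ Q, D.Cl Q → Q.m ≤ P.m ∧ (Q.m = P.m → D.Ψ P ≤ D.Ψ Q)

theorem exists_ext : ∃ P, D.Ext P := by
  obtain ⟨P, hP, hmax⟩ := exists_max_nat (Q := D.Cl) IP.m ⟨_, D.hX0⟩ (Fintype.card V)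
    fun a _ => by have := a.m_lt; omega
  obtain ⟨Q, ⟨hQ, e⟩, hmin⟩ := exists_min_nat (Q := fun Q => D.Cl Q ∧ Q.m = P.m) D.Ψ ⟨P, hP, rfl⟩
  exact ⟨Q, hQ, fun R hR => ⟨e ▸ hmax R hR, fun e' => hmin R ⟨hR, e'.trans e⟩⟩⟩

variable {D}

theorem size {P : IP G} (hP : D.Cl P) : D.Sb.card ≤ P.m + 1 := by
  rw [← P.card_S]
  exact card_le_card hP.sub

theorem nonadj {Y : IP G} (hr : Y.root = D.z) (hs : D.Sb.card ≤ Y.m + 1) :
    ¬ G.Adj D.z Y.last := fun h =>
  Y.nc0 D.C.nocyc D.C.c3 (D.cb.trans hs) (hr ▸ h.symm)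

theorem longLow {Y : IP G} (hr : Y.root = D.z) (hs : D.Sb.card ≤ Y.m) : D.N Y.last := by
  refine ⟨?_, nonadj hr (by omega)⟩
  by_contra h
  have := (D.FC Y hr (by omega) (by omega)).1
  omega

theorem f3 {Y : IP G} (hr : Y.root = D.z) (hl : Y.sum (fLH ℓ D.t) + 1 ≤ D.σ) {i : ℕ}
    (hi : i ≤ Y.m) (hs : D.Sb.card ≤ i + 1) : D.N (Y.p i) := by
  refine ⟨?_, nonadj (Y := Y.trunc i hi) hr hs⟩
  by_contra h
  have h1 := (D.FC (Y.trunc i hi) hr (by change D.t ≤ ℓ (Y.p i); omega) hs).2.1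
  have := Y.trunc_sum_le hi (fLH ℓ D.t)
  omega

theorem lastN {P : IP G} (hP : D.Cl P) : D.N P.last := ⟨hP.low, nonadj hP.root (size hP)⟩

theorem outN {P : IP G} (hP : D.Cl P) {o : V} (ho : o ∉ P.S) (hl : ℓ o < D.t) : D.N o :=
  ⟨hl, fun h => ho (hP.sub (D.nz o h))⟩

theorem f0 {P : IP G} (hP : D.Ext P) {o : V} (ho : o ∉ P.S) (h : G.Adj P.last o) :
    ℓ o + ℓ D.z < c := by
  by_contra hb
  have hN : D.N o := by
    simpa using longLow (D := D) (Y := P.ext o ho h) (by simpa using hP.1.root)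
      (by simpa using size hP.1)
  have : D.Cl (P.ext o ho h) := by
    refine ⟨by simpa using hP.1.root, ?_, by simpa using hN.1, by simpa using hb, ?_, ?_, ?_⟩
    · rw [IP.ext_S]
      exact hP.1.sub.trans (subset_insert _ _)
    · rw [IP.ext_sum, fLH_same (by have := hP.1.low; have := hN.1; omega)]
      exact hP.1.lh
    · rw [IP.ext_sum, IP.ext_m]
      have := hP.1.nn
      have := fNN_le (G := G) (ℓ := ℓ) (t := D.t) (z := D.z) P.last o
      omega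
    · rw [IP.ext_sum, fLB_zero hP.1.big fun hh => ho (hP.1.sub hh)]
      exact hP.1.lb
  have := (hP.2 _ this).1
  simp at this

theorem f1 {P : IP G} (hP : D.Ext P) {a : ℕ} (ha : a < P.m) (h : G.Adj (P.p a) P.last) :
    D.N (P.p (a + 1)) := by
  have hr : (P.rot a ha h).root = D.z := by simpa using hP.1.root
  refine ⟨?_, by simpa using nonadj hr (size (P := P) hP.1)⟩
  by_contra hq
  obtain ⟨h1, h2, h3⟩ := D.FC _ hr (by simpa using hq) (size (P := P) hP.1)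
  have h4 := P.rot_sum ha h (fLH_symm (ℓ := ℓ) (t := D.t))
  have h5 := hP.1.lh
  have h6 := hP.1.low
  by_cases hx : ℓ (P.p a) < D.t
  · rw [fLH_diff (by omega), fLH_same (by omega)] at h4
    omega
  · rw [fLH_same (by omega), fLH_diff (by omega)] at h4
    have h7 := hP.2 _ D.hX0
    have h8 := size D.hX0
    rw [IP.rot_m] at h1
    have h9 := h3 (by omega) (by omega)
    have h10 := P.rot_sum ha h (fPi_symm (ℓ := ℓ) (c - ℓ D.z))
    have := D.cj
    have := hP.1.big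
    rw [fPi_zero (by omega) (by omega), fPi_zero (by omega) (by omega)] at h10
    have := h7.2 (by omega)
    unfold Ψ at this
    omega

theorem rotLH {P : IP G} (hP : D.Ext P) {a : ℕ} (ha : a < P.m) (h : G.Adj (P.p a) P.last) :
    (P.rot a ha h).sum (fLH ℓ D.t) + 1 ≤ D.σ := by
  have h4 := P.rot_sum ha h (fLH_symm (ℓ := ℓ) (t := D.t))
  rw [fLH_congr _ (w := P.last) (by have := (f1 hP ha h).1; have := hP.1.low; omega)] at h4
  have := hP.1.lh
  omega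

theorem rotCl {P : IP G} (hP : D.Ext P) {a : ℕ} (ha : a < P.m) (h : G.Adj (P.p a) P.last)
    (hq : c ≤ ℓ (P.p (a + 1)) + ℓ D.z) : D.Cl (P.rot a ha h) := by
  have hN := f1 hP ha h
  have hN' := lastN hP.1
  refine ⟨by simpa using hP.1.root, by simpa using hP.1.sub, by simpa using hN.1,
    by simpa using hq, rotLH hP ha h, ?_, ?_⟩
  · have h4 := P.rot_sum ha h (fNN_symm (G := G) (ℓ := ℓ) (t := D.t) (z := D.z))
    rw [fNN_congr _ (w := P.last) ⟨fun _ => hN', fun _ => hN⟩] at h4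
    have := hP.1.nn
    rw [IP.rot_m]
    omega
  · have h4 := P.rot_sum ha h
      (fLB_symm (G := G) (ℓ := ℓ) (c := c) (t := D.t) (z := D.z) (Sb := D.Sb))
    rw [fLB_congr _ hN hN' hq hP.1.big] at h4
    have := hP.1.lb
    omega

theorem upB {P : IP G} (hP : D.Ext P) {a : ℕ} (ha : a < P.m) (h : G.Adj (P.p a) P.last)
    (hq : ℓ P.last < ℓ (P.p (a + 1))) : c ≤ ℓ (P.p a) + ℓ D.z := by
  by_contra hx
  have hb := hP.1.big
  have h1 := (hP.2 _ (rotCl hP ha h (by omega))).2 rfl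
  have h2 := P.rot_sum ha h (fPi_symm (ℓ := ℓ) (c - ℓ D.z))
  have h3 := fPi_lt (ℓ := ℓ) (k := c - ℓ D.z) (x := P.p a) (by omega) (by omega) hq
  unfold Ψ at h1
  omega

theorem rotExt {P : IP G} (hP : D.Ext P) {a : ℕ} (ha : a < P.m) (h : G.Adj (P.p a) P.last)
    (hq : c ≤ ℓ (P.p (a + 1)) + ℓ D.z) (hx : c ≤ ℓ (P.p a) + ℓ D.z) : D.Ext (P.rot a ha h) := by
  refine ⟨rotCl hP ha h hq, fun Q hQ => ?_⟩
  have hb := hP.1.big
  have h2 := P.rot_sum ha h (fPi_symm (ℓ := ℓ) (c - ℓ D.z))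
  rw [fPi_zero (by omega) (by omega), fPi_zero (by omega) (by omega)] at h2
  have := hP.2 Q hQ
  unfold Ψ at this ⊢
  rw [IP.rot_m]
  omega

theorem f2 {P : IP G} (hP : D.Ext P) {a b : ℕ} (hab : a < b) (hb : b < P.m)
    (ha' : G.Adj (P.p a) P.last) (hb' : G.Adj (P.p b) P.last)
    (hqa : c ≤ ℓ (P.p (a + 1)) + ℓ D.z) (hqb : c ≤ ℓ (P.p (b + 1)) + ℓ D.z)
    (hxa : c ≤ ℓ (P.p a) + ℓ D.z) (hxb : c ≤ ℓ (P.p b) + ℓ D.z) {o : V} (ho : o ∉ P.S)
    (h1 : G.Adj (P.p (a + 1)) o) (h2 : G.Adj (P.p (b + 1)) o) : False := by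
  obtain ⟨Q, hm, hS, hr, hl, hs⟩ := P.share hab hb ha' ho h1 h2
  have hE := rotExt hP (by omega) ha' hqa hxa
  have hlam : ℓ o + ℓ D.z < c := f0 hE (by simpa using ho) (by simpa using h1)
  have hoN : D.N o := outN hP.1 ho (by have := D.cj; omega)
  have hxN : D.N (P.p b) := hl ▸ longLow (hr.trans hP.1.root) (hm ▸ size hP.1)
  have hq1 := f1 hP (by omega) ha'
  have hob : o ∉ D.Sb := fun hh => ho (hP.1.sub hh)
  have : D.Cl Q := by
    refine ⟨hr.trans hP.1.root, ?_, hl ▸ hxN.1, hl ▸ hxb, ?_, ?_, ?_⟩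
    · rw [hS]
      exact hP.1.sub.trans (subset_insert _ _)
    · have := hs _ (fLH_symm (ℓ := ℓ) (t := D.t))
      rw [fLH_congr _ (w := o) (by have := hxN.1; have := hoN.1; omega),
        fLH_same (u := P.p (a + 1)) (by have := hq1.1; have := hoN.1; omega)] at this
      have := hE.1.lh
      omega
    · have := hs _ (fNN_symm (G := G) (ℓ := ℓ) (t := D.t) (z := D.z))
      rw [fNN_congr _ (w := o) ⟨fun _ => hoN, fun _ => hxN⟩] at this
      have := hE.1.nn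
      have := fNN_le (G := G) (ℓ := ℓ) (t := D.t) (z := D.z) (P.p (a + 1)) o
      rw [IP.rot_m] at *
      omega
    · have := hs _ (fLB_symm (G := G) (ℓ := ℓ) (c := c) (t := D.t) (z := D.z) (Sb := D.Sb))
      rw [fLB_zero hqa hob, fLB_zero hqb hob] at this
      have := hE.1.lb
      omega
  have := (hP.2 _ this).1
  omega

theorem T_le : D.T.card ≤ (univ.filter fun v => D.N v ∧ v ∉ D.Sb).card := by
  apply card_le_card
  intro o ho
  obtain ⟨h1, h2, -⟩ := D.hT o ho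
  exact mem_filter.2 ⟨mem_univ _, ⟨h1, fun h => h2 (D.nz o h)⟩, h2⟩

theorem z_def : G.degree D.z + 1 + D.ν ≤ ℓ D.z := by
  have := D.K
  have := T_le (D := D)
  unfold N at this
  omega

theorem finish {P : IP G} (hP : D.Cl P)
    (h1 : G.degree P.last + (if ℓ P.root < ℓ P.last then 1 else 0) ≤ ℓ P.last)
    (h2 : G.degree D.z + G.degree P.last < c) : False := by
  have h3 := z_def (D := D)
  have h4 := hP.low
  have h5 := D.tj
  refine D.C.bad (x := D.z) (y := P.last) (fun e => by rw [← e] at h4; omega) (lastN hP).2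
    (by have := hP.big; omega) (by split_ifs <;> omega) (hP.root ▸ h1) h2

theorem closed_case (h : ∃ P, D.Ext P ∧ P.Closed) : False := by
  obtain ⟨P, ⟨hP, hc⟩, hmax⟩ := exists_max_nat (fun P : IP G => ℓ P.last) h (Fintype.card V)
    fun a _ => D.C.le _
  have hb := hP.1.big
  refine finish hP.1 (P.deficient D.C.inj D.C.pos ?_ ?_ ?_) ?_
  · intro a ha hq
    obtain ⟨ha, h⟩ := P.mem_Pv.1 ha
    have hE := rotExt hP ha h (by omega) (upB hP ha h hq)
    have hnc : ¬ (P.rot a ha h).Closed := fun hh => by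
      have := hmax _ ⟨hE, hh⟩
      simp only [IP.rot_last] at this
      omega
    obtain ⟨o, ho, hadj⟩ := IP.exists_out _ hnc
    have := f0 hE ho hadj
    rw [IP.rot_S] at ho
    rw [IP.rot_last] at hadj
    exact ⟨o, ho, hadj, fun hh => ho (hc o hh), by omega⟩
  · intro a ha b hb hab hqa hqb o ho h1 h2
    obtain ⟨ha, h⟩ := P.mem_Pv.1 ha
    obtain ⟨hb, h'⟩ := P.mem_Pv.1 hb
    exact f2 hP hab hb h h' (by omega) (by omega) (upB hP ha h hqa) (upB hP hb h' hqb) ho h1 h2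
  · intro w hw h
    exact absurd (hc w h) hw
  · rw [← hP.1.root]
    refine P.kopylov D.C.conn D.C.nocyc D.C.c3 (D.cb.trans (size hP.1)) ?_ hc
    intro w hw
    rw [IP.rev_last, hP.1.root] at hw
    rw [IP.rev_S]
    exact hP.1.sub (D.nz w hw)

/-- A path whose tail runs forward along `P` from index `i`. -/
def Tail (D : RD G ℓ c) (P : IP G) (i φ s : ℕ) : Prop :=
  i ≤ φ ∧ ∃ Y : IP G, Y.root = D.z ∧ Y.sum (fLH ℓ D.t) + 1 ≤ D.σ ∧ D.Sb.card + s ≤ Y.m + 1 ∧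
    φ ≤ Y.m ∧ ∀ r, i + r ≤ φ → Y.p (Y.m - r) = P.p (i + r)

theorem Tail.mem {P : IP G} {i φ s : ℕ} (h : D.Tail P i φ s) {r : ℕ} (hr : r ≤ s)
    (hr' : i + r ≤ φ) : D.N (P.p (i + r)) := by
  obtain ⟨h1, Y, h2, h3, h4, h5, h6⟩ := h
  rw [← h6 r hr']
  exact f3 h2 h3 (by omega) (by omega)

theorem Tail.window {P : IP G} {i φ s : ℕ} (h : D.Tail P i φ s) (hφ : ¬ D.N (P.p φ)) :
    i + s < φ ∧ ∀ k, i ≤ k → k ≤ i + s → D.N (P.p k) := by
  have h1 : i + s < φ := by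
    by_contra hh
    have := h.mem (r := φ - i) (by omega) (by have := h.1; omega)
    rw [show i + (φ - i) = φ by have := h.1; omega] at this
    exact hφ this
  refine ⟨h1, fun k h2 h3 => ?_⟩
  have := h.mem (r := k - i) (by omega) (by omega)
  rwa [show i + (k - i) = k by omega] at this

theorem tail_rot {P : IP G} (hP : D.Ext P) {a φ : ℕ} (ha : a < P.m) (h : G.Adj (P.p a) P.last)
    (h1 : a + 1 ≤ φ) (h2 : φ ≤ P.m) : D.Tail P (a + 1) φ (P.m + 1 - D.Sb.card) := by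
  have := size hP.1
  refine ⟨h1, P.rot a ha h, by simpa using hP.1.root, rotLH hP ha h, by simp; omega, h2, ?_⟩
  intro r hr
  rw [IP.rot_m, P.rot_p_gt ha h (by omega)]
  congr 1
  omega

theorem tail_extrot {P : IP G} (hP : D.Ext P) {o : V} (ho : o ∉ P.S) (h : G.Adj P.last o)
    {i φ : ℕ} (h1 : i + 1 ≤ φ) (h2 : φ ≤ P.m) (hi : G.Adj (P.p i) o) :
    D.Tail P (i + 1) φ (P.m + 1 - D.Sb.card) := by
  have hs := size hP.1
  have hlam := f0 hP ho h
  have hcj := D.cj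
  have hi1 : i < (P.ext o ho h).m := by simp; omega
  have hi2 : G.Adj ((P.ext o ho h).p i) (P.ext o ho h).last := by
    rw [P.ext_p ho h (by omega), IP.ext_last]; exact hi
  have hr : ((P.ext o ho h).rot i hi1 hi2).root = D.z := by simpa using hP.1.root
  refine ⟨h1, (P.ext o ho h).rot i hi1 hi2, hr, ?_, by simp; omega, by simp; omega, ?_⟩
  · have h3 := (longLow hr (by simpa using hs)).1
    have h4 := (P.ext o ho h).rot_sum hi1 hi2 (fLH_symm (ℓ := ℓ) (t := D.t))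
    rw [IP.rot_last] at h3
    rw [fLH_congr _ (w := o) (by omega), IP.ext_last, IP.ext_sum,
      fLH_same (u := P.last) (by have := hP.1.low; omega)] at h4
    have := hP.1.lh
    omega
  · intro r hr
    rw [IP.rot_m, IP.rot_p_gt _ hi1 hi2 (by simp; omega), IP.ext_m, P.ext_p ho h (by omega)]
    congr 1
    omega

theorem tail_rotrot {P : IP G} (hP : D.Ext P) (hs : D.Sb.card ≤ P.m) {a : ℕ} (ha : a < P.m)
    (h : G.Adj (P.p a) P.last) {i φ : ℕ} (h1 : i + 1 ≤ φ) (h2 : φ ≤ a)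
    (hi : G.Adj (P.p i) (P.p (a + 1))) : D.Tail P (i + 1) φ (P.m + 1 - D.Sb.card) := by
  have hi1 : i < (P.rot a ha h).m := by simp; omega
  have hi2 : G.Adj ((P.rot a ha h).p i) (P.rot a ha h).last := by
    rw [P.rot_p_le ha h (by omega), IP.rot_last]; exact hi
  have hr : ((P.rot a ha h).rot i hi1 hi2).root = D.z := by simpa using hP.1.root
  refine ⟨h1, (P.rot a ha h).rot i hi1 hi2, hr, ?_, by simp; omega, by simp; omega, ?_⟩
  · have h3 := (longLow hr (by simpa using hs)).1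
    have h4 := (P.rot a ha h).rot_sum hi1 hi2 (fLH_symm (ℓ := ℓ) (t := D.t))
    rw [IP.rot_last] at h3
    rw [fLH_congr _ (w := P.p (a + 1)) (by have := (f1 hP ha h).1; omega), IP.rot_last] at h4
    have := rotLH hP ha h
    omega
  · intro r hr
    rw [IP.rot_m, IP.rot_p_gt _ hi1 hi2 (by simp; omega), IP.rot_m, P.rot_p_le ha h (by omega)]
    congr 1
    omega

end RD

end Pool.Agent.Lib.MP_544a75_co
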