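import Pool.Agent.Lib.MP_544a75_co.Root

set_option autoImplicit false
set_option linter.unusedVariables false
set_option linter.unusedSectionVars false

namespace Pool.Agent.Lib.MP_544a75_co

open Finset

variable {V : Type*} [DecidableEq V] [Fintype V] {G : SimpleGraph V} [DecidableRel G.Adj]
  {ℓ : V → ℕ} {c : ℕ}

namespace RD

variable {D : RD G ℓ c}

theorem exists_window {P : IP G} (hP : D.Ext P) {SH Dd : Finset ℕ} {o : ℕ → V}
    (hSH : ∀ a ∈ SH, a < P.m ∧ G.Adj (P.p a) P.last ∧ c ≤ ℓ (P.p (a + 1)) + ℓ D.z ∧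
      o a ∉ P.S ∧ G.Adj (P.p (a + 1)) (o a) ∧ G.Adj P.last (o a))
    (hD : ∀ a ∈ Dd, a < P.m ∧ G.Adj (P.p a) P.last ∧ c ≤ ℓ (P.p (a + 1)) + ℓ D.z ∧
      ℓ (P.p a) + ℓ D.z < c ∧ 1 ≤ a ∧ G.Adj (P.p (a - 1)) P.last)
    (hZ : 1 < (D.T ∩ ((Dd.filter fun a => P.p a ∉ D.Sb).image P.p ∪ SH.image o)).card) :
    ∃ i, i + (P.m + 1 - D.Sb.card) < P.m ∧
      (∀ k, i ≤ k → k ≤ i + (P.m + 1 - D.Sb.card) → D.N (P.p k)) ∧
      ∀ k, i ≤ k → k < i + (P.m + 1 - D.Sb.card) → k ∉ Dd ∧ ∀ a ∈ SH, k ≠ a + 1 := by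
  obtain ⟨φ, ⟨hφm, hφ⟩, hφmax⟩ := exists_max_nat (Q := fun k => k ≤ P.m ∧ ¬ D.N (P.p k)) id
    ⟨0, Nat.zero_le _, fun h => by
      have h1 := h.1
      have h2 := D.tj
      have h3 : P.p 0 = D.z := hP.1.root
      rw [h3] at h1
      omega⟩ P.m fun a ha => ha.1
  by_cases hex : ∃ a, a < P.m ∧ G.Adj (P.p a) P.last ∧ a + 1 < φ
  · obtain ⟨a, ⟨ha1, ha2, ha3⟩, hmax⟩ := exists_max_nat id hex P.m fun a ha => ha.1.le
    simp only [id] at hmax
    by_cases haS : a ∈ SH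
    · obtain ⟨-, -, -, h1, h2, h3⟩ := hSH a haS
      obtain ⟨w1, w2⟩ := (tail_extrot hP h1 h3 (i := a + 1) (φ := φ) (by omega) hφm h2).window hφ
      refine ⟨a + 1 + 1, by omega, w2, fun k h4 h5 => ⟨fun hk => ?_, fun b hb e => ?_⟩⟩
      · have := hmax k ⟨(hD k hk).1, (hD k hk).2.1, by omega⟩
        omega
      · have := hmax b ⟨(hSH b hb).1, (hSH b hb).2.1, by omega⟩
        omega
    · obtain ⟨w1, w2⟩ := (tail_rot hP ha1 ha2 (φ := φ) (by omega) hφm).window hφ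
      refine ⟨a + 1, by omega, w2, fun k h4 h5 => ⟨fun hk => ?_, fun b hb e => ?_⟩⟩
      · have := hmax k ⟨(hD k hk).1, (hD k hk).2.1, by omega⟩
        omega
      · have := hmax b ⟨(hSH b hb).1, (hSH b hb).2.1, by omega⟩
        exact haS (by rwa [show a = b by omega])
  · have hno : ∀ a, a < P.m → G.Adj (P.p a) P.last → φ ≤ a + 1 := by
      intro a h1 h2
      by_contra hh
      exact hex ⟨a, h1, h2, by omega⟩
    obtain ⟨o', ho', hne⟩ : ∃ o' ∈ D.T ∩ ((Dd.filter fun a => P.p a ∉ D.Sb).image P.p ∪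
        SH.image o), D.hh o' ≠ P.p φ := by
      obtain ⟨o1, h1, o2, h2, hne⟩ := one_lt_card.1 hZ
      by_cases e : D.hh o1 = P.p φ
      · refine ⟨o2, h2, fun e' => hne ?_⟩
        exact D.hinj (mem_inter.1 h1).1 (mem_inter.1 h2).1 (e.trans e'.symm)
      · exact ⟨o1, h1, e⟩
    obtain ⟨hT, hM⟩ := mem_inter.1 ho'
    obtain ⟨-, -, t1, t2, t3⟩ := D.hT o' hT
    obtain ⟨i, hi, e⟩ := P.mem_S.1 (hP.1.sub t2)
    rw [← e] at t1 t3 hne
    have hi1 : i ≤ φ := hφmax i ⟨hi, fun h => by have := h.1; omega⟩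
    have hi2 : i ≠ φ := fun e => hne (e ▸ rfl)
    have ht : D.Tail P (i + 1) φ (P.m + 1 - D.Sb.card) := by
      rcases mem_union.1 hM with hM | hM
      · obtain ⟨b, hb, rfl⟩ := mem_image.1 hM
        obtain ⟨hb, hb'⟩ := mem_filter.1 hb
        obtain ⟨h1, -, -, -, h2, h3⟩ := hD b hb
        obtain ⟨a, rfl⟩ : ∃ a, b = a + 1 := ⟨b - 1, by omega⟩
        rw [Nat.add_sub_cancel] at h3
        have h4 := hno a (by omega) h3
        have h5 : φ ≠ a + 1 := fun e => hφ (e ▸ f1 hP (by omega) h3)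
        have h6 : D.Sb.card < P.S.card :=
          card_lt_card ⟨hP.1.sub, fun hh => hb' (hh (P.p_mem h1.le))⟩
        rw [P.card_S] at h6
        exact tail_rotrot hP (by omega) (by omega) h3 (by omega) (by omega) t3
      · obtain ⟨a, ha, rfl⟩ := mem_image.1 hM
        obtain ⟨-, -, -, h1, h2, h3⟩ := hSH a ha
        exact tail_extrot hP h1 h3 (by omega) hφm t3
    obtain ⟨w1, w2⟩ := ht.window hφ
    refine ⟨i + 1, by omega, w2, fun k h4 h5 => ⟨fun hk => ?_, fun b hb e => ?_⟩⟩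
    · have := hno k (hD k hk).1 (hD k hk).2.1
      omega
    · have := hno b (hSH b hb).1 (hSH b hb).2.1
      omega

theorem key {P : IP G} (hP : D.Ext P) {SH Dd : Finset ℕ} {o : ℕ → V}
    (hSH : ∀ a ∈ SH, a < P.m ∧ G.Adj (P.p a) P.last ∧ c ≤ ℓ (P.p (a + 1)) + ℓ D.z ∧
      o a ∉ P.S ∧ G.Adj (P.p (a + 1)) (o a) ∧ G.Adj P.last (o a))
    (hoi : Set.InjOn o SH)
    (hD : ∀ a ∈ Dd, a < P.m ∧ G.Adj (P.p a) P.last ∧ c ≤ ℓ (P.p (a + 1)) + ℓ D.z ∧
      ℓ (P.p a) + ℓ D.z < c ∧ 1 ≤ a ∧ G.Adj (P.p (a - 1)) P.last) :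
    G.degree D.z + Dd.card + SH.card ≤ ℓ D.z := by
  have hDN : ∀ a ∈ Dd, D.N (P.p a) ∧ D.N (P.p (a + 1)) := by
    intro a ha
    obtain ⟨h1, h2, -, -, h3, h4⟩ := hD a ha
    refine ⟨?_, f1 hP h1 h2⟩
    have := f1 hP (a := a - 1) (by omega) h4
    rwa [show a - 1 + 1 = a by omega] at this
  by_cases hZ : 1 < (D.T ∩ ((Dd.filter fun a => P.p a ∉ D.Sb).image P.p ∪ SH.image o)).card
  · obtain ⟨i, w1, w2, w3⟩ := exists_window hP hSH hD hZ
    have h1 := card_two (F1 := Dd) (F2 := SH.erase (P.m - 1))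
      (T := Dd ∪ (SH.erase (P.m - 1)).image (· + 1)) id (· + 1) (Set.injOn_id _)
      (fun a _ b _ e => by simpa using e) (fun a ha => mem_union_left _ ha)
      (fun a ha => mem_union_right _ (mem_image_of_mem _ ha))
      (fun a ha b hb e => by
        simp only [id] at e
        have h1 := (hD a ha).2.2.2.1
        have h2 := (hSH b (mem_erase.1 hb).2).2.2.1
        rw [e] at h1
        omega)
    have h2 := card_two (F1 := Dd ∪ (SH.erase (P.m - 1)).image (· + 1))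
      (F2 := Ico i (i + (P.m + 1 - D.Sb.card)))
      (T := Dd ∪ (SH.erase (P.m - 1)).image (· + 1) ∪ Ico i (i + (P.m + 1 - D.Sb.card))) id id
      (Set.injOn_id _) (Set.injOn_id _) (fun a ha => mem_union_left _ ha)
      (fun a ha => mem_union_right _ ha)
      (fun a ha b hb e => by
        simp only [id] at e
        subst e
        obtain ⟨h3, h4⟩ := w3 a (mem_Ico.1 hb).1 (mem_Ico.1 hb).2
        rcases mem_union.1 ha with ha | ha
        · exact h3 ha
        · obtain ⟨b, hb, e⟩ := mem_image.1 ha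
          exact h4 b (mem_erase.1 hb).2 e.symm)
    have h3 := P.card_le_sum (f := fNN G ℓ D.t D.z)
      (F := Dd ∪ (SH.erase (P.m - 1)).image (· + 1) ∪ Ico i (i + (P.m + 1 - D.Sb.card)))
      (fun k hk => by
        rw [mem_union, mem_union] at hk
        rcases hk with (hk | hk) | hk
        · exact ⟨(hD k hk).1, (fNN_one (hDN k hk).1 (hDN k hk).2).ge⟩
        · obtain ⟨a, ha, rfl⟩ := mem_image.1 hk
          obtain ⟨h4, ha⟩ := mem_erase.1 ha
          obtain ⟨h5, h6, -, h7, h8, h9⟩ := hSH a ha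
          have := (tail_extrot hP h7 h9 (i := a + 1) (φ := P.m) (by omega) le_rfl h8).mem
            (r := 0) (Nat.zero_le _) (by omega)
          exact ⟨by omega, (fNN_one (f1 hP h5 h6) this).ge⟩
        · rw [mem_Ico] at hk
          exact ⟨by omega, (fNN_one (w2 k hk.1 (by omega)) (w2 (k + 1) (by omega) (by omega))).ge⟩)
    have h4 := pred_card_le_card_erase (s := SH) (a := P.m - 1)
    have h5 := hP.1.nn
    have h6 := size hP.1
    have h7 := z_def (D := D)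
    rw [Nat.card_Ico] at h2
    omega
  · set M := (Dd.filter fun a => P.p a ∉ D.Sb).image P.p ∪ SH.image o with hM
    have h1 := card_two (F1 := Dd.filter fun a => P.p a ∉ D.Sb) (F2 := SH) (T := M) P.p o
      (P.injOn_p fun a ha => (hD a (mem_filter.1 ha).1).1.le) hoi
      (fun a ha => mem_union_left _ (mem_image_of_mem _ ha))
      (fun a ha => mem_union_right _ (mem_image_of_mem _ ha))
      (fun a ha b hb e => (hSH b hb).2.2.2.1 (e ▸ P.p_mem (hD a (mem_filter.1 ha).1).1.le))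
    have h2 := card_two (F1 := M) (F2 := D.T \ M)
      (T := univ.filter fun v => NZ G ℓ D.t D.z v ∧ v ∉ D.Sb) id id
      (Set.injOn_id _) (Set.injOn_id _)
      (fun v hv => by
        refine mem_filter.2 ⟨mem_univ _, ?_⟩
        rcases mem_union.1 hv with hv | hv
        · obtain ⟨a, ha, rfl⟩ := mem_image.1 hv
          exact ⟨(hDN a (mem_filter.1 ha).1).1, (mem_filter.1 ha).2⟩
        · obtain ⟨a, ha, rfl⟩ := mem_image.1 hv
          obtain ⟨-, -, -, h7, -, h9⟩ := hSH a ha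
          have := f0 hP h7 h9
          have := D.cj
          exact ⟨outN (o := o a) hP.1 h7 (by omega), fun hh => h7 (hP.1.sub hh)⟩)
      (fun v hv => by
        obtain ⟨h1, h2, -⟩ := D.hT v (mem_sdiff.1 hv).1
        exact mem_filter.2 ⟨mem_univ _, ⟨h1, fun h => h2 (D.nz v h)⟩, h2⟩)
      (fun v hv w hw e => (mem_sdiff.1 hw).2 (by
        simp only [id] at e
        exact e ▸ hv))
    have h3 := card_sdiff_add_card_inter D.T M
    have h4 := card_filter_add_card_filter_not (s := Dd) (fun a => P.p a ∈ D.Sb)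
    have h5 := P.card_le_sum (f := fLB G ℓ c D.t D.z D.Sb) (F := Dd.filter fun a => P.p a ∈ D.Sb)
      (fun k hk => by
        obtain ⟨hk, hk'⟩ := mem_filter.1 hk
        refine ⟨(hD k hk).1, le_of_eq (if_pos ?_).symm⟩
        exact ⟨(hDN k hk).1, (hDN k hk).2, Or.inl ⟨(hD k hk).2.2.2.1, hk', (hD k hk).2.2.1⟩⟩)
    have h6 := hP.1.lb
    have h7 := D.K
    omega

theorem open_case (h : ∀ P, D.Ext P → ¬ P.Closed) : False := by
  obtain ⟨P, hP, hmax⟩ := exists_max_nat (fun P : IP G => ℓ P.last) D.exists_ext (Fintype.card V)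
    fun a _ => D.C.le _
  have hb := hP.1.big
  have hup : ∀ a ∈ P.Pv, ¬ ℓ P.last < ℓ (P.p (a + 1)) := by
    intro a ha hq
    obtain ⟨ha, h⟩ := P.mem_Pv.1 ha
    have := hmax _ (rotExt hP ha h (by omega) (upB hP ha h hq))
    simp only [IP.rot_last] at this
    omega
  refine finish hP.1 (P.deficient D.C.inj D.C.pos (fun a ha hq => (hup a ha hq).elim)
    (fun a ha _ _ _ hq => (hup a ha hq).elim) fun w hw h => by have := f0 hP hw h; omega) ?_
  let PC := P.Pv.filter fun a => c ≤ ℓ (P.p (a + 1)) + ℓ D.z ∧ c ≤ ℓ (P.p a) + ℓ D.z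
  have hPC : ∀ a, a ∈ PC ↔ (a < P.m ∧ G.Adj (P.p a) P.last) ∧
      c ≤ ℓ (P.p (a + 1)) + ℓ D.z ∧ c ≤ ℓ (P.p a) + ℓ D.z := fun a => by
    simp only [PC, mem_filter, IP.mem_Pv]
  obtain ⟨o, ho, hoi⟩ := choose_inj (F := PC)
    (R := fun a o => o ∉ P.S ∧ G.Adj (P.p (a + 1)) o ∧ ℓ o + ℓ D.z < c)
    (fun a ha => by
      obtain ⟨⟨h1, h2⟩, h3, h4⟩ := (hPC a).1 ha
      have hE := rotExt hP h1 h2 h3 h4
      obtain ⟨o, ho, hadj⟩ := IP.exists_out _ (h _ hE)
      have := f0 hE ho hadj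
      exact ⟨o, by simpa using ho, by simpa using hadj, this⟩)
    (fun a ha b hb hab o h1 h2 => by
      obtain ⟨⟨a1, a2⟩, a3, a4⟩ := (hPC a).1 ha
      obtain ⟨⟨b1, b2⟩, b3, b4⟩ := (hPC b).1 hb
      exact f2 hP hab b1 a2 b2 a3 b3 a4 b4 h1.1 h1.2.1 h2.2.1) P.root
  let PB := P.Pv.filter fun a => c ≤ ℓ (P.p (a + 1)) + ℓ D.z ∧ ℓ (P.p a) + ℓ D.z < c
  let PA := P.Pv.filter fun a => ℓ (P.p (a + 1)) + ℓ D.z < c
  have e1 : P.Pv.card ≤ PA.card + PB.card + PC.card := by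
    refine le_trans (card_le_card ?_) ((card_union_le (PA ∪ PB) PC).trans
      (Nat.add_le_add_right (card_union_le _ _) _))
    intro a ha
    simp only [PA, PB, PC, mem_union, mem_filter, ha, true_and]
    omega
  have hk := key hP (SH := PC.filter fun a => G.Adj P.last (o a))
    (Dd := PB.filter fun a => 1 ≤ a ∧ G.Adj (P.p (a - 1)) P.last) (o := o)
    (fun a ha => by
      obtain ⟨ha, h5⟩ := mem_filter.1 ha
      obtain ⟨⟨h1, h2⟩, h3, h4⟩ := (hPC a).1 ha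
      exact ⟨h1, h2, h3, (ho a ha).1, (ho a ha).2.1, h5⟩)
    (hoi.mono (coe_subset.2 (filter_subset _ _)))
    (fun a ha => by
      simp only [PB, mem_filter, IP.mem_Pv] at ha
      tauto)
  have e2 := card_filter_add_card_filter_not (s := PC) (fun a => G.Adj P.last (o a))
  have e3 := card_filter_add_card_filter_not (s := PB)
    (fun a => 1 ≤ a ∧ G.Adj (P.p (a - 1)) P.last)
  let Lam := univ.filter fun v => ℓ v + ℓ D.z < c
  have e4 := card_filter_add_card_filter_not (s := Lam) (fun v => v ∈ P.S)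
  have e5 : Lam.card ≤ c - ℓ D.z - 1 := D.C.card_le fun v hv => by
    have := (mem_filter.1 hv).2
    omega
  obtain ⟨w, hw, hadj⟩ := P.exists_out (h P hP)
  have e6 := f0 hP hw hadj
  have e7 := D.C.pos w
  have h1 := card_two (F1 := PA) (F2 := PB.filter fun a => ¬ (1 ≤ a ∧ G.Adj (P.p (a - 1)) P.last))
    (T := Lam.filter fun v => v ∈ P.S) (fun a => P.p (a + 1)) P.p
    (P.injOn_succ fun a ha => (P.mem_Pv.1 (mem_filter.1 ha).1).1)
    (P.injOn_p fun a ha => (P.mem_Pv.1 (mem_filter.1 (mem_filter.1 ha).1).1).1.le)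
    (fun a ha => mem_filter.2 ⟨mem_filter.2 ⟨mem_univ _, (mem_filter.1 ha).2⟩,
      P.p_mem (P.mem_Pv.1 (mem_filter.1 ha).1).1⟩)
    (fun a ha => mem_filter.2 ⟨mem_filter.2 ⟨mem_univ _, (mem_filter.1 (mem_filter.1 ha).1).2.2⟩,
      P.p_mem (P.mem_Pv.1 (mem_filter.1 (mem_filter.1 ha).1).1).1.le⟩)
    (fun a ha b hb e => by
      obtain ⟨h1, h2⟩ := P.mem_Pv.1 (mem_filter.1 ha).1
      obtain ⟨h3, h4⟩ := mem_filter.1 hb
      have := P.inj _ h1 _ (P.mem_Pv.1 (mem_filter.1 h3).1).1.le e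
      subst this
      exact h4 ⟨by omega, h2⟩)
  have h2 := card_two (F1 := PC.filter fun a => ¬ G.Adj P.last (o a)) (F2 := P.Out)
    (T := Lam.filter fun v => ¬ v ∈ P.S) o id (hoi.mono (coe_subset.2 (filter_subset _ _)))
    (Set.injOn_id _)
    (fun a ha => mem_filter.2 ⟨mem_filter.2 ⟨mem_univ _, (ho a (mem_filter.1 ha).1).2.2⟩,
      (ho a (mem_filter.1 ha).1).1⟩)
    (fun v hv => mem_filter.2 ⟨mem_filter.2 ⟨mem_univ _,
      f0 hP (P.mem_Out.1 hv).1 (P.mem_Out.1 hv).2⟩, (P.mem_Out.1 hv).1⟩)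
    (fun a ha v hv e => (mem_filter.1 ha).2 (by rw [e]; exact (P.mem_Out.1 hv).2))
  have h3 := P.degree_last
  omega

/-- The root process always produces a forbidden pair. -/
theorem elim (D : RD G ℓ c) : False := by
  by_cases h : ∃ P, D.Ext P ∧ P.Closed
  · exact closed_case h
  · exact open_case fun P hP hc => h ⟨P, hP, hc⟩

end RD

end Pool.Agent.Lib.MP_544a75_co
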