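import Mathlib

set_option autoImplicit false

namespace Pool.Agent.Lib.MP_544a75_co

open Finset

variable {V : Type*} [DecidableEq V]

/-- A weighted path from `a` to `y` with distinct interior vertices in `U` and weight at least `n`. -/
inductive WP (wt : V → V → ℕ) (y : V) : Finset V → V → ℕ → Prop
  | base {U : Finset V} {a : V} {n : ℕ} : 1 ≤ wt a y → n ≤ wt a y → WP wt y U a n
  | step {U : Finset V} {a c : V} {m n : ℕ} : c ∈ U → 1 ≤ wt a c → WP wt y (U.erase c) c m →
      n ≤ wt a c + m → WP wt y U a n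

theorem WP.mono {wt : V → V → ℕ} {y : V} {U : Finset V} {a : V} {n : ℕ} (h : WP wt y U a n) :
    ∀ {U' : Finset V}, U ⊆ U' → WP wt y U' a n := by
  induction h with
  | base h1 h2 => intro U' _; exact WP.base h1 h2
  | step hc h1 _ h3 ih =>
    intro U' hU
    exact WP.step (hU hc) h1 (ih (erase_subset_erase _ hU)) h3

theorem WP.le {wt : V → V → ℕ} {y : V} {U : Finset V} {a : V} {n n' : ℕ} (h : WP wt y U a n)
    (hn : n' ≤ n) : WP wt y U a n' := by
  cases h with
  | base h1 h2 => exact WP.base h1 (hn.trans h2)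
  | step hc h1 h2 h3 => exact WP.step hc h1 h2 (hn.trans h3)

theorem WP.one {wt : V → V → ℕ} {y : V} {U : Finset V} {a : V} {n : ℕ} (h : WP wt y U a n) :
    WP wt y U a 1 := by
  cases h with
  | base h1 h2 => exact WP.base h1 h1
  | step hc h1 h2 h3 => exact WP.step hc h1 h2 (by omega)

theorem WP.congr {wt wt' : V → V → ℕ} {y : V} {U : Finset V} {a : V} {n : ℕ}
    (h : WP wt y U a n) :
    (∀ s t, (s = a ∨ s ∈ U) → (t = y ∨ t ∈ U) → wt s t ≤ wt' s t) → WP wt' y U a n := by
  induction h with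
  | base h1 h2 =>
    intro hw
    have := hw _ _ (Or.inl rfl) (Or.inl rfl)
    exact WP.base (by omega) (by omega)
  | @step U a c m n hc h1 _ h3 ih =>
    intro hw
    have := hw a c (Or.inl rfl) (Or.inr hc)
    refine WP.step hc (by omega) (ih ?_) (by omega)
    intro s t hs ht
    apply hw
    · rcases hs with hs | hs
      · exact Or.inr (hs ▸ hc)
      · exact Or.inr (mem_of_mem_erase hs)
    · rcases ht with ht | ht
      · exact Or.inl ht
      · exact Or.inr (mem_of_mem_erase ht)

theorem WP.append {wt : V → V → ℕ} {y b : V} {H E : Finset V} {a : V} {p m : ℕ}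
    (h : WP wt b H a p) (h2 : WP wt y E b m) (hbE : b ∉ E) :
    b ∉ H → Disjoint H E → WP wt y (H ∪ insert b E) a (p + m) := by
  induction h with
  | @base U a n h1 h3 =>
    intro _ _
    refine WP.step (c := b) (by simp) h1 (h2.mono ?_) (by omega)
    intro t ht
    simp only [mem_erase, mem_union, mem_insert]
    exact ⟨fun e => hbE (e ▸ ht), Or.inr (Or.inr ht)⟩
  | @step U a c m' n hc h1 _ h3 ih =>
    intro hbU hd
    have := ih (fun e => hbU (mem_of_mem_erase e)) (hd.mono_left (erase_subset _ _))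
    refine WP.step (c := c) (by simp [hc]) h1 (this.mono ?_) (by omega)
    intro t ht
    simp only [mem_erase, mem_union, mem_insert] at ht ⊢
    rcases ht with ht | ht | ht
    · exact ⟨ht.1, Or.inl ht.2⟩
    · exact ⟨fun e => hbU (by rw [← ht, e]; exact hc), Or.inr (Or.inl ht)⟩
    · exact ⟨fun e => (disjoint_left.1 hd hc) (e ▸ ht), Or.inr (Or.inr ht)⟩

theorem WP.avoid {wt : V → V → ℕ} {y : V} {U : Finset V} {a : V} {n : ℕ} (h : WP wt y U a n)
    (u : V) : WP wt y (U.erase u) a 1 ∨ WP wt y (U.erase u) u 1 := by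
  induction h with
  | base h1 _ => exact Or.inl (WP.base h1 h1)
  | @step U a c m n hc h1 h2 _ ih =>
    by_cases hcu : c = u
    · subst hcu; exact Or.inr h2.one
    · rcases ih with ih | ih
      · left
        refine WP.step (c := c) (m := 1) (by simp [hc, hcu]) h1 ?_ (by omega)
        rwa [erase_right_comm]
      · right
        exact ih.mono (erase_subset_erase _ (erase_subset _ _))

theorem reach {wt : V → V → ℕ} {y : V} {E : Finset V}
    (h : ∀ U ⊆ E, U.Nonempty → ∃ u ∈ U, ∃ t, (t ∈ E ∨ t = y) ∧ t ∉ U ∧ 1 ≤ wt u t) :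
    ∀ u ∈ E, WP wt y (E.erase u) u 1 := by
  classical
  by_contra hne
  push Not at hne
  obtain ⟨u0, hu0, hn0⟩ := hne
  obtain ⟨u, hu, t, ht, htU, hw⟩ := h (E.filter fun u => ¬ WP wt y (E.erase u) u 1)
    (filter_subset _ _) ⟨u0, by simp [hu0, hn0]⟩
  rw [mem_filter] at hu
  apply hu.2
  rcases ht with ht | ht
  · have h1 : WP wt y (E.erase t) t 1 := by
      by_contra hh
      exact htU (by simp [ht, hh])
    have htu : t ≠ u := by
      intro e
      subst e
      exact hu.2 h1
    rcases h1.avoid u with h2 | h2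
    · refine WP.step (c := t) (m := 1) (by simp [ht, htu]) hw ?_ (by omega)
      rwa [erase_right_comm]
    · exact h2.mono (erase_subset_erase _ (erase_subset _ _))
  · subst ht
    exact WP.base hw hw

/-- A rooted two-connected weighted instance. -/
structure Inst (wt : V → V → ℕ) (D : Finset V) (x y : V) : Prop where
  symm : ∀ a b, wt a b = wt b a
  diag : ∀ u ∈ D, wt u u = 0
  le_one : ∀ u ∈ D, ∀ z ∈ D, wt u z ≤ 1
  xD : x ∉ D
  yD : y ∉ D
  xy : x ≠ y
  conn : ∀ U ⊆ D, U.Nonempty → ∀ z, ∃ u ∈ U, ∃ t,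
    (t ∈ D ∨ t = x ∨ t = y) ∧ t ∉ U ∧ t ≠ z ∧ 1 ≤ wt u t

/-- Weighted degree. -/
def deg (wt : V → V → ℕ) (D : Finset V) (x y u : V) : ℕ := ∑ z ∈ D, wt u z + wt u x + wt u y

/-- Every weighted path between the roots has weight at most `k`. -/
def PB (wt : V → V → ℕ) (D : Finset V) (x y : V) (k : ℤ) : Prop :=
  ∀ n : ℕ, WP wt y D x n → (n : ℤ) ≤ k

/-- Score of a vertex. -/
def phi (t : ℤ) : ℤ := if t < 0 then 1 else if t = 0 then 0 else -1

theorem phi_anti {s t : ℤ} (h : s ≤ t) : phi t ≤ phi s := by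
  unfold phi; split_ifs <;> omega

theorem phi_le_one (t : ℤ) : phi t ≤ 1 := by unfold phi; split_ifs <;> omega

theorem neg_one_le_phi (t : ℤ) : -1 ≤ phi t := by unfold phi; split_ifs <;> omega

theorem phi_neg {t : ℤ} (h : t < 0) : phi t = 1 := by unfold phi; rw [if_pos h]

theorem phi_pos {t : ℤ} (h : 0 < t) : phi t = -1 := by
  unfold phi; rw [if_neg (by omega), if_neg (by omega)]

theorem phi_zero : phi 0 = 0 := by simp [phi]

theorem phi_nonneg {t : ℤ} (h : t ≤ 0) : 0 ≤ phi t := by unfold phi; split_ifs <;> omega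

theorem phi_pred {s t : ℤ} (h : t - 1 ≤ s) : phi s ≤ phi t + 1 := by
  unfold phi; split_ifs <;> omega

/-- Contracting `v` into `f`. -/
def ctr (wt : V → V → ℕ) (v f : V) : V → V → ℕ := fun a b =>
  if a = f ∧ b ≠ f then max (wt f b) (wt v b)
  else if b = f ∧ a ≠ f then max (wt a f) (wt a v) else wt a b

theorem le_ctr (wt : V → V → ℕ) (v f a b : V) : wt a b ≤ ctr wt v f a b := by
  unfold ctr
  split_ifs with h1 h2
  · rw [h1.1]; exact le_max_left _ _
  · rw [h2.1]; exact le_max_left _ _
  · exact le_rfl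

theorem ctr_other (wt : V → V → ℕ) (v f : V) {a b : V} (ha : a ≠ f) (hb : b ≠ f) :
    ctr wt v f a b = wt a b := by simp [ctr, ha, hb]

theorem ctr_left (wt : V → V → ℕ) (v f : V) {b : V} (hb : b ≠ f) :
    ctr wt v f f b = max (wt f b) (wt v b) := by simp [ctr, hb]

theorem ctr_right (wt : V → V → ℕ) (v f : V) {a : V} (ha : a ≠ f) :
    ctr wt v f a f = max (wt a f) (wt a v) := by simp [ctr, ha]

theorem ctr_L1 {wt : V → V → ℕ} {v f y : V} {U : Finset V} {a : V} {n : ℕ}
    (h : WP (ctr wt v f) y U a n) (hU : f ∉ U) (ha : a ≠ f) (hy : y ≠ f) : WP wt y U a n := by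
  apply h.congr
  intro s t hs ht
  rw [ctr_other]
  · rcases hs with hs | hs
    · exact hs ▸ ha
    · exact fun e => hU (e ▸ hs)
  · rcases ht with ht | ht
    · exact ht ▸ hy
    · exact fun e => hU (e ▸ ht)

theorem ctr_L2 {wt : V → V → ℕ} {v f y : V} {U : Finset V} {n : ℕ}
    (h : WP (ctr wt v f) y U f n) (hU : f ∉ U) (hy : y ≠ f) :
    WP wt y U f n ∨ WP wt y U v n := by
  cases h with
  | base h1 h2 =>
    rw [ctr_left _ _ _ hy] at h1 h2
    rcases le_total (wt f y) (wt v y) with h | h
    · rw [max_eq_right h] at h1 h2; exact Or.inr (WP.base h1 h2)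
    · rw [max_eq_left h] at h1 h2; exact Or.inl (WP.base h1 h2)
  | @step _ _ c m _ hc h1 h2 h3 =>
    have hcf : c ≠ f := fun e => hU (e ▸ hc)
    rw [ctr_left _ _ _ hcf] at h1 h3
    have h4 := ctr_L1 h2 (fun e => hU (mem_of_mem_erase e)) hcf hy
    rcases le_total (wt f c) (wt v c) with h | h
    · rw [max_eq_right h] at h1 h3; exact Or.inr (WP.step hc h1 h4 h3)
    · rw [max_eq_left h] at h1 h3; exact Or.inl (WP.step hc h1 h4 h3)

theorem ctr_L3 {wt : V → V → ℕ} {v y : V} {U : Finset V} {a : V} {n : ℕ}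
    (h : WP (ctr wt v y) y U a n) (hvy : 1 ≤ wt v y) :
    y ∉ U → v ∉ U → a ≠ y → WP wt y (insert v U) a n := by
  induction h with
  | @base U a n h1 h2 =>
    intro _ _ ha
    rw [ctr_right _ _ _ ha] at h1 h2
    rcases le_total (wt a y) (wt a v) with h | h
    · rw [max_eq_right h] at h1 h2
      exact WP.step (c := v) (m := 1) (by simp) h1 (WP.base hvy hvy) (by omega)
    · rw [max_eq_left h] at h1 h2; exact WP.base h1 h2
  | @step U a c m n hc h1 _ h3 ih =>
    intro hy hv ha
    have hcy : c ≠ y := fun e => hy (e ▸ hc)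
    rw [ctr_other _ _ _ ha hcy] at h1 h3
    have := ih (fun e => hy (mem_of_mem_erase e)) (fun e => hv (mem_of_mem_erase e)) hcy
    refine WP.step (c := c) (by simp [hc]) h1 (this.mono ?_) h3
    intro t ht
    simp only [mem_erase, mem_insert] at ht ⊢
    rcases ht with ht | ht
    · exact ⟨fun e => hv (by rw [← ht, e]; exact hc), Or.inl ht⟩
    · exact ⟨ht.1, Or.inr ht.2⟩

theorem ctr_L4 {wt : V → V → ℕ} {v f y : V} {U : Finset V} {a : V} {n : ℕ}
    (h : WP (ctr wt v f) y U a n) (hvf : 1 ≤ wt v f) (hfv : 1 ≤ wt f v) (hy : y ≠ f) :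
    v ∉ U → a ≠ f → WP wt y (insert v U) a n := by
  induction h with
  | @base U a n h1 h2 =>
    intro _ ha
    rw [ctr_other _ _ _ ha hy] at h1 h2
    exact WP.base h1 h2
  | @step U a c m n hc h1 h2 h3 ih =>
    intro hv ha
    by_cases hcf : c = f
    · subst hcf
      have hvc : v ≠ c := fun e => hv (e ▸ hc)
      rw [ctr_right _ _ _ ha] at h1 h3
      have hs1 : U.erase c ⊆ (insert v U).erase c := erase_subset_erase _ (subset_insert _ _)
      have hs2 : U.erase c ⊆ (insert v U).erase v := by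
        rw [erase_insert hv]; exact erase_subset _ _
      have hs3 : U.erase c ⊆ ((insert v U).erase c).erase v := by
        rw [erase_right_comm, erase_insert hv]
      have hs4 : U.erase c ⊆ ((insert v U).erase v).erase c := by
        rw [erase_insert hv]
      rcases ctr_L2 h2 (by simp) hy with h5 | h5
      · rcases le_total (wt a c) (wt a v) with h | h
        · rw [max_eq_right h] at h1 h3
          refine WP.step (c := v) (m := m) (by simp) h1 ?_ h3
          exact WP.step (c := c) (by simp [hc, hvc.symm]) hvf (h5.mono hs4) (by omega)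
        · rw [max_eq_left h] at h1 h3
          exact WP.step (c := c) (by simp [hc]) h1 (h5.mono hs1) h3
      · rcases le_total (wt a c) (wt a v) with h | h
        · rw [max_eq_right h] at h1 h3
          exact WP.step (c := v) (by simp) h1 (h5.mono hs2) h3
        · rw [max_eq_left h] at h1 h3
          refine WP.step (c := c) (m := m) (by simp [hc]) h1 ?_ h3
          exact WP.step (c := v) (by simp [hvc]) hfv (h5.mono hs3) (by omega)
    · rw [ctr_other _ _ _ ha hcf] at h1 h3
      have := ih (fun e => hv (mem_of_mem_erase e)) hcf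
      refine WP.step (c := c) (by simp [hc]) h1 (this.mono ?_) h3
      intro t ht
      simp only [mem_erase, mem_insert] at ht ⊢
      rcases ht with ht | ht
      · exact ⟨fun e => hv (by rw [← ht, e]; exact hc), Or.inl ht⟩
      · exact ⟨ht.1, Or.inr ht.2⟩

end Pool.Agent.Lib.MP_544a75_co
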